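import Pool.Agent.H13.K2S.Claim
import Pool.Agent.H13.LK.Stmts

/-!
# The engine for a general class (H13.K2S.Claim)
-/

set_option autoImplicit false

namespace Pool.K2S.G

open Finset Real
open Pool.Agent.H49.Ent Pool.Agent.H32.Dense Pool.STK Pool.KA Pool.KSAT
open Pool.K2S Pool.PB Pool.LK

variable {m : ℕ} {S : FCl m}

/-- The statement holds for stable events of maximal families; `r` levels. -/
def Cl {m : ℕ} (S : FCl m) : ℕ → Stat m → Prop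
  | 0, Φ => ∃ τ > 0, ∃ J₁ : ℕ, ∀ J ≥ J₁, ∀ (F : Fam m J) (A : F.Ω → Prop),
      S.St τ F A → Φ J F A
  | r + 1, Φ => ∃ L : PList m, ∀ κ > 0, Cl S r (fun _ F A => L.Sb F κ A → Φ _ F A)

/-- The statement holds for stable events of maximal families. -/
def Claim {m : ℕ} (S : FCl m) (Φ : Stat m) : Prop := ∃ r, Cl S r Φ

theorem Cl.mono {J₂ : ℕ} : ∀ {r : ℕ} {Φ Ψ : Stat m},
    (∀ J ≥ J₂, ∀ (F : Fam m J) (A : F.Ω → Prop), Φ J F A → Ψ J F A) → Cl S r Φ → Cl S r Ψ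
  | 0, _, _, h, ⟨τ, hτ, J₁, hc⟩ => ⟨τ, hτ, max J₁ J₂, fun J hJ F A hA =>
      h J ((le_max_right _ _).trans hJ) F A (hc J ((le_max_left _ _).trans hJ) F A hA)⟩
  | _ + 1, _, _, h, ⟨L, hc⟩ => ⟨L, fun κ hκ =>
      Cl.mono (fun J hJ F A h1 h2 => h J hJ F A (h1 h2)) (hc κ hκ)⟩

theorem Cl.and : ∀ {r : ℕ} {Φ Ψ : Stat m},
    Cl S r Φ → Cl S r Ψ → Cl S r (fun _ F A => Φ _ F A ∧ Ψ _ F A)
  | 0, _, _, ⟨τ, hτ, J₁, hc⟩, ⟨τ', hτ', J₁', hc'⟩ => ⟨min τ τ', lt_min hτ hτ', max J₁ J₁',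
      fun J hJ F A hA => ⟨hc J ((le_max_left _ _).trans hJ) F A (hA.mono (min_le_left _ _)),
        hc' J ((le_max_right _ _).trans hJ) F A (hA.mono (min_le_right _ _))⟩⟩
  | r + 1, Φ, Ψ, ⟨L, hc⟩, ⟨L', hc'⟩ => by
    refine ⟨⟨L.n + L'.n, fun J F => Fin.addCases (L.Q J F) (L'.Q J F), ?_⟩, fun κ hκ => ?_⟩
    · intro J F i
      refine Fin.addCases (fun i => ?_) (fun i => ?_) i
      · simpa using L.her J F i
      · simpa using L'.her J F i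
    · refine Cl.mono (J₂ := 0) ?_ (Cl.and (hc κ hκ) (hc' κ hκ))
      rintro J - F A ⟨h1, h2⟩ h3
      refine ⟨h1 fun i => ?_, h2 fun i => ?_⟩
      · have := h3 (Fin.castAdd _ i)
        simpa using this
      · have := h3 (Fin.natAdd _ i)
        simpa using this

theorem Cl.succ {r : ℕ} {Φ : Stat m} (h : Cl S r Φ) : Cl S (r + 1) Φ :=
  ⟨⟨0, fun _ _ i => Fin.elim0 i, fun _ _ i => Fin.elim0 i⟩, fun _ _ =>
    Cl.mono (J₂ := 0) (fun _ _ _ _ h1 _ => h1) h⟩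

theorem Cl.le {r r' : ℕ} (hr : r ≤ r') {Φ : Stat m} (h : Cl S r Φ) :
    Cl S r' Φ := by
  induction hr with
  | refl => exact h
  | step _ ih => exact ih.succ

theorem Claim.mono {Φ Ψ : Stat m} (J₂ : ℕ)
    (h : ∀ J ≥ J₂, ∀ (F : Fam m J) (A : F.Ω → Prop), Φ J F A → Ψ J F A) (hc : Claim S Φ) :
    Claim S Ψ := hc.imp fun _ hr => Cl.mono h hr

theorem Claim.and {Φ Ψ : Stat m} (h1 : Claim S Φ) (h2 : Claim S Ψ) :
    Claim S (fun _ F A => Φ _ F A ∧ Ψ _ F A) := by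
  obtain ⟨r, hr⟩ := h1
  obtain ⟨r', hr'⟩ := h2
  exact ⟨max r r', Cl.and (hr.le (le_max_left _ _)) (hr'.le (le_max_right _ _))⟩

/-- A claim which holds without stability. -/
theorem Claim.of {τ : ℝ} {Φ : Stat m} (hτ : 0 < τ) (J₁ : ℕ)
    (h : ∀ J ≥ J₁, ∀ (F : Fam m J) (A : F.Ω → Prop), S.St τ F A → Φ J F A) :
    Claim S Φ := ⟨0, τ, hτ, J₁, h⟩

/-- A claim with one level. -/
theorem Claim.one {Φ : Stat m} (L : PList m)
    (h : ∀ κ > 0, ∃ τ > 0, ∃ J₁ : ℕ, ∀ J ≥ J₁, ∀ (F : Fam m J) (A : F.Ω → Prop),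
      S.St τ F A → L.Sb F κ A → Φ J F A) : Claim S Φ := by
  refine ⟨1, L, fun κ hκ => ?_⟩
  obtain ⟨τ, hτ, J₁, h1⟩ := h κ hκ
  exact ⟨τ, hτ, J₁, h1⟩

theorem Claim.mp {Φ Ψ : Stat m} (h1 : Claim S (fun _ F A => Φ _ F A → Ψ _ F A))
    (h2 : Claim S Φ) : Claim S Ψ :=
  Claim.mono 0 (fun _ _ _ _ h => h.1 h.2) (h1.and h2)

/-- Finitely many claims. -/
theorem Claim.all (n : ℕ) {Φ : ℕ → Stat m} (h : ∀ i < n, Claim S (Φ i)) :
    Claim S (fun _ F A => ∀ i < n, Φ i _ F A) := by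
  induction n with
  | zero => exact Claim.of one_pos 0 (fun _ _ _ _ _ i hi => absurd hi (by omega))
  | succ n ih =>
    refine Claim.mono 0 ?_ ((ih fun i hi => h i (by omega)).and (h n (by omega)))
    rintro J - F A ⟨h1, h2⟩ i hi
    rcases Nat.lt_succ_iff_lt_or_eq.1 hi with h3 | h3
    · exact h1 i h3
    · rw [h3]; exact h2

theorem Cl.win : ∀ (r : ℕ) (Φ : Stat m), Cl S r Φ → ∀ δ > 0,
    ∃ c > 0, ∃ J₁ : ℕ, ∀ J ≥ J₁, ∀ (F : Fam m J) (A₀ : F.Ω → Prop), S.St c F A₀ →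
      ∃ A : F.Ω → Prop, Sub A A₀ ∧ Real.exp (-(δ * J)) * Pe F.p A₀ ≤ Pe F.p A ∧ Φ J F A := by
  intro r
  induction r with
  | zero =>
    rintro Φ ⟨τ, hτ, J₁, h⟩ δ hδ
    refine ⟨τ, hτ, J₁, fun J hJ F A₀ hS => ⟨A₀, fun _ h => h, ?_, h J hJ F A₀ hS⟩⟩
    have : Real.exp (-(δ * J)) ≤ 1 := by
      rw [Real.exp_le_one_iff]
      have : 0 ≤ δ * J := by positivity
      linarith
    calc _ ≤ 1 * Pe F.p A₀ := mul_le_mul_of_nonneg_right this (Pe_nonneg F.isLaw A₀)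
      _ = _ := one_mul _
  | succ r ih =>
    rintro Φ ⟨L, hL⟩ δ hδ
    have key : ∀ κ : ℝ, ∃ c : ℝ, ∃ J₁ : ℕ, 0 < κ → 0 < c ∧ ∀ J ≥ J₁, ∀ (F : Fam m J)
        (A₀ : F.Ω → Prop), S.St c F A₀ → ∃ A : F.Ω → Prop, Sub A A₀ ∧
        Real.exp (-(min κ (δ / 2) * J)) * Pe F.p A₀ ≤ Pe F.p A ∧ (L.Sb F κ A → Φ J F A) := by
      intro κ
      by_cases hκ : 0 < κ
      · obtain ⟨c, hc, J₁, h⟩ := ih _ (hL κ hκ) (min κ (δ / 2)) (lt_min hκ (half_pos hδ))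
        exact ⟨c, J₁, fun _ => ⟨hc, h⟩⟩
      · exact ⟨0, 0, fun h => absurd h hκ⟩
    choose c J₁ hc using key
    obtain ⟨κ, hκ0, hκ⟩ := exists_seq L.n (fun κ => min (c κ / 4) (δ / 4))
      (fun κ hκ => lt_min (by have := (hc κ hκ).1; linarith) (by linarith))
    obtain ⟨μ, hμ0, hμ⟩ : ∃ μ > 0, ∀ n ≤ L.n, μ ≤ c (κ n) / 2 := by
      have hne : ((range (L.n + 1)).image fun n => c (κ n) / 2).Nonempty :=
        ⟨c (κ 0) / 2, Finset.mem_image.2 ⟨0, Finset.mem_range.2 (by omega), rfl⟩⟩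
      refine ⟨((range (L.n + 1)).image fun n => c (κ n) / 2).min' hne, ?_, fun n hn => ?_⟩
      · obtain ⟨n, -, hn⟩ := Finset.mem_image.1 (Finset.min'_mem _ hne)
        rw [← hn]
        exact half_pos (hc _ (hκ0 n)).1
      · exact Finset.min'_le _ _ (Finset.mem_image.2 ⟨n, Finset.mem_range.2 (by omega), rfl⟩)
    obtain ⟨J₂, hJ₂⟩ : ∃ J₂ : ℕ, ∀ n ≤ L.n, J₁ (κ n) ≤ J₂ :=
      ⟨∑ n ∈ range (L.n + 1), J₁ (κ n), fun n hn =>
        Finset.single_le_sum (f := fun n => J₁ (κ n)) (fun _ _ => Nat.zero_le _)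
          (Finset.mem_range.2 (by omega))⟩
    refine ⟨μ, hμ0, J₂, fun J hJ F A₀ hS => ?_⟩
    have hJr : (0 : ℝ) ≤ J := Nat.cast_nonneg J
    obtain ⟨n, hn, A₁, hA1, hP1, hS1⟩ := stab_inside (p := F.p) (L.Q J F) (L.her J F)
      (fun i => 2 * κ i * J) A₀
    have hsum : ∑ i ∈ range n, 2 * κ i * J = 2 * (∑ i ∈ range n, κ i) * J := by
      rw [Finset.mul_sum, Finset.sum_mul]
    rw [hsum] at hP1
    have hle := hκ n hn
    have hle1 : ∑ i ∈ range n, κ i ≤ c (κ n) / 4 := hle.trans (min_le_left _ _)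
    have hle2 : ∑ i ∈ range n, κ i ≤ δ / 4 := hle.trans (min_le_right _ _)
    obtain ⟨hcn, hwin⟩ := hc (κ n) (hκ0 n)
    have hS' : S.St (c (κ n)) F A₁ := by
      have h0 := hS.mono (τ' := c (κ n)) ((hμ n hn).trans (by linarith))
      refine ⟨h0.1, ?_⟩
      refine le_trans ?_ hP1
      refine le_trans ?_ (mul_le_mul_of_nonneg_left hS.2 (Real.exp_pos _).le)
      rw [← Real.exp_add]
      refine Real.exp_le_exp.2 ?_
      have e1 : 2 * (∑ i ∈ range n, κ i) * J ≤ c (κ n) / 2 * J :=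
        mul_le_mul_of_nonneg_right (by linarith) hJr
      have e2 : μ * J ≤ c (κ n) / 2 * J := mul_le_mul_of_nonneg_right (hμ n hn) hJr
      linarith
    obtain ⟨A, hA, hP, hΦ⟩ := hwin J ((hJ₂ n hn).trans hJ) F A₁ hS'
    refine ⟨A, hA.trans hA1, ?_, hΦ fun i => ?_⟩
    · refine le_trans ?_ hP
      refine le_trans ?_ (mul_le_mul_of_nonneg_left hP1 (Real.exp_pos _).le)
      rw [← mul_assoc, ← Real.exp_add]
      refine mul_le_mul_of_nonneg_right (Real.exp_le_exp.2 ?_) (Pe_nonneg F.isLaw A₀)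
      have e1 : 2 * (∑ i ∈ range n, κ i) * J ≤ δ / 2 * J :=
        mul_le_mul_of_nonneg_right (by linarith) hJr
      have e2 : min (κ n) (δ / 2) * J ≤ δ / 2 * J :=
        mul_le_mul_of_nonneg_right (min_le_right _ _) hJr
      linarith
    · have h1 := (hS1 i).sub (L.her J F i) hA hP
      refine h1.mono F.isLaw ?_
      have e2 : min (κ n) (δ / 2) * J ≤ κ n * J :=
        mul_le_mul_of_nonneg_right (min_le_left _ _) hJr
      linarith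

/-- The law on the event. -/
theorem St_res {τ : ℝ} {J : ℕ} {F : Fam m J} {A : F.Ω → Prop} (hτ : 0 ≤ τ) (hS : S.St τ F A) :
    ∃ h : IsLaw (Pool.Agent.H49.Ent.cond F.p A True), (F.res A True h).Tr ∧
      (F.res A True h).Tm ((6 * τ) * J) ∧ (F.res A True h).Rb ((2 * τ) * J) := by
  have hJ : (0 : ℝ) ≤ J := Nat.cast_nonneg J
  obtain ⟨h, h1, h2, h3, h4⟩ := res_thm m J F 0 (τ * J) (τ * J) (τ * J) le_rfl
    (by positivity) (by positivity) (S.tr hS.1) (S.rb hS.1) (S.tm hS.1) A hS.2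
  refine ⟨h, h1, ?_, ?_⟩
  · unfold Fam.Tm at h3 ⊢
    have : τ * J + 4 * (τ * J) + τ * J = 6 * τ * J := by ring
    linarith
  · have e : τ * (J : ℝ) + τ * J = 2 * τ * J := by ring
    rw [← e]
    exact h2

/-- A claim is realised. -/
theorem Claim.real (hex : ∀ τ > 0, ∀ J₀ : ℕ, ∃ J ≥ J₀, ∃ F : Fam m J, S.T τ J F) {Φ : Stat m}
    (hc : Claim S Φ) : ∃ (J : ℕ) (F : Fam m J) (A : F.Ω → Prop), Φ J F A := by
  obtain ⟨r, hr⟩ := hc
  obtain ⟨c, hc0, J₁, h⟩ := Cl.win r Φ hr 1 one_pos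
  obtain ⟨J, hJ, F, hF⟩ := hex c hc0 J₁
  have hp := F.isLaw
  obtain ⟨A, -, -, hA⟩ := h J hJ F (fun _ => True) ⟨hF, by
    have h1 : Pe F.p (fun _ => True) = 1 := by
      rw [Pe_eq]
      simp [hp.sum_one]
    rw [h1, Real.exp_le_one_iff]
    have : 0 ≤ c * J := by positivity
    linarith⟩
  exact ⟨J, F, A, hA⟩

end Pool.K2S.G
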