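import Pool.Agent.H13.K2S.Skel
import Pool.Agent.H13.EG.Claim

/-!
# The engine for a general class (H13.K2S.Skel)
-/

set_option autoImplicit false

namespace Pool.K2S.G

open Finset Real
open Pool.Agent.H49.Ent Pool.Agent.H32.Dense Pool.STK Pool.KA Pool.KSAT
open Pool.K2S Pool.PB Pool.LK


/-- **(CHT)** The fans are flat up to a fixed proportion of the resolution, in a fixed chart. -/
def CHTStmt (S : FCl 2) : Prop :=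
  ∀ a R : ℝ, 1 ≤ a → 0 < R → GW S a R → ∃ c₁ : ℝ, 0 < c₁ ∧ c₁ ≤ 1 ∧
    Claim S (fun J F A => ∃ i₀ : Fin 2, Lb F i₀ ⌊c₁ * J⌋₊ A)

/-- **(ZON)** In every tail there is a zone with unsaturated rows. -/
def ZONStmt (S : FCl 2) : Prop :=
  ∀ a R : ℝ, 1 ≤ a → 0 < R → GW S a R → ∀ X : ℝ, 0 < X → X ≤ 1 →
    ∃ c : ℝ, 0 < c ∧ ∃ X' : ℝ, 0 < X' ∧
    ∀ e : ℝ, 0 < e → e ≤ X' → ∃ N₁ : ℕ, ∀ N ≥ N₁,
    Claim S (fun J F A => ∃ p₁ p₂ : ℕ, p₁ ≤ p₂ ∧ p₂ ≤ N ∧ (1 - X) * N ≤ p₁ ∧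
      X' * N ≤ (N : ℝ) - p₂ ∧ e * N ≤ (p₂ : ℝ) - p₁ ∧ (p₂ : ℝ) - p₁ ≤ 2 * (e * N) ∧
      Zn F c (p₁ * (J / N)) (p₂ * (J / N)) A)

/-- **(FF)** If the fans at exact points are flat to precision `lam` and the frames are conserved
to precision `lam` on windows of length `2 ^ (-w)`, where the row `lam + w` is in the tail, then
the fans are flat to precision `lam + h`, with `h` macroscopic. -/
def FFStmt (S : FCl 2) : Prop :=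
  ∀ a R : ℝ, 1 < a → 0 < R → GW S a R → ∀ X h₁ ω₀ : ℝ, 0 < X → 0 < h₁ → 0 < ω₀ →
    ∃ h₂ : ℝ, 0 < h₂ ∧ ∃ N₁ : ℕ, ∀ N ≥ N₁, ∀ (i₀ : Fin 2) (p j : ℕ), j ≤ p → p ≤ N →
    X * N ≤ (N : ℝ) - p → h₁ * N ≤ j → ω₀ * N ≤ (p : ℝ) - j →
    Claim S (fun J F A => Lb F i₀ ⌊h₁ * J⌋₊ A → Ln F i₀ (j * (J / N)) A →
      Cn F i₀ (j * (J / N)) ((p - j) * (J / N)) A →
      ∀ h : ℕ, (h : ℝ) ≤ h₂ * J → Ln F i₀ (j * (J / N) + h) A)

/-- **(ENG)** The engine: the frames cannot turn while the critical row crosses the zone. -/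
def ENGStmt (S : FCl 2) : Prop :=
  ∀ a R : ℝ, 1 < a → 0 < R → GW S a R → ∀ c e μ h₁ ω₀ : ℝ, 0 < c → 0 < e → 0 < μ → 0 < h₁ →
    0 < ω₀ → ∃ N₁ : ℕ, ∀ N ≥ N₁, ∀ (i₀ : Fin 2) (p₁ p₂ j : ℕ), p₁ ≤ p₂ → p₂ ≤ N →
    e * N ≤ (p₂ : ℝ) - p₁ → j ≤ p₁ → 1 ≤ j → ω₀ * N ≤ (p₁ : ℝ) - j →
    Claim S (fun J F A => Zn F c (p₁ * (J / N)) (p₂ * (J / N)) A →
      Lb F i₀ ⌊h₁ * J⌋₊ A →
      (∀ h : ℕ, (h : ℝ) ≤ ((p₂ : ℝ) - p₁ + j) * (J / N : ℕ) + μ * J → Ln F i₀ h A) →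
      (∀ i < j, Cn F i₀ (i * (J / N)) ((p₁ - i) * (J / N)) A) →
      Cn F i₀ (j * (J / N)) ((p₁ - j) * (J / N)) A)

/-- **(NPC)** The end: on macroscopic windows of small length exponent the frames cannot be
conserved to almost full precision. -/
def NPCStmt (S : FCl 2) : Prop :=
  ∀ a R : ℝ, 1 < a → 0 < R → GW S a R → ∃ x : ℝ, 0 < x ∧ x ≤ 1 ∧ ∀ h₁ : ℝ, 0 < h₁ →
    ∃ N₁ : ℕ, ∀ N ≥ N₁,
    ∀ (i₀ : Fin 2) (j v : ℕ), j ≤ N → (1 - x) * N ≤ (j : ℝ) → (v : ℝ) ≤ x * N →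
    Claim S (fun J F A => Lb F i₀ ⌊h₁ * J⌋₊ A →
      Cn F i₀ (j * (J / N)) (v * (J / N)) A → False)

section Gen

variable {m : ℕ} {S : FCl m}

theorem Claim.fin : ∀ {n : ℕ} {Φ : Fin n → Stat m}, (∀ i, Claim S (Φ i)) →
    Claim S (fun _ F A => ∀ i, Φ i _ F A)
  | 0, _, _ => Claim.of one_pos 0 (fun _ _ _ _ _ i => Fin.elim0 i)
  | n + 1, Φ, h => by
    refine Claim.mono 0 ?_ ((h 0).and (Claim.fin (Φ := fun i : Fin n => Φ i.succ)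
      fun i => h i.succ))
    rintro J - F A ⟨h1, h2⟩ i
    exact Fin.cases h1 h2 i

theorem Claim.finite {ι : Type} [Finite ι] {Φ : ι → Stat m}
    (h : ∀ i, Claim S (Φ i)) : Claim S (fun _ F A => ∀ i, Φ i _ F A) := by
  obtain ⟨n, ⟨e⟩⟩ := Finite.exists_equiv_fin ι
  refine Claim.mono 0 ?_ (Claim.fin (Φ := fun i : Fin n => Φ (e.symm i)) fun i => h _)
  intro J _ F A h1 i
  have := h1 (e i)
  simpa using this

/-- A claim under a condition which does not depend on the family. -/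
theorem Claim.cnd {P : Prop} {Φ : Stat m} (h : P → Claim S Φ) :
    Claim S (fun _ F A => P → Φ _ F A) := by
  by_cases hP : P
  · exact Claim.mono 0 (fun _ _ _ _ h1 _ => h1) (h hP)
  · exact Claim.of one_pos 0 (fun _ _ _ _ _ h1 => absurd h1 hP)

end Gen

end Pool.K2S.G
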