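import Pool.Agent.H13.K2S.Zon
import Pool.Agent.H13.EG.Skel

/-!
# The engine for a general class (H13.K2S.Zon)
-/

set_option autoImplicit false

namespace Pool.K2S.G

open Finset Real
open Pool.Agent.H49.Ent Pool.Agent.H32.Dense Pool.STK Pool.KA Pool.KSAT
open Pool.K2S Pool.PB Pool.LK

/-- **(P3)** The rows of a tail are not full. -/
theorem tail_thm (m : ℕ) {S : FCl m} {a R : ℝ} (ha : 1 ≤ a) (hU : GW S a R)
    {η : ℝ} (hη : 0 < η) : ∃ τ : ℝ, 0 < τ ∧ ∃ J₁ : ℕ, ∀ J ≥ J₁, ∀ (F : Fam m J)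
      (A : F.Ω → Prop), S.St τ F A → ∀ x : ℕ, x ≤ J → J ≤ 2 * x →
      CH (Pool.Agent.H49.Ent.cond F.p A True) (F.X J) (fun ω => (F.X x ω, F.W ω)) ≤
        (m * Real.log 2 - R / a) * ((J : ℝ) - x) + η * J := by
  have ha0 : 0 < a := by linarith
  obtain ⟨τ, hτ, J₁, h1⟩ := hU.tail η hη
  refine ⟨τ, hτ, J₁, fun J hJ F A hS x hx _ => ?_⟩
  have h2 := h1 J hJ F A hS x hx
  have hl2 : 0 < Real.log 2 := Real.log_pos (by norm_num)
  have hd : 0 ≤ (J : ℝ) - x := by
    have : (x : ℝ) ≤ J := by exact_mod_cast hx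
    linarith
  have hJ0 : (0 : ℝ) ≤ J := Nat.cast_nonneg J
  have f1 : a * ((m * Real.log 2 - R / a) * ((J : ℝ) - x) + η * J) =
      ((m * Real.log 2 - R) * ((J : ℝ) - x) + η * J) +
      ((a - 1) * (m * Real.log 2) * ((J : ℝ) - x) + (a - 1) * (η * J)) := by
    field_simp
    ring
  have f2 : 0 ≤ (a - 1) * (m * Real.log 2) * ((J : ℝ) - x) + (a - 1) * (η * J) := by
    have : 0 ≤ a - 1 := by linarith
    positivity
  exact le_of_mul_le_mul_left (by linarith) ha0

theorem zon_thm (S : FCl 2) : ZONStmt S := by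
  intro a R ha hR hU X₀ hX₀ hX₀1
  have ha0 : 0 < a := by linarith
  have hl2 : 0 < Real.log 2 := Real.log_pos (by norm_num)
  obtain ⟨X, hX⟩ : ∃ X, X = min X₀ (1 / 4) := ⟨_, rfl⟩
  have hX0 : 0 < X := by rw [hX]; exact lt_min hX₀ (by norm_num)
  have hXX : X ≤ X₀ := by rw [hX]; exact min_le_left _ _
  have hXh : X ≤ 1 / 4 := by rw [hX]; exact min_le_right _ _
  obtain ⟨γ, hγ⟩ : ∃ γ, γ = min (R / a / Real.log 2) 1 := ⟨_, rfl⟩
  have hγ0 : 0 < γ := by rw [hγ]; exact lt_min (by positivity) one_pos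
  have hγ1 : γ ≤ 1 := by rw [hγ]; exact min_le_right _ _
  have hγR : γ * Real.log 2 ≤ R / a := by
    have : γ ≤ R / a / Real.log 2 := by rw [hγ]; exact min_le_left _ _
    rwa [le_div_iff₀ hl2] at this
  obtain ⟨X', hX'⟩ : ∃ X', X' = γ * X / 64 := ⟨_, rfl⟩
  have hX'0 : 0 < X' := by rw [hX']; positivity
  refine ⟨γ / 4, by positivity, X', hX'0, fun e he he2 => ?_⟩
  obtain ⟨N₁, hN₁⟩ := exists_nat_gt (64 / (γ * X) + 1 / e + 1)
  refine ⟨N₁, fun N hN => ?_⟩
  have hNr : 64 / (γ * X) + 1 / e + 1 < N := hN₁.trans_le (by exact_mod_cast hN)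
  have q1 : 0 < 64 / (γ * X) := by positivity
  have q2 : 0 < 1 / e := by positivity
  have hN1 : (1 : ℝ) < N := by linarith
  have hNpos : (0 : ℝ) < N := by linarith
  have hN0 : 0 < N := by exact_mod_cast hNpos
  have hN64 : 64 ≤ γ * X * N := by
    have : 64 / (γ * X) ≤ N := by linarith
    rw [div_le_iff₀ (by positivity)] at this
    linarith
  have hNe : 1 ≤ e * N := by
    have : 1 / e ≤ N := by linarith
    rw [div_le_iff₀ he] at this
    linarith
  -- the blocks
  obtain ⟨L, hL⟩ : ∃ L, L = ⌈e * N⌉₊ := ⟨_, rfl⟩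
  have hL1 : e * N ≤ L := by rw [hL]; exact Nat.le_ceil _
  have hL2 : (L : ℝ) ≤ 2 * (e * N) := by
    have : (L : ℝ) < e * N + 1 := by rw [hL]; exact Nat.ceil_lt_add_one (by positivity)
    linarith
  have hL0 : 0 < L := by
    have : (0 : ℝ) < L := by linarith
    exact_mod_cast this
  obtain ⟨p, hp⟩ : ∃ p, p = ⌈(1 - X) * N⌉₊ := ⟨_, rfl⟩
  have h1X : 0 ≤ (1 - X) * N := mul_nonneg (by linarith) hNpos.le
  have hp1 : (1 - X) * N ≤ p := by rw [hp]; exact Nat.le_ceil _
  have hp2 : (p : ℝ) ≤ (1 - X) * N + 1 := by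
    rw [hp]; exact (Nat.ceil_lt_add_one h1X).le
  have hrange : 0 ≤ (N : ℝ) - p - X' * N := by
    have : X' * N ≤ X * N / 64 := by
      rw [hX']
      have : γ * X * N ≤ 1 * (X * N) := by
        have : 0 ≤ X * N := by positivity
        nlinarith
      linarith
    have : 64 ≤ X * N := by
      have : γ * X * N ≤ 1 * (X * N) := by
        have : 0 ≤ X * N := by positivity
        nlinarith
      linarith
    linarith
  obtain ⟨n, hn⟩ : ∃ n, n = ⌊((N : ℝ) - p - X' * N) / L⌋₊ := ⟨_, rfl⟩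
  have hLr : (0 : ℝ) < L := by exact_mod_cast hL0
  have hn1 : (n : ℝ) * L ≤ (N : ℝ) - p - X' * N := by
    have : (n : ℝ) ≤ ((N : ℝ) - p - X' * N) / L := by
      rw [hn]; exact Nat.floor_le (div_nonneg hrange hLr.le)
    rwa [le_div_iff₀ hLr] at this
  have hn2 : (N : ℝ) - p - X' * N - L ≤ n * L := by
    have : ((N : ℝ) - p - X' * N) / L < n + 1 := by rw [hn]; exact Nat.lt_floor_add_one _
    rw [div_lt_iff₀ hLr] at this
    linarith
  have hpn : p + n * L ≤ N := by
    have : ((p + n * L : ℕ) : ℝ) ≤ N := by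
      push_cast
      have : 0 ≤ X' * N := by positivity
      linarith
    exact_mod_cast this
  obtain ⟨η, hη⟩ : ∃ η, η = γ * X / 32 * Real.log 2 := ⟨_, rfl⟩
  have hη0 : 0 < η := by rw [hη]; positivity
  obtain ⟨τ, hτ, J₁, htail⟩ := tail_thm 2 ha hU hη0
  obtain ⟨J₂, hJ₂⟩ := exists_nat_gt (128 * N / (γ * X))
  refine Claim.of hτ (max J₁ (max J₂ (4 * N))) fun J hJ F A hS => ?_
  have hJ1 : J₁ ≤ J := (le_max_left _ _).trans hJ
  have hJ2 : J₂ ≤ J := (le_max_left _ _).trans ((le_max_right _ _).trans hJ)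
  have hJ4 : 4 * N ≤ J := (le_max_right _ _).trans ((le_max_right _ _).trans hJ)
  have hJN : 128 * N ≤ γ * X * J := by
    have h1 : 128 * N / (γ * X) < J := hJ₂.trans_le (by exact_mod_cast hJ2)
    rw [div_lt_iff₀ (by positivity)] at h1
    linarith
  by_contra hcon
  push Not at hcon
  obtain ⟨u, hu⟩ : ∃ u, u = J / N := ⟨_, rfl⟩
  have hu1 : N * u ≤ J := by rw [hu]; exact Nat.mul_div_le J N
  have hu2 : J < N * (u + 1) := by rw [hu]; exact Nat.lt_mul_div_succ J hN0
  have hu1r : (N : ℝ) * u ≤ J := by exact_mod_cast hu1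
  have hu2r : (J : ℝ) ≤ N * u + N := by
    have : (J : ℝ) < N * (u + 1) := by exact_mod_cast hu2
    linarith
  rw [← hu] at hcon
  obtain ⟨hlaw, -, -, -⟩ := St_res hτ.le hS
  have hq := hlaw.nonneg
  -- telescoping
  have hrow := Rows.rows_eq (F.res A True hlaw) (L * u) (p * u) n
  have hblock : ∀ i ∈ range n, (2 - γ / 4) * ((L : ℝ) * u * Real.log 2) ≤
      CH (F.res A True hlaw).p ((F.res A True hlaw).X (p * u + (i + 1) * (L * u)))
        (fun ω => ((F.res A True hlaw).X (p * u + i * (L * u)) ω, (F.res A True hlaw).W ω)) := by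
    intro i hi
    rw [Finset.mem_range] at hi
    have hiL : (i + 1) * L ≤ n * L := Nat.mul_le_mul_right L hi
    have e1 : p * u + i * (L * u) = (p + i * L) * u := by ring
    have e2 : p * u + (i + 1) * (L * u) = (p + (i + 1) * L) * u := by ring
    have h1 := hcon (p + i * L) (p + (i + 1) * L) (by nlinarith) (by omega) ?_ ?_ ?_ ?_
    · unfold Zn at h1
      push Not at h1
      rw [e1, e2]
      refine le_trans (le_of_eq ?_) h1.le
      push_cast
      ring
    · push_cast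
      have : (0 : ℝ) ≤ i * L := by positivity
      have : (1 - X₀) * N ≤ (1 - X) * N := mul_le_mul_of_nonneg_right (by linarith) hNpos.le
      linarith
    · have : (((i + 1) * L : ℕ) : ℝ) ≤ n * L := by exact_mod_cast hiL
      push_cast at this ⊢
      linarith
    · push_cast
      linarith
    · push_cast
      linarith
  have hsum := Finset.sum_le_sum hblock
  rw [hrow, Finset.sum_const, Finset.card_range, nsmul_eq_mul] at hsum
  have hend : p * u + n * (L * u) ≤ J := by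
    have : p * u + n * (L * u) = (p + n * L) * u := by ring
    rw [this]
    exact (Nat.mul_le_mul_right u hpn).trans hu1
  have hmono : CH (F.res A True hlaw).p ((F.res A True hlaw).X (p * u + n * (L * u)))
        (fun ω => ((F.res A True hlaw).X (p * u) ω, (F.res A True hlaw).W ω)) ≤
      CH (Pool.Agent.H49.Ent.cond F.p A True) (F.X J) (fun ω => (F.X (p * u) ω, F.W ω)) := by
    refine CH_mono_left hq fun ω ω' _ _ h => ?_
    exact Pool.STK.B58.fl_fine hend (Prod.ext_iff.mp h).1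
  have hxp : J ≤ 2 * (p * u) := by
    have h1 : (J : ℝ) ≤ 2 * (p * u) := by
      have h2 : (3 / 4 : ℝ) * N ≤ p := by
        refine le_trans ?_ hp1
        exact mul_le_mul_of_nonneg_right (by linarith) hNpos.le
      have h3 : (3 / 4 : ℝ) * N * u ≤ p * u := mul_le_mul_of_nonneg_right h2 (Nat.cast_nonneg u)
      have h4 : 4 * (N : ℝ) ≤ J := by exact_mod_cast hJ4
      linarith
    exact_mod_cast h1
  have htl := htail J hJ1 F A hS (p * u) (by omega) hxp
  refine zon_arith (γ := γ) (X := X) (X' := X') (N := N) (L := L) (u := u) (J := J) (p := p)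
    (e := e) (n := n) (η := η) (S := CH (Pool.Agent.H49.Ent.cond F.p A True) (F.X J)
      (fun ω => (F.X (p * u) ω, F.W ω))) (L2 := Real.log 2) hγ0 hγ1 hX0 hX' he2 hN64 hNpos
    hu2r (Nat.cast_nonneg u) hp2 hp1 (by linarith) hn2 hL2 hl2 ?_ ?_ (by rw [hη]) hJN
  · refine le_trans (le_of_eq ?_) (hsum.trans hmono)
    ring
  · refine htl.trans ?_
    have h1 : 0 ≤ (J : ℝ) - ((p * u : ℕ) : ℝ) := by
      have : ((p * u : ℕ) : ℝ) ≤ J := by
        have : p * u ≤ J := by omega
        exact_mod_cast this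
      linarith
    push_cast at h1 ⊢
    have : (2 * Real.log 2 - R / a) * ((J : ℝ) - p * u) ≤
        (2 - γ) * Real.log 2 * ((J : ℝ) - p * u) := by
      refine mul_le_mul_of_nonneg_right ?_ h1
      linarith
    linarith

end Pool.K2S.G
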