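import Pool.Agent.H13.K2S.Eng
import Pool.Agent.H13.EG.Zon

/-!
# The engine for a general class (H13.K2S.Eng)
-/

set_option autoImplicit false

namespace Pool.K2S.G

open Finset Real
open Pool.Agent.H49.Ent Pool.Agent.H32.Dense Pool.STK Pool.KA Pool.KSAT
open Pool.K2S Pool.PB Pool.LK

variable {S : FCl 2}

/-- **(MNJ)** No jumps: if the frames of the windows `v + 1` are conserved up to the row `t` and
those of the windows `v` are not conserved up to the row `s`, then the rows `(s, t]` are full up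
to `η N` rows. -/
def MNJStmt (S : FCl 2) : Prop :=
  ∀ a R : ℝ, 1 < a → 0 < R → GW S a R → ∀ η μ h₁ ω₀ : ℝ, 0 < η → 0 < μ →
    0 < h₁ → 0 < ω₀ → ∃ N₁ : ℕ, ∀ N ≥ N₁, ∀ (i₀ : Fin 2) (v s t : ℕ), v ≤ s → s ≤ t →
    v + 1 ≤ t → ω₀ * N ≤ (v : ℝ) → ω₀ * N ≤ (N : ℝ) - t →
    Claim S (fun J F A => Lb F i₀ ⌊h₁ * J⌋₊ A →
      (∀ h : ℕ, (h : ℝ) ≤ ((t : ℝ) - v) * (J / N : ℕ) + μ * J → Ln F i₀ h A) →
      Cn F i₀ ((t - (v + 1)) * (J / N)) ((v + 1) * (J / N)) A →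
      ¬ Cn F i₀ ((s - v) * (J / N)) (v * (J / N)) A →
      (2 * ((t : ℝ) - s) - η * N) * ((J / N : ℕ) * Real.log 2) ≤
        CH (Pool.Agent.H49.Ent.cond F.p A True) (F.X (t * (J / N)))
          (fun ω => (F.X (s * (J / N)) ω, F.W ω)))

/-- **(MIC)** The engine proper: the critical row `w + lam w` cannot cross a zone `(pa, pb]` all of
whose long subintervals (of relative length at least `θ`) have unsaturated rows. -/
def MICStmt (S : FCl 2) : Prop :=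
  ∀ a R : ℝ, 1 < a → 0 < R → GW S a R → ∀ c μ h₁ ω₀ : ℝ, 0 < c → 0 < μ → 0 < h₁ → 0 < ω₀ →
    ∃ θ : ℝ, 0 < θ ∧ ∀ e : ℝ, 0 < e → ∃ N₁ : ℕ, ∀ N ≥ N₁, ∀ (i₀ : Fin 2) (pa pb wa wb : ℕ)
    (lam : ℕ → ℕ), e * N ≤ (pb : ℝ) - pa → ω₀ * N ≤ (wa : ℝ) → wa ≤ wb →
    ω₀ * N ≤ (N : ℝ) - pb →
    (∀ w, wa ≤ w → w ≤ wb → pa ≤ w + lam w ∧ w + lam w ≤ pb) →
    (∀ w, wa ≤ w → w < wb → lam w ≤ lam (w + 1) ∧
      (lam (w + 1) : ℝ) ≤ lam w + θ * ((pb : ℝ) - pa)) →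
    (wa : ℝ) + lam wa ≤ pa + θ * ((pb : ℝ) - pa) →
    (pb : ℝ) - θ * ((pb : ℝ) - pa) ≤ wb + lam wb →
    Claim S (fun J F A =>
      (∀ s t : ℕ, pa ≤ s → t ≤ pb → θ * ((pb : ℝ) - pa) ≤ (t : ℝ) - s →
        CH (Pool.Agent.H49.Ent.cond F.p A True) (F.X (t * (J / N)))
          (fun ω => (F.X (s * (J / N)) ω, F.W ω)) ≤
        (2 - c) * (((t : ℝ) - s) * ((J / N : ℕ) * Real.log 2))) →
      Lb F i₀ ⌊h₁ * J⌋₊ A →
      (∀ h : ℕ, (h : ℝ) ≤ ((pb : ℝ) - wa) * (J / N : ℕ) + μ * J → Ln F i₀ h A) →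
      (∀ w, wa ≤ w → w ≤ wb → Cn F i₀ (lam w * (J / N)) (w * (J / N)) A ∧
        ¬ Cn F i₀ ((lam w + 1) * (J / N)) (w * (J / N)) A) → False)

theorem eng_thm (hMNJ : MNJStmt S) (hMIC : MICStmt S) : ENGStmt S := by
  classical
  intro a R ha hR hU c₀ e μ h₁ ω₀ hc₀ he hμ hh₁ hω₀
  have hl2 : 0 < Real.log 2 := Real.log_pos (by norm_num)
  obtain ⟨c, hc⟩ : ∃ c, c = min c₀ 1 := ⟨_, rfl⟩
  have hc0 : 0 < c := by rw [hc]; exact lt_min hc₀ one_pos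
  have hcc : c ≤ c₀ := by rw [hc]; exact min_le_left _ _
  have hc1 : c ≤ 1 := by rw [hc]; exact min_le_right _ _
  obtain ⟨ω₁, hω₁⟩ : ∃ ω₁, ω₁ = min ω₀ (c * e / 16) := ⟨_, rfl⟩
  have hω₁0 : 0 < ω₁ := by rw [hω₁]; exact lt_min hω₀ (by positivity)
  have hω₁ω : ω₁ ≤ ω₀ := by rw [hω₁]; exact min_le_left _ _
  have hω₁c : ω₁ ≤ c * e / 16 := by rw [hω₁]; exact min_le_right _ _
  have hmnj := hMNJ a R ha hR hU
  obtain ⟨θ₀, hθ₀, hmic⟩ := hMIC a R ha hR hU (c / 4) μ h₁ ω₁ (by linarith) hμ hh₁ hω₁0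
  obtain ⟨θ, hθe⟩ : ∃ θ, θ = min θ₀ 1 := ⟨_, rfl⟩
  have hθ : 0 < θ := by rw [hθe]; exact lt_min hθ₀ one_pos
  have hθθ : θ ≤ θ₀ := by rw [hθe]; exact min_le_left _ _
  have hθ1 : θ ≤ 1 := by rw [hθe]; exact min_le_right _ _
  obtain ⟨ρ, hρ, hρ1, htwo⟩ := two_scale (c / 2) (θ / 2) (by linarith) (by linarith)
  obtain ⟨e', he'⟩ : ∃ e', e' = ρ * (e / 2) := ⟨_, rfl⟩
  have he'0 : 0 < e' := by rw [he']; positivity
  obtain ⟨N₁, hmic⟩ := hmic e' he'0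
  obtain ⟨η, hη⟩ : ∃ η, η = c * θ * e' / 32 := ⟨_, rfl⟩
  have hη0 : 0 < η := by rw [hη]; positivity
  obtain ⟨N₂, hmnj⟩ := hmnj η μ h₁ ω₁ hη0 hμ hh₁ hω₁0
  obtain ⟨N₃, hN₃⟩ := exists_nat_gt (32 / (c * e) + 2 / (θ * e') + 1)
  refine ⟨max N₁ (max N₂ N₃), fun N hN i₀ p₁ p₂ j hp12 hp2N hep hjp hj1 hωp => ?_⟩
  have hN1 : N₁ ≤ N := (le_max_left _ _).trans hN
  have hN2 : N₂ ≤ N := (le_max_left _ _).trans ((le_max_right _ _).trans hN)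
  have hN3 : N₃ ≤ N := (le_max_right _ _).trans ((le_max_right _ _).trans hN)
  have hNr : 32 / (c * e) + 2 / (θ * e') + 1 < N :=
    hN₃.trans_le (by exact_mod_cast hN3)
  have q2 : 0 < 32 / (c * e) := by positivity
  have q3 : 0 < 2 / (θ * e') := by positivity
  have hNpos : (0 : ℝ) < N := by linarith
  have hN0 : 0 < N := by exact_mod_cast hNpos
  have r2 : 32 ≤ c * e * N := by
    have : 32 / (c * e) ≤ N := by linarith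
    rw [div_le_iff₀ (by positivity)] at this
    linarith
  have r3 : 2 ≤ θ * e' * N := by
    have : 2 / (θ * e') ≤ N := by linarith
    rw [div_le_iff₀ (by positivity)] at this
    linarith
  -- the zone without its top
  obtain ⟨k, hk⟩ : ∃ k, k = ⌊c / 8 * ((p₂ : ℝ) - p₁)⌋₊ := ⟨_, rfl⟩
  have hp12r : 0 < (p₂ : ℝ) - p₁ := lt_of_lt_of_le (by positivity) hep
  have hk1 : (k : ℝ) ≤ c / 8 * ((p₂ : ℝ) - p₁) := by
    rw [hk]; exact Nat.floor_le (by positivity)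
  have hk2 : c / 8 * ((p₂ : ℝ) - p₁) < k + 1 := by rw [hk]; exact Nat.lt_floor_add_one _
  have hk3 : k ≤ p₂ := by
    have h1 : (k : ℝ) ≤ p₂ := by
      have : c / 8 * ((p₂ : ℝ) - p₁) ≤ 1 * ((p₂ : ℝ) - p₁) :=
        mul_le_mul_of_nonneg_right (by linarith) hp12r.le
      have : (0 : ℝ) ≤ p₁ := Nat.cast_nonneg _
      linarith
    exact_mod_cast h1
  obtain ⟨p₃, hp₃⟩ : ∃ p₃, p₃ = p₂ - k := ⟨_, rfl⟩
  have hp₃r : (p₃ : ℝ) = p₂ - k := by rw [hp₃, Nat.cast_sub hk3]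
  have hp13 : ((p₂ : ℝ) - p₁) / 2 ≤ (p₃ : ℝ) - p₁ := by
    rw [hp₃r]
    have : c / 8 * ((p₂ : ℝ) - p₁) ≤ 1 / 8 * ((p₂ : ℝ) - p₁) :=
      mul_le_mul_of_nonneg_right (by linarith) hp12r.le
    linarith
  have hp13' : p₁ < p₃ := by
    have : (p₁ : ℝ) < p₃ := by linarith
    exact_mod_cast this
  have hp32 : p₃ ≤ p₂ := by rw [hp₃]; exact Nat.sub_le _ _
  have hω₁p : ∀ t : ℕ, t ≤ p₃ → ω₁ * N ≤ (N : ℝ) - t := by
    intro t ht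
    have h1 : (t : ℝ) ≤ p₃ := by exact_mod_cast ht
    have h2 : (p₂ : ℝ) ≤ N := by exact_mod_cast hp2N
    have h3 : c / 8 * (e * N) ≤ c / 8 * ((p₂ : ℝ) - p₁) :=
      mul_le_mul_of_nonneg_left hep (by positivity)
    have h4 : ω₁ * N ≤ c * e / 16 * N := mul_le_mul_of_nonneg_right hω₁c hNpos.le
    nlinarith
  have hωp' : ω₁ * N ≤ (p₁ : ℝ) - j := by
    refine le_trans (mul_le_mul_of_nonneg_right hω₁ω hNpos.le) hωp
  -- the claims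
  have hA : Claim S (fun J F A => ∀ x : Fin (N + 1) × Fin (N + 1) × Fin (N + 1),
      ((x.1 : ℕ) ≤ x.2.1 ∧ (x.2.1 : ℕ) ≤ x.2.2 ∧ (x.1 : ℕ) + 1 ≤ x.2.2 ∧
        ω₁ * N ≤ ((x.1 : ℕ) : ℝ) ∧ ω₁ * N ≤ (N : ℝ) - ((x.2.2 : ℕ) : ℝ)) →
      Lb F i₀ ⌊h₁ * J⌋₊ A →
      (∀ h : ℕ, (h : ℝ) ≤ (((x.2.2 : ℕ) : ℝ) - ((x.1 : ℕ) : ℝ)) * (J / N : ℕ) + μ * J →
        Ln F i₀ h A) →
      Cn F i₀ (((x.2.2 : ℕ) - ((x.1 : ℕ) + 1)) * (J / N)) (((x.1 : ℕ) + 1) * (J / N)) A →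
      ¬ Cn F i₀ (((x.2.1 : ℕ) - (x.1 : ℕ)) * (J / N)) ((x.1 : ℕ) * (J / N)) A →
      (2 * (((x.2.2 : ℕ) : ℝ) - ((x.2.1 : ℕ) : ℝ)) - η * N) *
          ((J / N : ℕ) * Real.log 2) ≤
        CH (Pool.Agent.H49.Ent.cond F.p A True) (F.X ((x.2.2 : ℕ) * (J / N)))
          (fun ω => (F.X ((x.2.1 : ℕ) * (J / N)) ω, F.W ω))) := by
    refine Claim.finite fun x => Claim.cnd fun hx => ?_
    exact hmnj N hN2 i₀ (x.1 : ℕ) (x.2.1 : ℕ) (x.2.2 : ℕ) hx.1 hx.2.1 hx.2.2.1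
      hx.2.2.2.1 hx.2.2.2.2
  obtain ⟨ext, hext⟩ : ∃ ext : (Fin (N + 1) → Fin (N + 2)) → ℕ → ℕ, ext = fun g w =>
      if h : w < N + 1 then ((g ⟨w, h⟩ : Fin (N + 2)) : ℕ) else 0 := ⟨_, rfl⟩
  have hB : Claim S (fun J F A => ∀ x : (Fin (N + 1) × Fin (N + 1)) ×
      (Fin (N + 1) × Fin (N + 1)) × (Fin (N + 1) → Fin (N + 2)),
      (e' * N ≤ (((x.1.2 : ℕ) : ℝ)) - ((x.1.1 : ℕ) : ℝ) ∧ ω₁ * N ≤ (((x.2.1.1 : ℕ) : ℝ)) ∧
        (x.2.1.1 : ℕ) ≤ x.2.1.2 ∧ ω₁ * N ≤ (N : ℝ) - ((x.1.2 : ℕ) : ℝ) ∧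
        (∀ w, (x.2.1.1 : ℕ) ≤ w → w ≤ (x.2.1.2 : ℕ) →
          (x.1.1 : ℕ) ≤ w + ext x.2.2 w ∧ w + ext x.2.2 w ≤ (x.1.2 : ℕ)) ∧
        (∀ w, (x.2.1.1 : ℕ) ≤ w → w < (x.2.1.2 : ℕ) → ext x.2.2 w ≤ ext x.2.2 (w + 1) ∧
          (ext x.2.2 (w + 1) : ℝ) ≤ ext x.2.2 w +
            θ₀ * ((((x.1.2 : ℕ) : ℝ)) - ((x.1.1 : ℕ) : ℝ))) ∧
        ((x.2.1.1 : ℕ) : ℝ) + ext x.2.2 (x.2.1.1 : ℕ) ≤ ((x.1.1 : ℕ) : ℝ) +
          θ₀ * ((((x.1.2 : ℕ) : ℝ)) - ((x.1.1 : ℕ) : ℝ)) ∧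
        ((x.1.2 : ℕ) : ℝ) - θ₀ * ((((x.1.2 : ℕ) : ℝ)) - ((x.1.1 : ℕ) : ℝ)) ≤
          ((x.2.1.2 : ℕ) : ℝ) + ext x.2.2 (x.2.1.2 : ℕ)) →
      (∀ s t : ℕ, (x.1.1 : ℕ) ≤ s → t ≤ (x.1.2 : ℕ) →
        θ₀ * ((((x.1.2 : ℕ) : ℝ)) - ((x.1.1 : ℕ) : ℝ)) ≤ (t : ℝ) - s →
        CH (Pool.Agent.H49.Ent.cond F.p A True) (F.X (t * (J / N)))
          (fun ω => (F.X (s * (J / N)) ω, F.W ω)) ≤
        (2 - c / 4) * (((t : ℝ) - s) * ((J / N : ℕ) * Real.log 2))) →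
      Lb F i₀ ⌊h₁ * J⌋₊ A →
      (∀ h : ℕ, (h : ℝ) ≤ (((x.1.2 : ℕ) : ℝ) - ((x.2.1.1 : ℕ) : ℝ)) * (J / N : ℕ) + μ * J →
        Ln F i₀ h A) →
      (∀ w, (x.2.1.1 : ℕ) ≤ w → w ≤ (x.2.1.2 : ℕ) →
        Cn F i₀ (ext x.2.2 w * (J / N)) (w * (J / N)) A ∧
        ¬ Cn F i₀ ((ext x.2.2 w + 1) * (J / N)) (w * (J / N)) A) → False) := by
    refine Claim.finite fun x => Claim.cnd fun hx => ?_
    obtain ⟨x1, x2, x3, x4, x5, x6, x7, x8⟩ := hx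
    exact hmic N hN1 i₀ (x.1.1 : ℕ) (x.1.2 : ℕ) (x.2.1.1 : ℕ) (x.2.1.2 : ℕ) (ext x.2.2)
      x1 x2 x3 x4 x5 x6 x7 x8
  -- the large event
  have hL : Claim S (fun J F A => IsLaw (Pool.Agent.H49.Ent.cond F.p A True)) := by
    refine Claim.of one_pos 0 fun J _ F A hS => ?_
    obtain ⟨h, -⟩ := St_res zero_le_one hS
    exact h
  refine Claim.mono N ?_ ((hA.and hB).and hL)
  rintro J hJ F A ⟨⟨hA, hB⟩, hq⟩ hZn hLb hLn hhist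
  by_contra hcon
  obtain ⟨u, hu⟩ : ∃ u, u = J / N := ⟨_, rfl⟩
  have hu0 : 0 < u := by rw [hu]; exact Nat.div_pos hJ hN0
  have hu1 : N * u ≤ J := by rw [hu]; exact Nat.mul_div_le J N
  have hur : (0 : ℝ) < u := by exact_mod_cast hu0
  rw [← hu] at hA hB hZn hLn hhist hcon
  have hUL : (0 : ℝ) < u * Real.log 2 := by positivity
  have hbd := rowf_bd F A hq hu0
  -- the deficit of the zone without its top
  have hzone : rowf F A u p₃ - rowf F A u p₁ ≤ (2 - c / 2) * ((p₃ : ℝ) - p₁) := by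
    have h1 := (hbd p₃ p₂ hp32).1
    have h2 := rowf_eq F A hq hu0 hp12
    have h3 : rowf F A u p₂ - rowf F A u p₁ ≤ (2 - c₀) * ((p₂ : ℝ) - p₁) := by
      refine le_of_mul_le_mul_right ?_ hUL
      rw [h2]
      refine hZn.trans (le_of_eq ?_)
      push_cast
      ring
    have h4 : (2 - c₀) * ((p₂ : ℝ) - p₁) ≤ (2 - c) * ((p₂ : ℝ) - p₁) :=
      mul_le_mul_of_nonneg_right (by linarith) hp12r.le
    have h5 : (p₂ : ℝ) - p₁ = ((p₃ : ℝ) - p₁) + k := by rw [hp₃r]; ring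
    have h6 : (2 - c) * ((p₂ : ℝ) - p₁) = (2 - c) * ((p₃ : ℝ) - p₁) + (2 - c) * k := by
      rw [h5]; ring
    have h7 : (2 - c) * (k : ℝ) ≤ 2 * k :=
      mul_le_mul_of_nonneg_right (by linarith) (Nat.cast_nonneg k)
    have h8 : (k : ℝ) ≤ c / 4 * ((p₃ : ℝ) - p₁) := by
      refine hk1.trans ?_
      have : c / 8 * ((p₂ : ℝ) - p₁) ≤ c / 8 * (2 * ((p₃ : ℝ) - p₁)) :=
        mul_le_mul_of_nonneg_left (by linarith) (by positivity)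
      linarith
    linarith
  obtain ⟨pa, pb, hpa1, hpab, hpb1, hlen, hsub⟩ := htwo p₁ p₃ (rowf F A u) hp13' hbd hzone
  have hpabr : (0 : ℝ) < (pb : ℝ) - pa := by
    have : (pa : ℝ) < pb := by exact_mod_cast hpab
    linarith
  have hlen' : e' * N ≤ (pb : ℝ) - pa := by
    refine le_trans ?_ hlen
    rw [he']
    have : ρ * (e / 2 * N) ≤ ρ * ((p₃ : ℝ) - p₁) :=
      mul_le_mul_of_nonneg_left (by linarith) hρ.le
    linarith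
  have hpbN : pb ≤ N := by omega
  have hpos : 0 < c * θ * e' * N := by positivity
  -- the crossing
  obtain ⟨δ, hδ⟩ : ∃ δ, δ = θ / 2 * ((pb : ℝ) - pa) := ⟨_, rfl⟩
  have hδ1 : δ ≤ (pb : ℝ) - pa := by
    rw [hδ]
    have : θ / 2 * ((pb : ℝ) - pa) ≤ 1 * ((pb : ℝ) - pa) :=
      mul_le_mul_of_nonneg_right (by linarith) hpabr.le
    linarith
  have hδ2 : δ + 1 ≤ θ * ((pb : ℝ) - pa) := by
    rw [hδ]
    have : θ * (e' * N) ≤ θ * ((pb : ℝ) - pa) := mul_le_mul_of_nonneg_left hlen' hθ.le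
    linarith
  have hLn' : ∀ v t : ℕ, p₁ - j ≤ v → t ≤ p₂ →
      ∀ h : ℕ, (h : ℝ) ≤ ((t : ℝ) - v) * u + μ * J → Ln F i₀ h A := by
    intro v t hv ht h hh
    refine hLn h (hh.trans ?_)
    have h1 : (t : ℝ) - v ≤ (p₂ : ℝ) - p₁ + j := by
      have h2 : ((p₁ - j : ℕ) : ℝ) ≤ v := by exact_mod_cast hv
      rw [Nat.cast_sub hjp] at h2
      have h3 : (t : ℝ) ≤ p₂ := by exact_mod_cast ht
      linarith
    have := mul_le_mul_of_nonneg_right h1 hur.le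
    linarith
  have hcross := crossing (fun l w => Cn F i₀ (l * u) (w * u) A) (w₀ := p₁ - j) (pa := pa)
    (pb := pb) (δ := δ)
    (fun w => by simpa using hLb.cn (w * u))
    (fun l l' w hl h => h.mono (Nat.mul_le_mul_right u hl))
    (fun l w w' hw hw' h => h.mono_w (Nat.mul_le_mul_right u hw)
      ((Nat.mul_le_mul_right u (hw'.trans hpbN)).trans hu1))
    (by omega) hpab.le hδ1
    (fun h => hcon (h.mono (Nat.mul_le_mul_right u (by omega))))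
    (fun w s t hw hws hst hwt hpas htpb hQ1 hQ2 => by
      by_contra hc2
      push Not at hc2
      have hv : ω₁ * N ≤ (w : ℝ) := by
        refine hωp'.trans ?_
        have : ((p₁ - j : ℕ) : ℝ) ≤ w := by exact_mod_cast hw
        rw [Nat.cast_sub hjp] at this
        exact this
      have h1 := hA (⟨w, by omega⟩, ⟨s, by omega⟩, ⟨t, by omega⟩)
        ⟨hws, hst, hwt, hv, hω₁p t (by omega)⟩ hLb
        (hLn' w t hw (by omega)) hQ1 hQ2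
      have h2 := rowf_eq F A hq hu0 hst
      have h3 := hsub s t hpas htpb (by rw [← hδ]; exact hc2)
      have h4 : (2 * ((t : ℝ) - s) - η * N) ≤ rowf F A u t - rowf F A u s := by
        refine le_of_mul_le_mul_right ?_ hUL
        rw [h2]
        exact h1
      refine jump_arith (c := c) (θ := θ) (n := (pb : ℝ) - pa) (k := (t : ℝ) - s)
        (N := N) (e := e') (η := η) hc0 hθ hlen' hη (by rw [← hδ]; exact hc2) h4 ?_ hpos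
      refine h3.trans (le_of_eq ?_)
      ring)
  obtain ⟨wa, wb, lam, k1, k2, k3, k4, k5, k6, k7, k8, k9⟩ := hcross
  -- the engine
  obtain ⟨g, hg⟩ : ∃ g : Fin (N + 1) → Fin (N + 2), g = fun w =>
      ⟨lam w, by have := k4 w; omega⟩ := ⟨_, rfl⟩
  have hext' : ∀ w, w ≤ N → ext g w = lam w := by
    intro w hw
    rw [hext, hg]
    simp only
    rw [dif_pos (by omega)]
  have hth : θ * ((pb : ℝ) - pa) ≤ θ₀ * ((pb : ℝ) - pa) :=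
    mul_le_mul_of_nonneg_right hθθ hpabr.le
  refine hB ((⟨pa, by omega⟩, ⟨pb, by omega⟩), (⟨wa, by omega⟩, ⟨wb, by omega⟩), g)
    ⟨hlen', ?_, k2, hω₁p pb hpb1, ?_, ?_, ?_, ?_⟩ ?_ hLb ?_ ?_
  · refine hωp'.trans ?_
    have : ((p₁ - j : ℕ) : ℝ) ≤ wa := by exact_mod_cast k1.le
    rw [Nat.cast_sub hjp] at this
    exact this
  · intro w h1 h2
    rw [hext' w (by simp only at h2; omega)]
    exact k5 w h1 h2
  · intro w h1 h2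
    rw [hext' w (by simp only at h2; omega), hext' (w + 1) (by simp only at h2; omega)]
    obtain ⟨h3, h4⟩ := k6 w h1 h2
    refine ⟨h3, h4.trans ?_⟩
    show (lam w : ℝ) + δ ≤ lam w + θ₀ * ((pb : ℝ) - pa)
    linarith
  · show (wa : ℝ) + ext g wa ≤ pa + θ₀ * ((pb : ℝ) - pa)
    rw [hext' wa (by omega)]
    linarith
  · show (pb : ℝ) - θ₀ * ((pb : ℝ) - pa) ≤ wb + ext g wb
    rw [hext' wb (by omega)]
    linarith
  · intro s t hs ht hst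
    have hst' : θ₀ * ((pb : ℝ) - pa) ≤ (t : ℝ) - s := hst
    have h0 : (s : ℝ) ≤ t := by
      have : 0 ≤ θ₀ * ((pb : ℝ) - pa) := by positivity
      linarith
    have h0' : s ≤ t := by exact_mod_cast h0
    have h1 := hsub s t hs ht (by
      have : θ / 2 * ((pb : ℝ) - pa) ≤ θ * ((pb : ℝ) - pa) :=
        mul_le_mul_of_nonneg_right (by linarith) hpabr.le
      linarith)
    rw [← rowf_eq F A hq hu0 h0']
    have h2 : (2 - c / 2 / 2) * ((t : ℝ) - s) = (2 - c / 4) * ((t : ℝ) - s) := by ring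
    rw [h2] at h1
    have := mul_le_mul_of_nonneg_right h1 hUL.le
    linarith
  · intro h hh
    exact hLn' wa pb k1.le (by omega) h hh
  · intro w h1 h2
    rw [hext' w (by simp only at h2; omega)]
    exact k9 w h1 h2

end Pool.K2S.G
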