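import Pool.Agent.H13.K2S.Mnj
import Pool.Agent.H13.EG.Eng

/-!
# The engine for a general class (H13.K2S.Mnj)
-/

set_option autoImplicit false

namespace Pool.K2S.G

open Finset Real
open Pool.Agent.H49.Ent Pool.Agent.H32.Dense Pool.STK Pool.KA Pool.KSAT
open Pool.K2S Pool.PB Pool.LK

variable {S : FCl 2}

/-- **(MNJ), one row.** Over a row of the mesh which is not full the frames lose at most `b` rows
when the window moves by one unit. -/
def MNJ1Stmt (S : FCl 2) : Prop :=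
  ∀ a R : ℝ, 1 < a → 0 < R → GW S a R → ∀ c μ h₁ ω₀ : ℝ, 0 < c → 0 < μ → 0 < h₁ → 0 < ω₀ →
    ∃ b N₁ : ℕ, ∀ N ≥ N₁, ∀ (i₀ : Fin 2) (l v : ℕ), b ≤ l → ω₀ * N ≤ (v : ℝ) →
      ω₀ * N ≤ (N : ℝ) - (l + v + 2) →
    Claim S (fun J F A => Lb F i₀ ⌊h₁ * J⌋₊ A →
      (∀ h : ℕ, (h : ℝ) ≤ (l : ℝ) * (J / N : ℕ) + μ * J → Ln F i₀ h A) →
      Cn F i₀ (l * (J / N)) ((v + 1) * (J / N)) A →
      CH (Pool.Agent.H49.Ent.cond F.p A True) (F.X ((l + v + 2) * (J / N)))
        (fun ω => (F.X ((l + v + 1) * (J / N)) ω, F.W ω)) ≤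
          (2 - c) * ((J / N : ℕ) * Real.log 2) →
      Cn F i₀ ((l - b) * (J / N)) (v * (J / N)) A)

theorem mnj_thm (h1 : MNJ1Stmt S) : MNJStmt S := by
  classical
  intro a R ha hR hU η μ h₁ ω₀ hη hμ hh₁ hω₀
  have hl2 : 0 < Real.log 2 := Real.log_pos (by norm_num)
  obtain ⟨c, hc⟩ : ∃ c, c = min (η / 2) 1 := ⟨_, rfl⟩
  have hc0 : 0 < c := by rw [hc]; exact lt_min (by linarith) one_pos
  have hc1 : c ≤ 1 := by rw [hc]; exact min_le_right _ _
  have hcη : c ≤ η / 2 := by rw [hc]; exact min_le_left _ _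
  obtain ⟨b, N₁, h1⟩ := h1 a R ha hR hU c μ h₁ ω₀ hc0 hμ hh₁ hω₀
  obtain ⟨N₂, hN₂⟩ := exists_nat_gt (4 * ((b : ℝ) + 1) / η + 1)
  refine ⟨max N₁ N₂, fun N hN i₀ v s t hvs hst hvt hv ht => ?_⟩
  have hN1 : N₁ ≤ N := (le_max_left _ _).trans hN
  have hN2 : N₂ ≤ N := (le_max_right _ _).trans hN
  have hNr : 4 * ((b : ℝ) + 1) / η + 1 < N := hN₂.trans_le (by exact_mod_cast hN2)
  have q1 : 0 < 4 * ((b : ℝ) + 1) / η := by positivity
  have hNpos : (0 : ℝ) < N := by linarith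
  have hN0 : 0 < N := by exact_mod_cast hNpos
  have r1 : 4 * ((b : ℝ) + 1) ≤ η * N := by
    have : 4 * ((b : ℝ) + 1) / η ≤ N := by linarith
    rw [div_le_iff₀ hη] at this
    linarith
  -- the claims for the rows `(q, q + 1]`
  have hA : Claim S (fun J F A => ∀ q < t, (s + b + 1 ≤ q) →
      Lb F i₀ ⌊h₁ * J⌋₊ A →
      (∀ h : ℕ, (h : ℝ) ≤ ((q - (v + 1) : ℕ) : ℝ) * (J / N : ℕ) + μ * J → Ln F i₀ h A) →
      Cn F i₀ ((q - (v + 1)) * (J / N)) ((v + 1) * (J / N)) A →
      CH (Pool.Agent.H49.Ent.cond F.p A True) (F.X (((q - (v + 1)) + v + 2) * (J / N)))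
        (fun ω => (F.X (((q - (v + 1)) + v + 1) * (J / N)) ω, F.W ω)) ≤
          (2 - c) * ((J / N : ℕ) * Real.log 2) →
      Cn F i₀ (((q - (v + 1)) - b) * (J / N)) (v * (J / N)) A) := by
    refine Claim.all t fun q hq => Claim.cnd fun hqs => ?_
    refine h1 N hN1 i₀ (q - (v + 1)) v (by omega) hv ?_
    have e1 : q - (v + 1) + v + 2 ≤ t := by omega
    have e2 : (((q - (v + 1) : ℕ) : ℝ) + v + 2) ≤ t := by exact_mod_cast e1
    linarith
  have hL : Claim S (fun J F A => IsLaw (Pool.Agent.H49.Ent.cond F.p A True)) := by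
    refine Claim.of one_pos 0 fun J _ F A hS => ?_
    obtain ⟨h, -⟩ := St_res zero_le_one hS
    exact h
  refine Claim.mono N ?_ (hA.and hL)
  rintro J hJ F A ⟨hA, hq⟩ hLb hLn hC hnC
  obtain ⟨u, hu⟩ : ∃ u, u = J / N := ⟨_, rfl⟩
  have hu0 : 0 < u := by rw [hu]; exact Nat.div_pos hJ hN0
  have hur : (0 : ℝ) < u := by exact_mod_cast hu0
  rw [← hu] at hA hLn hC hnC ⊢
  have hUL : (0 : ℝ) < u * Real.log 2 := by positivity
  have hbd := rowf_bd F A hq hu0
  -- the rows above `s + b` are full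
  have hrow : ∀ q < t, s + b + 1 ≤ q → (2 - c) ≤ rowf F A u (q + 1) - rowf F A u q := by
    intro q hqt hqs
    by_contra hcon
    push Not at hcon
    have e1 : q - (v + 1) + v + 1 = q := by omega
    have e2 : q - (v + 1) + v + 2 = q + 1 := by omega
    have h2 := hA q hqt hqs hLb (fun h hh => hLn h (hh.trans (by
      have : ((q - (v + 1) : ℕ) : ℝ) ≤ (t : ℝ) - v := by
        rw [Nat.cast_sub (by omega)]
        have : (q : ℝ) ≤ t := by exact_mod_cast hqt.le
        push_cast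
        linarith
      have := mul_le_mul_of_nonneg_right this hur.le
      linarith)))
      (hC.mono (Nat.mul_le_mul_right u (by omega)))
    rw [e1, e2] at h2
    refine hnC ((h2 ?_).mono (Nat.mul_le_mul_right u (by omega)))
    rw [← rowf_eq F A hq hu0 (Nat.le_succ q)]
    exact mul_le_mul_of_nonneg_right hcon.le hUL.le
  have hsum : ∀ n : ℕ, s + b + 1 + n ≤ t →
      (2 - c) * n ≤ rowf F A u (s + b + 1 + n) - rowf F A u (s + b + 1) := by
    intro n
    induction n with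
    | zero => intro _; simp
    | succ n ih =>
      intro hn
      have h2 := ih (by omega)
      have h3 := hrow (s + b + 1 + n) (by omega) (by omega)
      have e1 : s + b + 1 + (n + 1) = s + b + 1 + n + 1 := by ring
      rw [e1]
      push_cast
      linarith
  rw [← rowf_eq F A hq hu0 hst]
  refine mul_le_mul_of_nonneg_right ?_ hUL.le
  have htN : (t : ℝ) - s ≤ N := by
    have : 0 ≤ ω₀ * N := by positivity
    have : (0 : ℝ) ≤ s := Nat.cast_nonneg s
    linarith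
  rcases Nat.lt_or_ge t (s + b + 1) with h | h
  · have h2 := (hbd s t hst).1
    have h3 : (t : ℝ) ≤ s + b + 1 := by exact_mod_cast h.le
    linarith
  · have h2 := hsum (t - (s + b + 1)) (by omega)
    have e1 : s + b + 1 + (t - (s + b + 1)) = t := by omega
    rw [e1, Nat.cast_sub h] at h2
    push_cast at h2
    have h3 := (hbd s (s + b + 1) (by omega)).1
    have h4 : c * ((t : ℝ) - (s + b + 1)) ≤ η / 2 * N := by
      have h5 : (0 : ℝ) ≤ (t : ℝ) - (s + b + 1) := by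
        have : ((s + b + 1 : ℕ) : ℝ) ≤ t := by exact_mod_cast h
        push_cast at this
        linarith
      calc c * ((t : ℝ) - (s + b + 1)) ≤ η / 2 * ((t : ℝ) - (s + b + 1)) :=
            mul_le_mul_of_nonneg_right hcη h5
        _ ≤ η / 2 * N := by
            refine mul_le_mul_of_nonneg_left ?_ (by linarith)
            have : (0 : ℝ) ≤ (b : ℝ) + 1 := by positivity
            linarith
    nlinarith

end Pool.K2S.G
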