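import Pool.Agent.H13.K2S.OcFam
import Pool.Agent.H13.EG.Mnj

/-!
# The engine for a general class (H13.K2S.OcFam)
-/

set_option autoImplicit false

namespace Pool.K2S.G

open Finset Real
open Pool.Agent.H49.Ent Pool.Agent.H32.Dense Pool.STK Pool.KA Pool.KSAT
open Pool.K2S Pool.PB Pool.LK

variable {S : FCl 2}

/-- **(WS)** (row WF, helper35). In a context `(w, q)` with `q` active the rows of the base
position are full. The number of levels does not depend on `η`. -/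
def WSStmt (S : FCl 2) : Prop :=
  ∀ a R : ℝ, 1 < a → 0 < R → GW S a R → ∃ r : ℕ, ∀ h₁ η : ℝ, 0 < h₁ → 0 < η →
    ∃ γ : ℝ, 0 < γ ∧ γ ≤ 1 / 4 ∧ ∀ N : ℕ, 0 < N → ∀ (i₀ : Fin 2) (w q l : ℕ),
    q + w + l ≤ N → (q : ℝ) + γ * N + 1 ≤ N →
    Cl S r (fun J F A => Lb F i₀ ⌊h₁ * J⌋₊ A →
      ¬ Frz F i₀ (q * (J / N)) (q * (J / N) + ⌊γ * J⌋₊) A →
      ∀ (f n : (Fin 2 → ℤ) × (ℕ × F.ζ) → Fin 2 → ℝ) (z : F.Ω → Fin 2 → ℝ) (H : ℕ),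
      (q + l) * (J / N) ≤ H → Frm F i₀ A H f n → Win F i₀ A f (w * (J / N)) (l * (J / N)) z →
      ∀ P : ℕ, (q + w) * (J / N) ≤ P → P ≤ J →
        ((P : ℝ) - ((q + w) * (J / N) : ℕ)) * Real.log 2 - η * J ≤
          CH (Pool.Agent.H49.Ent.cond F.p A True) (fun ω => ⌊(2 : ℝ) ^ P * F.x ω i₀⌋)
            (fun ω => (F.qlb (w * (J / N)) (q * (J / N)) (l * (J / N)) i₀ z ω, F.T ω)))

/-- **(NFZ)** (helper35). The first digits of the base velocity are not frozen. -/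
def NFZStmt (S : FCl 2) : Prop :=
  ∀ a R : ℝ, 1 < a → 0 < R → GW S a R → ∃ r : ℕ, ∀ h₁ γ : ℝ, 0 < h₁ → 0 < γ →
    ∀ i₀ : Fin 2, Cl S r (fun J F A => Lb F i₀ ⌊h₁ * J⌋₊ A →
      ¬ Frz F i₀ 0 ⌊γ * J⌋₊ A)

/-- **(ACT)** (helper44). The base velocity has linear entropy given the exact point. -/
def ACT1Stmt (S : FCl 2) : Prop :=
  ∀ a R : ℝ, 1 < a → 0 < R → GW S a R → ∃ cR : ℝ, 0 < cR ∧ ∀ x h₁ : ℝ, 0 < x → 0 < h₁ →
    Claim S (fun J F A => ∀ i₀ : Fin 2, Lb F i₀ ⌊h₁ * J⌋₊ A →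
      ∀ q : ℕ, q ≤ J → x * J ≤ (q : ℝ) → Ln F i₀ q A →
        cR * q ≤ CH (Pool.Agent.H49.Ent.cond F.p A True) (fun ω => ⌊(2 : ℝ) ^ q * F.d ω i₀⌋)
          (Fam.pt F))

end Pool.K2S.G
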