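import Pool.Agent.H44.K2.ACT1
import Pool.Agent.H13.EG.OcFam
import Pool.Agent.H13.EG.ACTM

/-!
# The engine for a general class (H44.K2.ACT1)
-/

set_option autoImplicit false

namespace Pool.K2S.G

open Finset Real
open Pool.Agent.H49.Ent Pool.Agent.H32.Dense Pool.STK Pool.KA Pool.KSAT
open Pool.K2S Pool.PB Pool.LK

variable {S : FCl 2}

theorem act1_thm : ACT1Stmt S := by
  classical
  intro a R ha hR hU
  have ha0 : 0 < a := by linarith
  have hl2 : 0 < Real.log 2 := Real.log_pos (by norm_num)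
  have hl7 : 0 < Real.log 7 := Real.log_pos (by norm_num)
  have hl11 : 0 < Real.log 11 := Real.log_pos (by norm_num)
  refine ⟨R / (4 * a), by positivity, fun x h₁ hx hh₁ => ?_⟩
  obtain ⟨x₀, hx₀⟩ : ∃ x₀, x₀ = min (min x h₁ / 2) (1 / 2) := ⟨_, rfl⟩
  have hx₀0 : 0 < x₀ := by
    rw [hx₀]
    exact lt_min (by have := lt_min hx hh₁; linarith) (by norm_num)
  have hx₀x : x₀ ≤ x / 2 := by
    rw [hx₀]
    exact (min_le_left _ _).trans (by have := min_le_left x h₁; linarith)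
  have hx₀h : x₀ ≤ h₁ / 2 := by
    rw [hx₀]
    exact (min_le_left _ _).trans (by have := min_le_right x h₁; linarith)
  have hx₀1 : x₀ ≤ 1 / 2 := by rw [hx₀]; exact min_le_right _ _
  obtain ⟨η, hη⟩ : ∃ η, η = R * x₀ / (8 * a) := ⟨_, rfl⟩
  have hη0 : 0 < η := by rw [hη]; positivity
  refine Claim.one ⟨1, fun J F _ => Ball (1 / 2 ^ ⌊x₀ * J⌋₊) (Fam.pt F) F.d,
    fun _ _ _ => Ball.hered _ _ _⟩ fun κ hκ => ?_
  obtain ⟨τ, hτ, J₁, htail⟩ := act_tail 2 ha.le hU hη0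
  obtain ⟨J₂, hJ₂⟩ := exists_nat_gt (8 / κ ^ 2 + 10 / x₀ +
    8 * a * (R / a + 2 * Real.log 11 + 4) / (R * x₀) + 3)
  refine ⟨τ, hτ, max J₁ J₂, fun J hJ F A hS hSb i₀ hLb q hqJ hxq hLn => ?_⟩
  have hJ1 : J₁ ≤ J := (le_max_left _ _).trans hJ
  have hJ2 : J₂ ≤ J := (le_max_right _ _).trans hJ
  have hJr : 8 / κ ^ 2 + 10 / x₀ + 8 * a * (R / a + 2 * Real.log 11 + 4) / (R * x₀) + 3 < J :=
    hJ₂.trans_le (by exact_mod_cast hJ2)
  have t1 : 0 < 8 / κ ^ 2 := by positivity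
  have t2 : 0 < 10 / x₀ := by positivity
  have t3 : 0 < 8 * a * (R / a + 2 * Real.log 11 + 4) / (R * x₀) := by positivity
  have hJ3 : (3 : ℝ) ≤ J := by linarith
  have hJpos : (0 : ℝ) < J := by linarith
  have hJκ : 8 ≤ κ ^ 2 * J := by
    have : 8 / κ ^ 2 ≤ J := by linarith
    rw [div_le_iff₀ (by positivity)] at this
    linarith
  have hJx : 10 ≤ x₀ * J := by
    have : 10 / x₀ ≤ J := by linarith
    rw [div_le_iff₀ hx₀0] at this
    linarith
  have hJC : R / a + 2 * Real.log 11 + 4 ≤ R * x₀ / (8 * a) * J := by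
    have : 8 * a * (R / a + 2 * Real.log 11 + 4) / (R * x₀) ≤ J := by linarith
    rw [div_le_iff₀ (by positivity)] at this
    rw [div_mul_eq_mul_div, le_div_iff₀ (by positivity)]
    linarith
  obtain ⟨hlaw, -⟩ := St_res hτ.le hS
  have hp0 := hlaw.nonneg
  have hPA : 0 < Pe F.p A := lt_of_lt_of_le (Real.exp_pos _) hS.2
  -- the spread
  obtain ⟨k₀, hk₀⟩ : ∃ k₀, k₀ = ⌊x₀ * J⌋₊ := ⟨_, rfl⟩
  have hk1 : (k₀ : ℝ) ≤ x₀ * J := by rw [hk₀]; exact Nat.floor_le (by positivity)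
  have hk2 : x₀ * J < k₀ + 1 := by rw [hk₀]; exact Nat.lt_floor_add_one _
  have hk3 : 2 * k₀ ≤ J := by
    have : 2 * (k₀ : ℝ) ≤ J := by
      have : x₀ * J ≤ 1 / 2 * J := mul_le_mul_of_nonneg_right hx₀1 hJpos.le
      linarith
    exact_mod_cast this
  have hkq : k₀ + 4 ≤ q := by
    have : (k₀ : ℝ) + 4 ≤ q := by
      have : x₀ * J ≤ x / 2 * J := mul_le_mul_of_nonneg_right hx₀x hJpos.le
      linarith
    exact_mod_cast this
  have hkh : k₀ + 4 ≤ ⌊h₁ * J⌋₊ := by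
    refine Nat.le_floor ?_
    have : x₀ * J ≤ h₁ / 2 * J := mul_le_mul_of_nonneg_right hx₀h hJpos.le
    push_cast
    linarith
  have hSb0 := hSb 0
  simp only at hSb0
  rw [← hk₀] at hSb0
  have hnB : ¬ Ball (1 / 2 ^ k₀) (Fam.pt F) F.d A := by
    intro hB
    have h1 := CH_D_ball F hlaw hB
    have h2 := htail J hJ1 F A hS k₀ hk3
    have h3 : CH (Pool.Agent.H49.Ent.cond F.p A True) (F.D k₀)
      (fun ω => (F.X J ω, F.W ω)) ≤ ((2 : ℕ) : ℝ) * Real.log 7 := h1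
    have h4 : R / a * (x₀ * J - 1) ≤ R / a * k₀ :=
      mul_le_mul_of_nonneg_left (by linarith) (by positivity)
    have h5 : R / a * (x₀ * J - 1) = 8 * (R * x₀ / (8 * a) * J) - R / a := by
      field_simp
    have h6 : η * J = R * x₀ / (8 * a) * J := by rw [hη]
    have h7 : Real.log 7 ≤ Real.log 11 := Real.log_le_log (by norm_num) (by norm_num)
    push_cast at h3
    have h8 : 0 < R / a := by positivity
    linarith
  have hthin := Stb.thin_lt hSb0 hnB
  have hThP : Pe (Pool.Agent.H49.Ent.cond F.p A True) (Thin (1 / 2 ^ k₀) (Fam.pt F) F.d A) ≤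
      Real.exp (-(κ * J)) := by
    rw [Pe_cond, div_le_iff₀ hPA]
    exact hthin.le
  have hD := CH_D_base F hlaw (i₀ := i₀) hkh hkq hLb hLn
  -- the exceptional part
  have hexc : Pe (Pool.Agent.H49.Ent.cond F.p A True) (Thin (1 / 2 ^ k₀) (Fam.pt F) F.d A) *
      ((q + 3) * Real.log 2) ≤ 1 := by
    have h1 : Real.exp (-(κ * J)) ≤ 2 / (κ * J) ^ 2 := by
      rw [Real.exp_neg, ← one_div, div_le_div_iff₀ (Real.exp_pos _) (by positivity), one_mul]
      have h2 := Real.quadratic_le_exp_of_nonneg (show 0 ≤ κ * J by positivity)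
      have h3 : 0 ≤ κ * J := by positivity
      linarith
    have h2 : ((q : ℝ) + 3) * Real.log 2 ≤ 2 * J := by
      have h3 : Real.log 2 ≤ 1 := by
        have := Real.log_le_sub_one_of_pos (show (0 : ℝ) < 2 by norm_num)
        linarith
      have h4 : (q : ℝ) ≤ J := by exact_mod_cast hqJ
      have h5 : ((q : ℝ) + 3) * Real.log 2 ≤ (q + 3) * 1 :=
        mul_le_mul_of_nonneg_left h3 (by positivity)
      linarith
    calc _ ≤ Real.exp (-(κ * J)) * ((q + 3) * Real.log 2) :=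
          mul_le_mul_of_nonneg_right hThP (by positivity)
      _ ≤ 2 / (κ * J) ^ 2 * (2 * J) := mul_le_mul h1 h2 (by positivity) (by positivity)
      _ = 4 / (κ ^ 2 * J) := by
          field_simp
          ring
      _ ≤ 1 := by
          rw [div_le_one (by positivity)]
          linarith
  have hD' : CH (Pool.Agent.H49.Ent.cond F.p A True) (F.D q)
      (fun ω => (⌊(2 : ℝ) ^ q * F.d ω i₀⌋, Fam.pt F ω)) ≤ 2 * (Real.log 11 + 1) := by
    refine hD.trans ?_
    push_cast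
    linarith
  -- the lower bound
  obtain ⟨k₂, hk₂⟩ : ∃ k₂, k₂ = min q (J / 2) := ⟨_, rfl⟩
  have hk₂q : k₂ ≤ q := by rw [hk₂]; exact min_le_left _ _
  have hk₂J : 2 * k₂ ≤ J := by
    have : k₂ ≤ J / 2 := by rw [hk₂]; exact min_le_right _ _
    omega
  have hk₂2 : q ≤ 2 * k₂ + 1 := by
    rw [hk₂]
    rcases le_total q (J / 2) with h | h
    · rw [min_eq_left h]; omega
    · rw [min_eq_right h]; omega
  have hk₂r : (q : ℝ) ≤ 2 * k₂ + 1 := by exact_mod_cast hk₂2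
  have h1 := htail J hJ1 F A hS k₂ hk₂J
  have h2 : CH (Pool.Agent.H49.Ent.cond F.p A True) (F.D k₂) (fun ω => (F.X J ω, F.W ω)) ≤
      CH (Pool.Agent.H49.Ent.cond F.p A True) (F.D q) (Fam.pt F) := by
    refine CH_mono_left hp0 fun ω ω' _ _ h => ?_
    exact Pool.STK.B58.fl_fine hk₂q (Prod.ext_iff.mp h).1
  have h3 := CH_le_add hp0 (F.D q) (fun ω => ⌊(2 : ℝ) ^ q * F.d ω i₀⌋) (Fam.pt F)
  have h4 : R / (2 * a) * (q - 1) ≤ R / a * k₂ := by
    have e1 : R / a * (k₂ : ℝ) = R / (2 * a) * (2 * k₂) := by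
      field_simp
    rw [e1]
    exact mul_le_mul_of_nonneg_left (by linarith) (by positivity)
  have h5 : R / (2 * a) * ((q : ℝ) - 1) = 2 * (R / (4 * a) * q) - R / (2 * a) := by
    field_simp
    ring
  have h6 : R * x₀ / (8 * a) * J ≤ R / (4 * a) * q / 2 := by
    have h7 : x₀ * J ≤ q := by
      have : x₀ * J ≤ x / 2 * J := mul_le_mul_of_nonneg_right hx₀x hJpos.le
      have : 0 < x * J := by positivity
      linarith
    have h8 : R / (8 * a) * (x₀ * J) ≤ R / (8 * a) * q :=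
      mul_le_mul_of_nonneg_left h7 (by positivity)
    have e1 : R * x₀ / (8 * a) * J = R / (8 * a) * (x₀ * J) := by
      field_simp
    have e2 : R / (4 * a) * (q : ℝ) / 2 = R / (8 * a) * q := by
      field_simp
      ring
    rw [e1, e2]
    exact h8
  have h7 : η * J = R * x₀ / (8 * a) * J := by rw [hη]
  have h8 : R / (2 * a) ≤ R / a := by
    rw [div_le_div_iff₀ (by positivity) ha0]
    nlinarith
  linarith

end Pool.K2S.G
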