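import Pool.Agent.H12.K2S.ActG
import Pool.Agent.H13.EG.ACT1

/-!
# The engine for a general class (H12.K2S.ActG)
-/

set_option autoImplicit false

namespace Pool.K2S.G

open Finset Real
open Pool.Agent.H49.Ent Pool.Agent.H32.Dense Pool.STK Pool.KA Pool.KSAT
open Pool.K2S Pool.PB Pool.LK

variable {S : FCl 2}

/-- **The active digits.** -/
theorem act_good {a R : ℝ} (ha : 1 < a) (hR : 0 < R) (hU : GW S a R) :
    ∃ cR : ℝ, 0 < cR ∧ ∀ h₁ : ℝ, 0 < h₁ → ∀ N q₁ : ℕ, 0 < q₁ → q₁ ≤ N →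
    Claim S (fun J F A => ∀ i₀ : Fin 2, Lb F i₀ ⌊h₁ * J⌋₊ A →
      Ln F i₀ (q₁ * (J / N)) A → ∃ G : Finset ℕ, G ⊆ range q₁ ∧ cR * q₁ ≤ (G.card : ℝ) ∧
      ∀ q ∈ G, ∀ s : ℕ, q + s ≤ q₁ →
        cR * (s * ((J / N : ℕ) * Real.log 2)) ≤ CH (Pool.Agent.H49.Ent.cond F.p A True)
          (fun ω => ⌊(2 : ℝ) ^ ((q + s) * (J / N)) * F.d ω i₀⌋)
          (fun ω => (⌊(2 : ℝ) ^ (q * (J / N)) * F.d ω i₀⌋, Fam.pt F ω))) := by
  classical
  obtain ⟨c₁, hc₁, hact⟩ := act1_thm a R ha hR hU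
  have hl2 : 0 < Real.log 2 := Real.log_pos (by norm_num)
  refine ⟨c₁ / (4 * Real.log 2), by positivity, fun h₁ hh₁ N q₁ hq₁ hqN => ?_⟩
  have hN : 0 < N := by omega
  have hNr : (0 : ℝ) < N := by exact_mod_cast hN
  have hq₁r : (0 : ℝ) < q₁ := by exact_mod_cast hq₁
  have hlaw : Claim S (fun J F A =>
      IsLaw (Pool.Agent.H49.Ent.cond F.p A True)) := by
    refine Claim.of one_pos 0 fun J _ F A hS => ?_
    obtain ⟨h, -⟩ := St_res one_pos.le hS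
    exact h
  obtain ⟨J₂, hJ₂⟩ := exists_nat_gt (2 * N * (2 * Real.log 3 / (c₁ * q₁)) + N)
  refine Claim.mono J₂ ?_ (hlaw.and (hact (q₁ / (2 * N)) h₁ (by positivity) hh₁))
  rintro J hJ F A ⟨hQ, h⟩ i₀ hLb hLn
  obtain ⟨u, hu⟩ : ∃ u, u = J / N := ⟨_, rfl⟩
  rw [← hu] at hLn ⊢
  have hJr : 2 * N * (2 * Real.log 3 / (c₁ * q₁)) + N < J :=
    hJ₂.trans_le (by exact_mod_cast hJ)
  have hl3 : 0 < Real.log 3 := Real.log_pos (by norm_num)
  have hbig : 0 ≤ 2 * N * (2 * Real.log 3 / (c₁ * q₁)) := by positivity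
  have hNJ : (N : ℝ) < J := by linarith
  have hu1 : N * u ≤ J := by rw [hu]; exact Nat.mul_div_le J N
  have hu2 : J < N * (u + 1) := by rw [hu]; exact Nat.lt_mul_div_succ J hN
  have hu2r : (J : ℝ) < N * (u + 1) := by exact_mod_cast hu2
  have hu0 : 0 < u := by
    rcases Nat.eq_zero_or_pos u with h0 | h0
    · rw [h0] at hu2r
      push_cast at hu2r
      linarith
    · exact h0
  have hur : (1 : ℝ) ≤ u := by exact_mod_cast hu0
  have hJu : (J : ℝ) ≤ 2 * N * u := by nlinarith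
  have hq1 : q₁ * u ≤ J := le_trans (Nat.mul_le_mul_right u hqN) hu1
  have hq2 : (q₁ : ℝ) / (2 * N) * J ≤ ((q₁ * u : ℕ) : ℝ) := by
    push_cast
    rw [div_mul_eq_mul_div, div_le_iff₀ (by positivity)]
    have := mul_le_mul_of_nonneg_left hJu hq₁r.le
    linarith
  have key := h i₀ hLb (q₁ * u) hq1 hq2 hLn
  obtain ⟨Q, hQdef⟩ : ∃ Q, Q = Pool.Agent.H49.Ent.cond F.p A True := ⟨_, rfl⟩
  rw [← hQdef] at key hQ ⊢
  obtain ⟨f, hf⟩ : ∃ f : ℕ → ℝ, f = fun q =>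
      CH Q (fun ω => ⌊(2 : ℝ) ^ (q * u) * F.d ω i₀⌋) (Fam.pt F) / (u * Real.log 2) := ⟨_, rfl⟩
  have hul : 0 < (u : ℝ) * Real.log 2 := by positivity
  have hdiff : ∀ q s : ℕ, CH Q (fun ω => ⌊(2 : ℝ) ^ ((q + s) * u) * F.d ω i₀⌋)
      (fun ω => (⌊(2 : ℝ) ^ (q * u) * F.d ω i₀⌋, Fam.pt F ω)) =
      (f (q + s) - f q) * (u * Real.log 2) := by
    intro q s
    have h1 := CH_fl_sub hQ (fun ω => F.d ω i₀) (Fam.pt F) (q * u) (s * u)
    have e : q * u + s * u = (q + s) * u := by ring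
    rw [e] at h1
    rw [h1, hf]
    simp only
    field_simp
  have hinc : ∀ q < q₁, 0 ≤ f (q + 1) - f q ∧ f (q + 1) - f q ≤ 1 := by
    intro q _
    have h1 := hdiff q 1
    have h2 := CH_nonneg hQ.nonneg (fun ω => ⌊(2 : ℝ) ^ ((q + 1) * u) * F.d ω i₀⌋)
      (fun ω => (⌊(2 : ℝ) ^ (q * u) * F.d ω i₀⌋, Fam.pt F ω))
    have h3 := CH_fl_le hQ (fun ω => F.d ω i₀) (Fam.pt F) (q * u) (1 * u)
    have e : q * u + 1 * u = (q + 1) * u := by ring
    rw [e, one_mul] at h3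
    rw [h1] at h2 h3
    constructor
    · exact nonneg_of_mul_nonneg_left h2 hul
    · by_contra hcon
      push Not at hcon
      nlinarith
  have hf0 : f 0 ≤ c₁ / (2 * Real.log 2) * q₁ := by
    have h1 := CH_fl_zero F hQ (Fam.pt F) i₀
    rw [hf]
    simp only
    rw [Nat.zero_mul, div_le_iff₀ hul]
    refine h1.trans ?_
    have h2 : 2 * Real.log 3 / (c₁ * q₁) ≤ u := by
      have h3 : 2 * N * (2 * Real.log 3 / (c₁ * q₁)) ≤ 2 * N * u := by linarith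
      exact le_of_mul_le_mul_left h3 (by positivity)
    rw [div_le_iff₀ (by positivity)] at h2
    have e : c₁ / (2 * Real.log 2) * q₁ * (u * Real.log 2) = u * (c₁ * q₁) / 2 := by
      field_simp
    rw [e]
    linarith
  have hf1 : c₁ / Real.log 2 * q₁ ≤ f q₁ := by
    rw [hf]
    simp only
    rw [le_div_iff₀ hul]
    push_cast at key
    have e : c₁ / Real.log 2 * q₁ * (u * Real.log 2) = c₁ * (q₁ * u) := by
      field_simp
    rw [e]
    exact key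
  have hsel := actsel_thm q₁ (c₁ / (2 * Real.log 2)) f (by positivity) hinc (by
    have e : c₁ / Real.log 2 * q₁ = c₁ / (2 * Real.log 2) * q₁ + c₁ / (2 * Real.log 2) * q₁ := by
      field_simp
      ring
    linarith)
  have ec : c₁ / (2 * Real.log 2) / 2 = c₁ / (4 * Real.log 2) := by
    field_simp
    ring
  rw [ec] at hsel
  refine ⟨(range q₁).filter fun q => ∀ s, q + s ≤ q₁ →
    c₁ / (4 * Real.log 2) * s ≤ f (q + s) - f q, Finset.filter_subset _ _, ?_,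
    fun q hq s hs => ?_⟩
  · refine hsel.trans (le_of_eq ?_)
    congr 1
  · rw [Finset.mem_filter] at hq
    have h1 := hq.2 s hs
    rw [hdiff q s]
    have h2 := mul_le_mul_of_nonneg_right h1 hul.le
    linarith

/-- **The active digits**, all consequences, for digits after `q₀`. -/
theorem act_set {a R : ℝ} (ha : 1 < a) (hR : 0 < R) (hU : GW S a R) :
    ∃ cR C : ℝ, 0 < cR ∧ ∀ h₁ : ℝ, 0 < h₁ → ∀ N q₀ q₁ : ℕ, 0 < q₁ → q₁ ≤ N →
    (q₀ : ℝ) ≤ cR * q₁ →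
    Claim S (fun J F A => ∀ i₀ : Fin 2, Lb F i₀ ⌊h₁ * J⌋₊ A →
      Ln F i₀ (q₁ * (J / N)) A → ∃ G : Finset ℕ, G ⊆ Ico q₀ q₁ ∧ cR * q₁ ≤ (G.card : ℝ) ∧
      ∀ q ∈ G, ∀ s : ℕ, q + s ≤ q₁ →
        cR * (s * ((J / N : ℕ) * Real.log 2)) ≤ CH (Pool.Agent.H49.Ent.cond F.p A True)
          (fun ω => ⌊(2 : ℝ) ^ ((q + s) * (J / N)) * F.d ω i₀⌋)
          (fun ω => (⌊(2 : ℝ) ^ (q * (J / N)) * F.d ω i₀⌋, Fam.pt F ω)) ∧
        (0 < s → ¬ Frz F i₀ (q * (J / N)) ((q + s) * (J / N)) A) ∧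
        ∀ (f n : (Fin 2 → ℤ) × (ℕ × F.ζ) → Fin 2 → ℝ) (w l H : ℕ) (z : F.Ω → Fin 2 → ℝ),
          Frm F i₀ A H f n → Win F i₀ A f w l z → q * (J / N) + w + l ≤ J →
          q * (J / N) + l ≤ H →
          cR * (s * ((J / N : ℕ) * Real.log 2)) - C ≤ CH (Pool.Agent.H49.Ent.cond F.p A True)
            (fun ω => ⌊(2 : ℝ) ^ (s * (J / N)) * F.gd (q * (J / N)) l i₀ z ω i₀⌋)
            (F.qlb w (q * (J / N)) l i₀ z)) := by
  obtain ⟨c₁, hc₁, hact⟩ := act_good ha hR hU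
  obtain ⟨C₁, hfrz⟩ := frz_thm
  obtain ⟨C, hH4⟩ := h4_thm
  have hl2 : 0 < Real.log 2 := Real.log_pos (by norm_num)
  refine ⟨c₁ / 2, C, by positivity, fun h₁ hh₁ N q₀ q₁ hq₁ hqN hq₀ => ?_⟩
  have hN : 0 < N := by omega
  have hNr : (0 : ℝ) < N := by exact_mod_cast hN
  have hlaw : Claim S (fun J F A =>
      IsLaw (Pool.Agent.H49.Ent.cond F.p A True)) := by
    refine Claim.of one_pos 0 fun J _ F A hS => ?_
    obtain ⟨h, -⟩ := St_res one_pos.le hS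
    exact h
  obtain ⟨J₂, hJ₂⟩ := exists_nat_gt (N * (|C₁| / (c₁ / 2 * Real.log 2) + 1))
  refine Claim.mono J₂ ?_ (hlaw.and (hact h₁ hh₁ N q₁ hq₁ hqN))
  rintro J hJ F A ⟨hQ, h⟩ i₀ hLb hLn
  obtain ⟨G, hG1, hG2, hG3⟩ := h i₀ hLb hLn
  have hJr : N * (|C₁| / (c₁ / 2 * Real.log 2) + 1) < J := hJ₂.trans_le (by exact_mod_cast hJ)
  obtain ⟨u, hu⟩ : ∃ u, u = J / N := ⟨_, rfl⟩
  rw [← hu] at hG3 ⊢
  have hu2 : J < N * (u + 1) := by rw [hu]; exact Nat.lt_mul_div_succ J hN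
  have hu2r : (J : ℝ) < N * (u + 1) := by exact_mod_cast hu2
  have hC0 : 0 ≤ |C₁| / (c₁ / 2 * Real.log 2) := by positivity
  have hu3 : |C₁| / (c₁ / 2 * Real.log 2) < u := by
    have h1 : (N : ℝ) * (|C₁| / (c₁ / 2 * Real.log 2) + 1) < N * (u + 1) := hJr.trans hu2r
    have h2 := lt_of_mul_lt_mul_left h1 hNr.le
    linarith
  have hur : (0 : ℝ) < u := lt_of_le_of_lt hC0 hu3
  rw [div_lt_iff₀ (by positivity)] at hu3
  refine ⟨G.filter fun q => q₀ ≤ q, ?_, ?_, ?_⟩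
  · intro q hq
    rw [Finset.mem_filter] at hq
    rw [Finset.mem_Ico]
    exact ⟨hq.2, Finset.mem_range.1 (hG1 hq.1)⟩
  · have h1 : G.card ≤ (G.filter fun q => q₀ ≤ q).card + q₀ := by
      rw [← Finset.card_filter_add_card_filter_not (s := G) (fun q => q₀ ≤ q)]
      refine Nat.add_le_add_left ?_ _
      calc (G.filter fun q => ¬ q₀ ≤ q).card ≤ (range q₀).card := by
            refine Finset.card_le_card fun q hq => ?_
            rw [Finset.mem_filter] at hq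
            rw [Finset.mem_range]
            omega
        _ = q₀ := Finset.card_range _
    have h2 : (G.card : ℝ) ≤ ((G.filter fun q => q₀ ≤ q).card : ℝ) + q₀ := by exact_mod_cast h1
    linarith
  · intro q hq s hs
    rw [Finset.mem_filter] at hq
    have h1 := hG3 q hq.1 s hs
    have h0 : 0 ≤ (s : ℝ) * (u * Real.log 2) := by positivity
    have h2 : c₁ / 2 * (s * (u * Real.log 2)) ≤ CH (Pool.Agent.H49.Ent.cond F.p A True)
          (fun ω => ⌊(2 : ℝ) ^ ((q + s) * u) * F.d ω i₀⌋)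
          (fun ω => (⌊(2 : ℝ) ^ (q * u) * F.d ω i₀⌋, Fam.pt F ω)) := by
      refine le_trans ?_ h1
      exact mul_le_mul_of_nonneg_right (by linarith) h0
    refine ⟨h2, fun hs0 hF => ?_, fun f n w l H z hFr hW hJ1 hH => ?_⟩
    · have h3 := hfrz J F i₀ A (q * u) ((q + s) * u) hQ hF
      have hs1 : (1 : ℝ) ≤ s := by exact_mod_cast hs0
      have h4 : c₁ / 2 * (1 * (u * Real.log 2)) ≤ c₁ / 2 * (s * (u * Real.log 2)) := by
        refine mul_le_mul_of_nonneg_left ?_ (by positivity)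
        exact mul_le_mul_of_nonneg_right hs1 (by positivity)
      have h5 : C₁ ≤ |C₁| := le_abs_self _
      have h6 : c₁ / 2 * (1 * (u * Real.log 2)) = u * (c₁ / 2 * Real.log 2) := by ring
      linarith
    · have h3 := hH4 J F i₀ A f n w (q * u) l (s * u) H z hQ hFr hW hJ1 hH
      have e : q * u + s * u = (q + s) * u := by ring
      rw [e] at h3
      linarith

end Pool.K2S.G
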