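import Pool.Agent.H13.EG.Skel

/-!
# The engine for a general class: assembly
-/

set_option autoImplicit false

namespace Pool.K2S.G

open Finset Real
open Pool.Agent.H49.Ent Pool.Agent.H32.Dense Pool.STK Pool.KA Pool.KSAT
open Pool.K2S Pool.PB Pool.LK

theorem Cl.clg {m : ℕ} {S : FCl m} : ∀ {r : ℕ} {Φ : Stat m}, Cl S r Φ → Clg S Φ
  | 0, _, ⟨τ, hτ, J₁, h⟩ => Clg.base τ hτ J₁ h
  | _ + 1, _, ⟨L, h⟩ => Clg.step L fun κ hκ => Cl.clg (h κ hκ)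

theorem Claim.clg {m : ℕ} {S : FCl m} {Φ : Stat m} (h : Claim S Φ) : Clg S Φ := by
  obtain ⟨r, hr⟩ := h
  exact hr.clg

/-- **(NPC)** for one class. -/
def NPCg (S : FCl 2) : Prop := ∃ x : ℝ, 0 < x ∧ x ≤ 1 ∧ ∀ h₁ : ℝ, 0 < h₁ →
    ∃ N₁ : ℕ, ∀ N ≥ N₁,
    ∀ (i₀ : Fin 2) (j v : ℕ), j ≤ N → (1 - x) * N ≤ (j : ℝ) → (v : ℝ) ≤ x * N →
    Clg S (fun J F A => Lb F i₀ ⌊h₁ * J⌋₊ A →
      Cn F i₀ (j * (J / N)) (v * (J / N)) A → False)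

/-- The engine, from its claims. -/
theorem clg_false {S : FCl 2} (hCHT : CHTStmt S) (hZON : ZONStmt S) (hFF : FFStmt S)
    (hENG : ENGStmt S) {a R : ℝ} (ha : 1 < a) (hR : 0 < R) (hU : GW S a R) (hNPC : NPCg S) :
    Clg S (fun _ _ _ => False) := by
  obtain ⟨c₁, hc₁, hc₁1, hcht⟩ := hCHT a R ha.le hR hU
  obtain ⟨x, hx, hx1, hnpc⟩ := hNPC
  obtain ⟨c, hc, X', hX', hzon⟩ := hZON a R ha.le hR hU (x / 4) (by linarith) (by linarith)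
  obtain ⟨h₁, hh₁⟩ : ∃ h₁, h₁ = c₁ / 4 := ⟨_, rfl⟩
  have hh₁0 : 0 < h₁ := by rw [hh₁]; linarith
  obtain ⟨ω₀, hω₀⟩ : ∃ ω₀, ω₀ = x / 4 := ⟨_, rfl⟩
  have hω₀0 : 0 < ω₀ := by rw [hω₀]; linarith
  obtain ⟨h₂', hh₂', N₁, hff⟩ := hFF a R ha hR hU X' h₁ ω₀ hX' hh₁0 hω₀0
  obtain ⟨h₂, hh₂⟩ : ∃ h₂, h₂ = min h₂' h₁ := ⟨_, rfl⟩
  have hh₂0 : 0 < h₂ := by rw [hh₂]; exact lt_min hh₂' hh₁0
  have hh₂1 : h₂ ≤ h₂' := by rw [hh₂]; exact min_le_left _ _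
  have hh₂2 : h₂ ≤ h₁ := by rw [hh₂]; exact min_le_right _ _
  obtain ⟨e, he⟩ : ∃ e, e = min (h₂ / 8) X' := ⟨_, rfl⟩
  have he0 : 0 < e := by rw [he]; exact lt_min (by linarith) hX'
  have he1 : e ≤ h₂ / 8 := by rw [he]; exact min_le_left _ _
  have he2 : e ≤ X' := by rw [he]; exact min_le_right _ _
  obtain ⟨N₂, hzon⟩ := hzon e he0 he2
  obtain ⟨N₃, heng⟩ := hENG a R ha hR hU c e (h₂ / 4) h₁ ω₀ hc he0 (by linarith) hh₁0 hω₀0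
  obtain ⟨N₄, hnpc⟩ := hnpc h₁ hh₁0
  obtain ⟨N₅, hN₅⟩ := exists_nat_gt (8 / h₂ + 4 / x + 1)
  obtain ⟨N, hN⟩ : ∃ N, N = N₁ + N₂ + N₃ + N₄ + N₅ := ⟨_, rfl⟩
  have hNr : 8 / h₂ + 4 / x + 1 < N := by
    refine hN₅.trans_le ?_
    have : N₅ ≤ N := by omega
    exact_mod_cast this
  have q1 : 0 < 8 / h₂ := by positivity
  have q2 : 0 < 4 / x := by positivity
  have hNh : 8 < N * h₂ := by
    have : 8 / h₂ < N := by linarith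
    rwa [div_lt_iff₀ hh₂0] at this
  have hNx : 4 < N * x := by
    have : 4 / x < N := by linarith
    rwa [div_lt_iff₀ hx] at this
  have hNpos : (0 : ℝ) < N := by linarith
  have hN0 : 0 < N := by exact_mod_cast hNpos
  -- all the claims
  have c1 : Clg S (fun J F A => ∀ i : Fin 2 × Fin (N + 1) × Fin (N + 1),
      ((i.2.2 : ℕ) ≤ i.2.1 ∧ X' * N ≤ (N : ℝ) - (i.2.1 : ℕ) ∧ h₁ * N ≤ (i.2.2 : ℕ) ∧
        ω₀ * N ≤ ((i.2.1 : ℕ) : ℝ) - (i.2.2 : ℕ)) →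
      (Lb F i.1 ⌊h₁ * J⌋₊ A → Ln F i.1 (i.2.2 * (J / N)) A →
      Cn F i.1 (i.2.2 * (J / N)) ((i.2.1 - i.2.2) * (J / N)) A →
      ∀ h' : ℕ, (h' : ℝ) ≤ h₂' * J → Ln F i.1 (i.2.2 * (J / N) + h') A)) :=
    Claim.clg (Claim.finite fun i => Claim.cnd fun k =>
      hff N (by omega) i.1 i.2.1 i.2.2 k.1 (by omega) k.2.1 k.2.2.1 k.2.2.2)
  have c2 : Clg S (fun J F A => ∀ i : Fin 2 × Fin (N + 1) × Fin (N + 1) ×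
      Fin (N + 1), ((i.2.1 : ℕ) ≤ i.2.2.1 ∧ e * N ≤ ((i.2.2.1 : ℕ) : ℝ) - (i.2.1 : ℕ) ∧
        (i.2.2.2 : ℕ) ≤ i.2.1 ∧ 1 ≤ (i.2.2.2 : ℕ) ∧
        ω₀ * N ≤ ((i.2.1 : ℕ) : ℝ) - (i.2.2.2 : ℕ)) →
      (Zn F c (i.2.1 * (J / N)) (i.2.2.1 * (J / N)) A → Lb F i.1 ⌊h₁ * J⌋₊ A →
      (∀ h : ℕ, (h : ℝ) ≤ (((i.2.2.1 : ℕ) : ℝ) - (i.2.1 : ℕ) + (i.2.2.2 : ℕ)) * (J / N : ℕ) +
        h₂ / 4 * J → Ln F i.1 h A) →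
      (∀ l < (i.2.2.2 : ℕ), Cn F i.1 (l * (J / N)) ((i.2.1 - l) * (J / N)) A) →
      Cn F i.1 (i.2.2.2 * (J / N)) ((i.2.1 - i.2.2.2) * (J / N)) A)) :=
    Claim.clg (Claim.finite fun i => Claim.cnd fun k =>
      heng N (by omega) i.1 i.2.1 i.2.2.1 i.2.2.2 k.1 (by omega) k.2.1 k.2.2.1 k.2.2.2.1
        k.2.2.2.2)
  have c3 : Clg S (fun J F A => ∀ i : Fin 2 × Fin (N + 1) × Fin (N + 1),
      ((1 - x) * N ≤ (i.2.1 : ℕ) ∧ ((i.2.2 : ℕ) : ℝ) ≤ x * N) →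
      (Lb F i.1 ⌊h₁ * J⌋₊ A → Cn F i.1 (i.2.1 * (J / N)) (i.2.2 * (J / N)) A → False)) :=
    Clg.finite fun i => Clg.cnd fun k =>
      hnpc N (by omega) i.1 i.2.1 i.2.2 (by omega) k.1 k.2
  obtain ⟨J₂, hJ₂⟩ := exists_nat_gt (4 / c₁)
  refine Clg.mono (J₂ := J₂) (((c1.and c2).and c3).and (hcht.clg.and (hzon N (by omega)).clg)) ?_
  rintro J hJ F A ⟨⟨⟨d1, d2⟩, d3⟩, ⟨i₀, hb⟩, p₁, p₂, z1, z2, z3, z4, z5, z6, z7⟩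
  have hJr : 4 / c₁ < J := hJ₂.trans_le (by exact_mod_cast hJ)
  have r2 : 0 < 4 / c₁ := by positivity
  have hJ0 : (0 : ℝ) < J := by linarith
  have hu1 : (N : ℝ) * (J / N : ℕ) ≤ J := by exact_mod_cast Nat.mul_div_le J N
  have hu0 : (0 : ℝ) ≤ (J / N : ℕ) := Nat.cast_nonneg _
  have hfl : ⌊h₁ * J⌋₊ ≤ ⌊c₁ * J⌋₊ := by
    refine Nat.floor_le_floor (mul_le_mul_of_nonneg_right ?_ hJ0.le)
    rw [hh₁]; linarith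
  have hb1 : Lb F i₀ ⌊h₁ * J⌋₊ A := hb.mono hfl
  have hp₁N : p₁ < N + 1 := by omega
  have hp₂N : p₂ < N + 1 := by omega
  have hp12 : (p₁ : ℝ) ≤ p₂ := by exact_mod_cast z1
  have hzu : ((p₂ : ℝ) - p₁) * (J / N : ℕ) + h₂ / 4 * J + (J / N : ℕ) ≤ h₂ * J := by
    have e1 : ((p₂ : ℝ) - p₁) * (J / N : ℕ) ≤ h₂ / 4 * J := by
      calc ((p₂ : ℝ) - p₁) * (J / N : ℕ) ≤ 2 * (e * N) * (J / N : ℕ) :=
            mul_le_mul_of_nonneg_right z6 hu0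
        _ = 2 * e * (N * (J / N : ℕ)) := by ring
        _ ≤ 2 * e * J := mul_le_mul_of_nonneg_left hu1 (by positivity)
        _ ≤ _ := mul_le_mul_of_nonneg_right (by linarith) hJ0.le
    have e2 : ((J / N : ℕ) : ℝ) * 8 ≤ h₂ * J := by
      calc ((J / N : ℕ) : ℝ) * 8 ≤ (J / N : ℕ) * (N * h₂) :=
            mul_le_mul_of_nonneg_left hNh.le hu0
        _ = h₂ * (N * (J / N : ℕ)) := by ring
        _ ≤ h₂ * J := mul_le_mul_of_nonneg_left hu1 hh₂0.le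
    have e3 : 0 ≤ h₂ * J := by positivity
    linarith
  have key := induct (F := F) (A := A) (i₀ := i₀) (N := N) (u := J / N) (p₁ := p₁)
    (h₁ := h₁) (h₂ := h₂) (ω₀ := ω₀) (c₁ := c₁) (z := (p₂ : ℝ) - p₁) hNpos hu1 hh₁ hc₁ hh₂0 hh₂2
    hω₀0 hb hb1 (by linarith) hzu
    (fun j k1 k2 k3 k4 k5 k6 h' hh' => by
      refine d1 (i₀, ⟨p₁, hp₁N⟩, ⟨j, by omega⟩) ⟨k1, ?_, k2, k3⟩ k4 k5 k6 h' (hh'.trans ?_)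
      · have : X' * N ≤ (N : ℝ) - p₂ := z4
        change X' * N ≤ (N : ℝ) - p₁
        linarith
      · exact mul_le_mul_of_nonneg_right hh₂1 hJ0.le)
    (fun j k1 k2 k3 k4 k5 k6 =>
      d2 (i₀, ⟨p₁, hp₁N⟩, ⟨p₂, hp₂N⟩, ⟨j, by omega⟩) ⟨z1, z5, k1, k2, k3⟩ z7 k4 k5 k6)
  obtain ⟨j, v, s1, s2, s3, s4, s5⟩ := last_scales hx hx1 hNx hNpos hω₀ z3
  have hcn := (key j s3).1 j le_rfl
  rw [s2] at hcn
  exact d3 (i₀, ⟨j, by omega⟩, ⟨v, by omega⟩) ⟨s4, s5⟩ hb1 hcn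

end Pool.K2S.G
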