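import Pool.Agent.H5.K3.Act
import Pool.Agent.H13.EG.Claim

/-!
# The engine for a general class (H5.K3.Act)
-/

set_option autoImplicit false

namespace Pool.K2S.G

open Finset Real
open Pool.Agent.H49.Ent Pool.Agent.H32.Dense Pool.STK Pool.KA
open Pool.K2S Pool.PB Pool.LK

/-- **Activity.** -/
theorem act_thm {m : ℕ} {S : FCl m} (a R : ℝ) (ha : 1 ≤ a) (hU : GW S a R) {η : ℝ}
    (hη : 0 < η) :
    ∃ τ > 0, ∃ J₁ : ℕ, ∀ J ≥ J₁, ∀ (F : Fam m J) (A : F.Ω → Prop), S.St τ F A → ∀ q : ℕ, q ≤ J →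
      R / a * q - η * J ≤ CH (Pool.Agent.H49.Ent.cond F.p A True) (F.D q)
        (fun ω => (F.X J ω, F.W ω)) := by
  have ha0 : 0 < a := by linarith
  obtain ⟨τ, hτ, J₁, h⟩ := hU.tube η hη
  refine ⟨τ, hτ, J₁, fun J hJ F A hS q hq => ?_⟩
  have h1 := h J hJ F A hS q hq
  have hJ0 : (0 : ℝ) ≤ J := Nat.cast_nonneg J
  have h2 : a * (R / a * q - η * J) ≤ a * CH (Pool.Agent.H49.Ent.cond F.p A True) (F.D q)
      (fun ω => (F.X J ω, F.W ω)) := by
    have e1 : a * (R / a * q - η * J) = R * q - a * (η * J) := by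
      field_simp
    have e2 : η * J ≤ a * (η * J) := by
      have : 0 ≤ η * J := by positivity
      nlinarith
    rw [e1]
    linarith
  exact le_of_mul_le_mul_left h2 ha0

end Pool.K2S.G
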