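import Pool.Agent.H35.K2S.Lev
import Pool.Agent.H13.EG.Claim

/-!
# The engine for a general class (H35.K2S.Lev): the fans are spread
-/

set_option autoImplicit false

namespace Pool.K2S.G

open Finset Real
open Pool.Agent.H49.Ent Pool.Agent.H32.Dense Pool.STK Pool.KA
open Pool.K2S Pool.PB Pool.LK

/-- The digits of the directions in a ball, given the point, have bounded entropy. -/
theorem ball_ent {m J : ℕ} {F : Fam m J} {A : F.Ω → Prop}
    (h : IsLaw (Pool.Agent.H49.Ent.cond F.p A True)) {q : ℕ}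
    (hB : Ball (1 / 2 ^ q) (Fam.pt F) F.d A) :
    CH (Pool.Agent.H49.Ent.cond F.p A True) (F.D q) (fun ω => (F.X J ω, F.W ω)) ≤ cc m := by
  obtain ⟨v, hv⟩ := hB
  have hA : ∀ ω, 0 < Pool.Agent.H49.Ent.cond F.p A True ω → A ω := by
    intro ω hω
    have h1 := ((cond_pos_iff F.isLaw.nonneg A True ω).1 hω).2
    simpa using h1
  have e1 := Pool.KA.TRC.CH_le_round h (F.D q) (fun _ => (0 : Fin m → ℤ))
    (fun ω => (F.X J ω, F.W ω)) (fun ω ω' hω hω' hw _ k => by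
      have b1 : |F.d ω k - v (Fam.pt F ω) k| ≤ 1 / 2 ^ q := hv ω (hA ω hω) k
      have b2 : |F.d ω' k - v (Fam.pt F ω') k| ≤ 1 / 2 ^ q := hv ω' (hA ω' hω') k
      have hw' : Fam.pt F ω = Fam.pt F ω' := hw
      rw [hw'] at b1
      have hpq : (0 : ℝ) < 2 ^ q := by positivity
      have b3 : |(2 : ℝ) ^ q * F.d ω k - 2 ^ q * F.d ω' k| ≤ 2 := by
        rw [← mul_sub, abs_mul, abs_of_pos hpq]
        have b4 : |F.d ω k - F.d ω' k| ≤ 1 / 2 ^ q + 1 / 2 ^ q := by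
          rw [abs_le] at b1 b2 ⊢
          constructor <;> linarith [b1.1, b1.2, b2.1, b2.2]
        calc (2 : ℝ) ^ q * |F.d ω k - F.d ω' k| ≤ 2 ^ q * (1 / 2 ^ q + 1 / 2 ^ q) :=
              mul_le_mul_of_nonneg_left b4 hpq.le
          _ = 2 := by field_simp; norm_num
      have f1 := Int.floor_le ((2 : ℝ) ^ q * F.d ω k)
      have f2 := Int.lt_floor_add_one ((2 : ℝ) ^ q * F.d ω k)
      have f3 := Int.floor_le ((2 : ℝ) ^ q * F.d ω' k)
      have f4 := Int.lt_floor_add_one ((2 : ℝ) ^ q * F.d ω' k)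
      rw [abs_le] at b3
      change |((⌊(2 : ℝ) ^ q * F.d ω k⌋ - ⌊(2 : ℝ) ^ q * F.d ω' k⌋ : ℤ) : ℝ)| ≤ 49
      rw [abs_le]
      push_cast
      constructor <;> linarith [b3.1, b3.2])
  have e2 : CH (Pool.Agent.H49.Ent.cond F.p A True) (fun _ => (0 : Fin m → ℤ))
      (fun ω => (F.X J ω, F.W ω)) = 0 := CH_eq_zero h.nonneg fun _ _ _ _ _ => rfl
  linarith

/-- (2.4.2) The fans are spread at every scale. -/
theorem not_ball {m : ℕ} {S : FCl m} {a R : ℝ} (ha : 1 ≤ a) (hR : 0 < R) (hU : GW S a R)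
    {x : ℝ} (hx : 0 < x) :
    ∃ τ > 0, ∃ J₁ : ℕ, ∀ J ≥ J₁, ∀ (F : Fam m J) (A : F.Ω → Prop), S.St τ F A →
      ∀ q : ℕ, q ≤ J → x * J ≤ q → ¬ Ball (1 / 2 ^ q) (Fam.pt F) F.d A := by
  have ha0 : 0 < a := by linarith
  obtain ⟨τ, hτ, J₁, h⟩ := hU.tube (R * x / 2) (by positivity)
  obtain ⟨J₂, hJ₂⟩ := exists_nat_gt (2 * (a * cc m) / (R * x))
  refine ⟨τ, hτ, max J₁ (max J₂ 1), ?_⟩
  intro J hJ F A hS q hq hxq hB
  have hJ1 : J₁ ≤ J := (le_max_left _ _).trans hJ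
  have hJ2 : J₂ ≤ J := (le_max_left _ _).trans ((le_max_right _ _).trans hJ)
  have hJ3 : 1 ≤ J := (le_max_right _ _).trans ((le_max_right _ _).trans hJ)
  have hJr : (0 : ℝ) < J := by exact_mod_cast hJ3
  obtain ⟨hlaw, -⟩ := St_res hτ.le hS
  have h1 := h J hJ1 F A hS q hq
  have h2 := ball_ent hlaw hB
  have h3 : a * CH (Pool.Agent.H49.Ent.cond F.p A True) (F.D q)
      (fun ω => (F.X J ω, F.W ω)) ≤ a * cc m := mul_le_mul_of_nonneg_left h2 ha0.le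
  have h4 : R * (x * J) ≤ R * q := mul_le_mul_of_nonneg_left hxq hR.le
  have h5 : 2 * (a * cc m) < R * x * J := by
    have e1 : (J₂ : ℝ) ≤ J := by exact_mod_cast hJ2
    have e2 : 2 * (a * cc m) / (R * x) < J := lt_of_lt_of_le hJ₂ e1
    rw [div_lt_iff₀ (by positivity)] at e2
    linarith
  linarith

end Pool.K2S.G
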