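import Pool.Agent.H5.K3.BoxB
import Pool.Agent.H13.EG.Lev
import Pool.Agent.H13.EG.H5Act

/-!
# The engine for a general class (H5.K3.BoxB)
-/

set_option autoImplicit false

namespace Pool.K2S.G

open Finset Real
open Pool.Agent.H49.Ent Pool.Agent.H32.Dense Pool.STK Pool.KA Pool.KSAT Pool.KS6 Pool.K2S
open Pool.K3 Pool.PB Pool.LK

/-- **Lemma B (claim).** Scales are multiples of `J / N`: `j` is the precision to which the label
determines the line of directions, `b` the number of digits of the velocity, `v` the window. -/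
def LBStmt {m : ℕ} (S : FCl m) : Prop :=
  ∀ a R : ℝ, 1 ≤ a → 0 < R → GW S a R → ∀ h₁ η : ℝ, 0 < h₁ → 0 < η →
    ∀ (N : ℕ) (i₀ : Fin m) (j b v : ℕ), b ≤ j → b < N → v ≤ N →
    Claim S (fun J F A => Lb F i₀ ⌊h₁ * J⌋₊ A →
      ∀ (S : Type) (z : F.Ω → S),
      (∃ φ : (Fin m → ℤ) × (ℕ × F.ζ) → S, ∀ ω, A ω → z ω = φ (Fam.pt F ω)) →
      LineU i₀ (1 / 2 ^ (j * (J / N))) z F.d A →
      CH (cpy (Pool.Agent.H49.Ent.cond F.p A True) (slam F (v * (J / N)))) (fun w => z w.1)
        (fun w => (Fam.pt F w.2, F.T w.1)) ≤ R / a * ((b * (J / N) : ℕ) : ℝ) - η * J →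
      Cn F i₀ ((j - b) * (J / N)) (v * (J / N)) A)

theorem lb_thm {m : ℕ} (S : FCl m) : LBStmt S := by
  classical
  intro a R ha hR hU h₁ η hh₁ hη N i₀ j b v hbj hbN hvN
  have hN0 : 0 < N := by omega
  have hNr : (0 : ℝ) < N := by exact_mod_cast hN0
  have ha0 : 0 < a := by linarith
  rcases Nat.eq_zero_or_pos b with hb0 | hb0
  · -- the case `b = 0` is void for large `J`
    refine Claim.of one_pos 1 fun J hJ F A hS hb V z hz hl hC => ?_
    exfalso
    have h1 : 0 ≤ CH (cpy (Pool.Agent.H49.Ent.cond F.p A True) (slam F (v * (J / N))))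
        (fun w => z w.1) (fun w => (Fam.pt F w.2, F.T w.1)) := by
      refine CH_nonneg (fun w => ?_) _ _
      unfold cpy
      have h2 : ∀ ω, 0 ≤ Pool.Agent.H49.Ent.cond F.p A True ω :=
        cond_nonneg F.isLaw.nonneg A True
      split_ifs
      · exact div_nonneg (mul_nonneg (h2 _) (h2 _)) (law_nonneg h2 _ _)
      · exact le_rfl
    rw [hb0] at hC
    have hJr : (1 : ℝ) ≤ J := by exact_mod_cast hJ
    simp only [zero_mul, Nat.cast_zero, mul_zero, zero_sub] at hC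
    have : 0 < η * J := by positivity
    linarith
  -- the spread of the fans
  obtain ⟨x, hx⟩ : ∃ x, x = min h₁ (1 / N) / 4 := ⟨_, rfl⟩
  have hx0 : 0 < x := by rw [hx]; positivity
  have hx1 : x ≤ h₁ / 4 := by
    rw [hx]
    have := min_le_left h₁ (1 / N : ℝ)
    linarith
  have hx2 : x ≤ 1 / N / 4 := by
    rw [hx]
    have := min_le_right h₁ (1 / N : ℝ)
    linarith
  refine Claim.one ⟨2, fun J F i => if i = 0 then
    RotU i₀ (1 / 2 ^ ((j - b) * (J / N))) (1 / 2 ^ ((j - b) * (J / N))) (Fam.pt F)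
      (slam F (v * (J / N))) F.d else Ball (1 / 2 ^ ⌈x * J⌉₊) (Fam.pt F) F.d,
    fun J F i => by
      split_ifs
      · exact RotU.hered _ _ _ _ _ _
      · exact Ball.hered _ _ _⟩ fun κ hκ => ?_
  obtain ⟨τ₁, hτ₁, J₂, hball⟩ := not_ball ha hR hU hx0
  obtain ⟨τ₂, hτ₂, J₃, hact⟩ := act_thm a R ha hU (η := η / 4) (by positivity)
  obtain ⟨τ', hτ'⟩ : ∃ τ', τ' = min (min τ₁ τ₂) (η / 4) := ⟨_, rfl⟩
  have hτ'0 : 0 < τ' := by rw [hτ']; positivity
  obtain ⟨τ, hτ⟩ : ∃ τ, τ = τ' / 6 := ⟨_, rfl⟩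
  have hτ0 : 0 < τ := by rw [hτ]; positivity
  obtain ⟨Cst, hCst⟩ : ∃ Cst : ℝ, Cst = Real.log 5 + Real.log 2 + m * (Real.log (2 * 11 + 1) +
    2 * (3 / κ + 3)) := ⟨_, rfl⟩
  have hCst0 : 0 ≤ Cst := by
    rw [hCst]
    have h1 : 0 ≤ Real.log 5 := Real.log_nonneg (by norm_num)
    have h2 : 0 ≤ Real.log 2 := Real.log_nonneg (by norm_num)
    have h3 : 0 ≤ Real.log (2 * 11 + 1) := Real.log_nonneg (by norm_num)
    positivity
  obtain ⟨J₁, hJ₁⟩ := exists_nat_gt (Cst / (η / 4) + J₂ + J₃ + 16 / x + 16 * N + 1)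
  refine ⟨τ, hτ0, J₁, ?_⟩
  intro J hJ F A hS hSb hb V z hz hl hC
  by_contra hn
  have hJr : Cst / (η / 4) + J₂ + J₃ + 16 / x + 16 * N + 1 < J :=
    hJ₁.trans_le (by exact_mod_cast hJ)
  have t1 : 0 ≤ Cst / (η / 4) := by positivity
  have t2 : (0 : ℝ) ≤ J₂ := by positivity
  have t3 : (0 : ℝ) ≤ J₃ := by positivity
  have t4 : 0 ≤ 16 / x := by positivity
  have t5 : 0 ≤ 16 * (N : ℝ) := by positivity
  have hJ0 : (0 : ℝ) < J := by linarith
  have k1 : Cst < η / 4 * J := by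
    have : Cst / (η / 4) < J := by linarith
    rw [div_lt_iff₀ (by positivity)] at this
    linarith
  have k2 : J₂ ≤ J := by
    have : (J₂ : ℝ) ≤ J := by linarith
    exact_mod_cast this
  have k3 : J₃ ≤ J := by
    have : (J₃ : ℝ) ≤ J := by linarith
    exact_mod_cast this
  have k4 : 16 < x * J := by
    have : 16 / x < J := by linarith
    rw [div_lt_iff₀ hx0] at this
    linarith
  have k5 : 16 * (N : ℝ) < J := by linarith
  have hPA := hS.2
  have hp := F.isLaw
  have hA0 : 0 < Pe F.p A := lt_of_lt_of_le (Real.exp_pos _) hPA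
  obtain ⟨hlaw, -, hTm', -⟩ := St_res hτ0.le hS
  have e7 : 6 * τ = τ' := by
    rw [hτ]
    ring
  rw [e7] at hTm'
  have hle : ∀ t, τ' ≤ t → S.St t F A := by
    intro t ht
    exact FCl.St.mono (by linarith) hS
  -- scales
  obtain ⟨u, hu⟩ : ∃ u, u = J / N := ⟨_, rfl⟩
  rw [← hu] at hl hC hn
  have hu1 : N * u ≤ J := by rw [hu]; exact Nat.mul_div_le J N
  have hu2 : (J : ℝ) < N * (u + 1) := by
    have := Nat.lt_mul_div_succ J hN0
    rw [← hu] at this
    exact_mod_cast this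
  have hu1r : (N : ℝ) * u ≤ J := by exact_mod_cast hu1
  have hxu : ⌈x * J⌉₊ + 3 ≤ u := by
    have h1 : (⌈x * J⌉₊ : ℝ) < x * J + 1 := Nat.ceil_lt_add_one (by positivity)
    have h2 : x * J ≤ (u + 1) / 4 := by
      calc x * J ≤ 1 / N / 4 * J := mul_le_mul_of_nonneg_right hx2 hJ0.le
        _ = J / N / 4 := by ring
        _ ≤ _ := by
          refine div_le_div_of_nonneg_right ?_ (by norm_num)
          rw [div_le_iff₀ hNr]
          linarith
    have h3 : (⌈x * J⌉₊ : ℝ) + 3 ≤ u := by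
      have h4 : 16 < (u : ℝ) + 1 := by
        have : (N : ℝ) * 16 < N * (u + 1) := by linarith
        exact lt_of_mul_lt_mul_left this hNr.le
      linarith
    exact_mod_cast h3
  have hxh : ⌈x * J⌉₊ + 3 ≤ ⌊h₁ * J⌋₊ := by
    have h1 : (⌈x * J⌉₊ : ℝ) < x * J + 1 := Nat.ceil_lt_add_one (by positivity)
    have h2 : x * J ≤ h₁ / 4 * J := mul_le_mul_of_nonneg_right hx1 hJ0.le
    refine Nat.le_floor ?_
    push_cast
    linarith
  have hjb : (j - b) * u + b * u = j * u := by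
    rw [← add_mul]
    congr 1
    omega
  have hbu : u ≤ j * u := by
    have : 1 * u ≤ j * u := Nat.mul_le_mul_right u (by omega)
    omega
  have hs0 := hSb 0
  have hs1 := hSb 1
  simp only [if_true, ← hu] at hs0
  simp only [show ¬ ((1 : Fin 2) = 0) by decide, if_false] at hs1
  have hnb : ¬ Ball (1 / 2 ^ ⌈x * J⌉₊) (Fam.pt F) F.d A := by
    have hxJ : ⌈x * J⌉₊ ≤ J := by
      have h1 : u ≤ J := by
        have : 1 * u ≤ N * u := Nat.mul_le_mul_right u (by omega)
        omega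
      omega
    refine hball J k2 F A (hle τ₁ ?_) ⌈x * J⌉₊ hxJ (Nat.le_ceil _)
    rw [hτ']
    exact (min_le_left _ _).trans (min_le_left _ _)
  have hcore := boxB_core F hA0 (κ := κ * J) (h := ⌊h₁ * J⌋₊) (l := (j - b) * u) (q := b * u)
    (w := v * u) (x := ⌈x * J⌉₊) (z := z) hs0 hn hs1 hnb hb hz (by rw [hjb]; exact hl) hxh
    (by rw [hjb]; omega) hlaw
  -- activity
  have hbJ : b * u ≤ J := by
    have : b * u ≤ N * u := Nat.mul_le_mul_right u hbN.le
    omega
  have hA2 := hact J k3 F A (hle τ₂ (by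
    rw [hτ']
    exact (min_le_left _ _).trans (min_le_right _ _))) (b * u) hbJ
  have hvu : v * u ≤ J := by
    have : v * u ≤ N * u := Nat.mul_le_mul_right u hvN
    omega
  have hTm : (F.res A True hlaw).Tm (τ' * J) := hTm'
  have hB2 := prs_time' (F.res A True hlaw) hvu hTm ((F.res A True hlaw).D (b * u))
    (fun ω => ((F.res A True hlaw).X J ω, (F.res A True hlaw).W ω)) (fun ω ω' _ _ h => by
      have h2 : (F.res A True hlaw).T ω = (F.res A True hlaw).T ω' :=
        (Prod.ext_iff.mp (Prod.ext_iff.mp h).2).1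
      unfold Fam.T1
      rw [h2])
  obtain ⟨G, hG⟩ : ∃ G, G = F.res A True hlaw := ⟨_, rfl⟩
  have hQ0 := (prs_law (F.res A True hlaw) (v * u)).nonneg
  have hC1 : CH (prs (F.res A True hlaw) (v * u)) (fun w : F.Ω × F.Ω => F.D (b * u) w.2)
      (fun w => (F.T w.1, Fam.pt F w.2)) ≤
      CH (prs (F.res A True hlaw) (v * u)) (fun w : F.Ω × F.Ω => z w.1)
      (fun w => (F.T w.1, Fam.pt F w.2)) +
      CH (prs (F.res A True hlaw) (v * u)) (fun w : F.Ω × F.Ω => F.D (b * u) w.2)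
      (fun w => (z w.1, (F.T w.1, Fam.pt F w.2))) :=
    CH_le_add hQ0 (fun w : F.Ω × F.Ω => F.D (b * u) w.2) (fun w => z w.1)
      (fun w => (F.T w.1, Fam.pt F w.2))
  have hC2 : CH (prs (F.res A True hlaw) (v * u)) (fun w : F.Ω × F.Ω => z w.1)
      (fun w => (F.T w.1, Fam.pt F w.2)) ≤ R / a * ((b * u : ℕ) : ℝ) - η * J := by
    refine le_trans (le_of_eq ?_) hC
    refine CH_congr hQ0 (fun _ _ _ _ h => (Prod.ext_iff.mp h).1)
      (fun _ _ _ _ h => (Prod.ext_iff.mp h).1) ?_ ?_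
    · intro w w' _ _ h
      simp only [Prod.mk.injEq] at h ⊢
      exact ⟨h.2, h.1⟩
    · intro w w' _ _ h
      simp only [Prod.mk.injEq] at h ⊢
      exact ⟨h.2, h.1⟩
  -- the error of the bad pairs
  have hexp : Real.exp (-(κ * J)) * Real.log (2 * (2 * 2 ^ (b * u) + 1) + 1) ≤ 3 / κ + 3 := by
    have h1 : Real.log (2 * (2 * 2 ^ (b * u) + 1) + 1) ≤ ((b * u : ℕ) : ℝ) * Real.log 2 + 3 := by
      have h2 : (2 * (2 * 2 ^ (b * u) + 1) + 1 : ℝ) ≤ 2 ^ (b * u) * 7 := by
        have : (1 : ℝ) ≤ 2 ^ (b * u) := one_le_pow₀ (by norm_num)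
        linarith
      have h3 := Real.log_le_log (by positivity) h2
      rw [Real.log_mul (by positivity) (by norm_num), Real.log_pow] at h3
      have h4 : Real.log 7 ≤ 3 := by
        have : Real.log 7 ≤ Real.log (Real.exp 3) := by
          refine Real.log_le_log (by norm_num) ?_
          have := Real.add_one_le_exp (1 : ℝ)
          have h5 : (7 : ℝ) ≤ (1 + 1) ^ 3 := by norm_num
          have h6 : ((1 : ℝ) + 1) ^ 3 ≤ Real.exp 1 ^ 3 :=
            pow_le_pow_left₀ (by norm_num) this 3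
          rw [← Real.exp_nat_mul] at h6
          norm_num at h6 ⊢
          linarith
        rwa [Real.log_exp] at this
      linarith
    have h2 : ((b * u : ℕ) : ℝ) * Real.log 2 ≤ J := by
      have h3 : ((b * u : ℕ) : ℝ) ≤ J := by exact_mod_cast hbJ
      have h4 : Real.log 2 ≤ 1 := by
        have := Real.log_two_lt_d9
        linarith
      calc _ ≤ (J : ℝ) * 1 := mul_le_mul h3 h4 (Real.log_nonneg (by norm_num)) hJ0.le
        _ = _ := mul_one _
    have h3 : Real.exp (-(κ * J)) * J ≤ 1 / κ := by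
      have h4 := Real.add_one_le_exp (κ * J)
      have h5 : κ * J ≤ Real.exp (κ * J) := by linarith
      rw [Real.exp_neg, inv_mul_le_iff₀ (Real.exp_pos _), mul_one_div, le_div_iff₀ hκ]
      linarith
    have h4 : Real.exp (-(κ * J)) ≤ 1 := by
      rw [Real.exp_le_one_iff]
      have : 0 < κ * J := by positivity
      linarith
    calc _ ≤ Real.exp (-(κ * J)) * (J + 3) :=
          mul_le_mul_of_nonneg_left (by linarith) (Real.exp_pos _).le
      _ = Real.exp (-(κ * J)) * J + 3 * Real.exp (-(κ * J)) := by ring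
      _ ≤ 1 / κ + 3 := by linarith
      _ ≤ 3 / κ + 3 := by
          have : 1 / κ ≤ 3 / κ := div_le_div_of_nonneg_right (by norm_num) hκ.le
          linarith
  have hm : (m : ℝ) * (Real.log (2 * 11 + 1) + 2 * Real.exp (-(κ * J)) *
      Real.log (2 * (2 * 2 ^ (b * u) + 1) + 1)) ≤
      m * (Real.log (2 * 11 + 1) + 2 * (3 / κ + 3)) := by
    refine mul_le_mul_of_nonneg_left ?_ (Nat.cast_nonneg m)
    have : 2 * Real.exp (-(κ * J)) * Real.log (2 * (2 * 2 ^ (b * u) + 1) + 1) =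
      2 * (Real.exp (-(κ * J)) * Real.log (2 * (2 * 2 ^ (b * u) + 1) + 1)) := by ring
    rw [this]
    linarith
  have hτη : τ' * J ≤ η / 4 * J := by
    refine mul_le_mul_of_nonneg_right ?_ hJ0.le
    rw [hτ']
    exact min_le_right _ _
  have hD1 : R / a * ((b * u : ℕ) : ℝ) - η / 4 * J ≤
      CH (F.res A True hlaw).p ((F.res A True hlaw).D (b * u))
        (fun ω => ((F.res A True hlaw).X J ω, (F.res A True hlaw).W ω)) := hA2
  have hD2 : CH (F.res A True hlaw).p ((F.res A True hlaw).D (b * u))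
        (fun ω => ((F.res A True hlaw).X J ω, (F.res A True hlaw).W ω)) -
        (τ' * J + Real.log 5) ≤ CH (prs (F.res A True hlaw) (v * u))
        (fun w : F.Ω × F.Ω => F.D (b * u) w.2) (fun w => (F.T w.1, Fam.pt F w.2)) := hB2
  have hD3 : CH (prs (F.res A True hlaw) (v * u)) (fun w : F.Ω × F.Ω => F.D (b * u) w.2)
      (fun w => (z w.1, (F.T w.1, Fam.pt F w.2))) ≤ Real.log 2 + m * (Real.log (2 * 11 + 1) +
        2 * Real.exp (-(κ * J)) * Real.log (2 * (2 * 2 ^ (b * u) + 1) + 1)) := hcore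
  have hηJ : 0 < η * J := by positivity
  have h1 := hD1.trans (sub_le_iff_le_add.1 hD2)
  have h2 := hC1.trans (add_le_add hC2 (hD3.trans (add_le_add le_rfl hm)))
  have h3 := h1.trans (add_le_add h2 le_rfl)
  rw [hCst] at k1
  linarith

end Pool.K2S.G
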