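import Pool.Agent.H13.K2S.Lin
import Pool.Agent.H13.EG.Claim

/-!
# The engine for a general class: fans at exact points are flat
-/

set_option autoImplicit false

namespace Pool.K2S.G

open Finset Real
open Pool.Agent.H49.Ent Pool.Agent.H32.Dense Pool.STK Pool.KA Pool.KSAT Pool.KA.TRC
open Pool.K2S Pool.PB Pool.LK

variable {m : ℕ}

open Classical in
/-- **Fans at exact points are flat** (in codimension one): for every `h` up to a fixed proportion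
of the resolution. -/
theorem lin_thm (k : ℕ) {S : FCl (k + 1)} {a R : ℝ} (ha : 1 ≤ a) (hR : 0 < R)
    (hU : GW S a R) :
    ∃ c₁ > 0, ∀ κ > 0, ∃ τ > 0, ∃ J₁ : ℕ, ∀ J ≥ J₁, ∀ F : Fam (k + 1) J, ∀ A : F.Ω → Prop,
      S.St τ F A → ∀ h : ℕ, (h : ℝ) ≤ c₁ * J →
      Stb F.p (κ * J) A (Hyp (1 / 2 ^ h) (Fam.pt F) F.d) → Hyp (1 / 2 ^ h) (Fam.pt F) F.d A := by
  obtain ⟨C₁, hC₁, hrows⟩ := rows_thm k
  obtain ⟨C₃, hC₃⟩ : ∃ C₃ : ℝ, C₃ = 0 := ⟨_, rfl⟩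
  obtain ⟨hC₃⟩ : 0 ≤ C₃ ∧ True := ⟨hC₃.ge, trivial⟩
  have hl2 : 0 < Real.log 2 := Real.log_pos (by norm_num)
  have ha0 : 0 < a := by linarith
  have hk : (0 : ℝ) ≤ k := by positivity
  obtain ⟨g, hg⟩ : ∃ g, g = R / a := ⟨_, rfl⟩
  have hg0 : 0 < g := by rw [hg]; positivity
  obtain ⟨N, hN⟩ := exists_nat_gt (16 * ((k + 2) * (k + 1) * Real.log 2) / g)
  have hN0 : (0 : ℝ) < N := lt_of_le_of_lt (by positivity) hN
  have hN2 : (k + 2) * (k + 1) * Real.log 2 ≤ g / 16 * N := by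
    rw [div_lt_iff₀ hg0] at hN
    linarith
  obtain ⟨η, hη⟩ : ∃ η, η = g / 128 := ⟨_, rfl⟩
  have hη0 : 0 < η := by rw [hη]; positivity
  obtain ⟨τg, hτg, J₂, hU⟩ := hU.tail η hη0
  obtain ⟨θ, hθ⟩ : ∃ θ, θ = τg := ⟨_, rfl⟩
  have hθ0 : 0 < θ := by rw [hθ]; exact hτg
  obtain ⟨c₁, hc⟩ : ∃ c₁, c₁ = g / (64 * ((k + 1) * (k + 2) * Real.log 2 * N)) := ⟨_, rfl⟩
  have hc0 : 0 < c₁ := by rw [hc]; positivity
  obtain ⟨c₂, hc2⟩ : ∃ c₂, c₂ = min c₁ (1 / (8 * N * (k + 2))) := ⟨_, rfl⟩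
  have hc20 : 0 < c₂ := by rw [hc2]; positivity
  refine ⟨c₂, hc20, fun κ hκ => ?_⟩
  -- the constant `τ`
  obtain ⟨τ', hτ'⟩ : ∃ τ', τ' = min (min (g / (64 * (N * (k + 3) + 1))) (θ / 2)) η := ⟨_, rfl⟩
  have hτ'0 : 0 < τ' := by rw [hτ']; positivity
  obtain ⟨τ, hτ⟩ : ∃ τ, τ = τ' / (7 * (1 + a)) := ⟨_, rfl⟩
  have hτ0 : 0 < τ := by rw [hτ]; positivity
  obtain ⟨δ, hδ⟩ : ∃ δ, δ = (N + 1 : ℝ) * cc (k + 1) + 1 := ⟨_, rfl⟩
  have hcc : 0 ≤ cc (k + 1) := by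
    unfold cc
    exact mul_nonneg (by positivity) (Real.log_nonneg (by norm_num))
  have hδ0 : 0 < δ := by rw [hδ]; positivity
  -- how large `J` has to be
  obtain ⟨Cst, hCst⟩ : ∃ Cst, Cst = N * C₁ + (k + 2) * C₁ + C₃ +
    5 * ((k + 1) * (k + 2) * Real.log 2 * N) := ⟨_, rfl⟩
  obtain ⟨Lρ, hLρ⟩ : ∃ L, L = Real.log ((k + 2) ^ 2 * Real.log 2 * 64 / g + 1) := ⟨_, rfl⟩
  have hLρ0 : 0 ≤ Lρ := by
    rw [hLρ]
    exact Real.log_nonneg (by linarith [show 0 ≤ (k + 2) ^ 2 * Real.log 2 * 64 / g by positivity])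
  obtain ⟨J₁, hJ₁⟩ := exists_nat_gt (64 * Cst / g + Real.log 2 / τ +
    (4 * δ + 4 * Real.log 2 + 4 * Lρ) / κ + 8 * N + 2 * J₂ + 80 * N * (k + 2) + 1)
  refine ⟨τ, hτ0, J₁, ?_⟩
  intro J hJ F A hS h hh hstab
  by_contra hnot
  have hJr : (J₁ : ℝ) ≤ J := by exact_mod_cast hJ
  have t1 : 0 ≤ 64 * Cst / g := by rw [hCst]; positivity
  have t2 : 0 ≤ Real.log 2 / τ := by positivity
  have t3 : 0 ≤ (4 * δ + 4 * Real.log 2 + 4 * Lρ) / κ := by positivity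
  have t4 : (0 : ℝ) ≤ J₂ := by positivity
  have t5 : 0 ≤ 80 * N * ((k : ℝ) + 2) := by positivity
  have t6 : 0 ≤ 8 * (N : ℝ) := by positivity
  have hJ0 : (0 : ℝ) < J := by linarith
  have j1 : 64 * Cst / g < J := by linarith
  have j2 : Real.log 2 / τ < J := by linarith
  have j3 : (4 * δ + 4 * Real.log 2 + 4 * Lρ) / κ < J := by linarith
  have j4 : 8 * (N : ℝ) < J := by linarith
  have j5 : 2 * (J₂ : ℝ) < J := by linarith
  have j6 : 80 * N * ((k : ℝ) + 2) < J := by linarith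
  rw [div_lt_iff₀ hg0] at j1
  rw [div_lt_iff₀ hτ0] at j2
  rw [div_lt_iff₀ hκ] at j3
  obtain ⟨hT, hPA⟩ := hS
  have hp := F.isLaw
  have hA0 : 0 < Pe F.p A := lt_of_lt_of_le (Real.exp_pos _) hPA
  -- the windows
  obtain ⟨K, hK⟩ : ∃ K, K = J / (2 * N) := ⟨_, rfl⟩
  have hN0' : 0 < N := by exact_mod_cast hN0
  have hK1 : N * K ≤ J / 2 := by
    rw [hK, ← Nat.div_div_eq_div_mul]
    exact Nat.mul_div_le _ _
  have hK2 : (J : ℝ) < 2 * N * (K + 1) := by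
    have := Nat.lt_mul_div_succ J (show 0 < 2 * N by omega)
    rw [← hK] at this
    exact_mod_cast this
  have hK3 : J / 4 ≤ (N : ℝ) * K := by linarith
  have hK4 : N * K ≤ J := hK1.trans (Nat.div_le_self _ _)
  have hK4r : (N : ℝ) * K ≤ J := by exact_mod_cast hK4
  obtain ⟨w₀, hw₀⟩ : ∃ w, w = J - N * K := ⟨_, rfl⟩
  have hw1 : w₀ + N * K = J := by omega
  have hw2 : J ≤ 2 * w₀ := by omega
  have hw2r : (J : ℝ) ≤ 2 * w₀ := by exact_mod_cast hw2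
  have hw3 : w₀ ≤ J := by omega
  -- labels
  obtain ⟨l, hl⟩ : ∃ l : F.Ω → Fin (N + 1) → (ℕ × (Fin (k + 1) → ℤ)) × F.ζ,
    l = fun ω (i : Fin (N + 1)) => F.c (w₀ + (i : ℕ) * K) ω := ⟨_, rfl⟩
  have hlw : ∀ i : Fin (N + 1), w₀ + (i : ℕ) * K ≤ J := by
    intro i
    have : (i : ℕ) * K ≤ N * K := Nat.mul_le_mul_right K (by omega)
    omega
  have hres : ∀ B : F.Ω → Prop, 0 < Pe F.p B →
      CH (Pool.Agent.H49.Ent.cond F.p B True) l (Fam.pt F) ≤ δ := by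
    intro B hB
    have hlaw := isLaw_cond hp hB
    have h1 := CH_pi_le hlaw.nonneg (c := cc (k + 1)) (Fam.pt F) (N + 1)
      (fun (i : Fin (N + 1)) ω => F.c (w₀ + (i : ℕ) * K) ω) (fun i => Rows.CH_c_pt (F.res B True hlaw) (hlw i))
    push_cast at h1
    rw [hl, hδ]
    linarith
  have hκJ : 0 ≤ κ * J := by positivity
  obtain ⟨s1, s2⟩ := Stb.refine hp hstab hnot hA0 hδ0 (fun B _ hB => hres B hB)
    (by linarith)
  -- cleaning
  obtain ⟨κ', hκ'⟩ : ∃ κ', κ' = κ * J - (2 * δ + Real.log 2) := ⟨_, rfl⟩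
  rw [← hκ'] at s1
  have hκ'1 : κ * J / 2 ≤ κ' := by rw [hκ']; linarith
  have hκ'2 : 2 * Real.log 2 ≤ κ' := by linarith
  obtain ⟨c1, c2⟩ := Stb.clean hp hκ'2 hA0 s1 s2 rfl
  obtain ⟨Nb, hNb⟩ : ∃ Nb : F.Ω → Prop, Nb = Pop (Pool.Agent.H49.Ent.cond F.p A True) F.d
    (fun ω => (Fam.pt F ω, l ω)) (fun D (s : (Fin (k + 1) → ℝ) × (Fin k → Fin (k + 1) → ℝ)) =>
      ∃ c : Fin k → ℝ, ∀ j, |D j - s.1 j - ∑ i, c i * s.2 i j| ≤ 1 / 2 ^ h)
    (Real.exp (-(κ' / 2))) := ⟨_, rfl⟩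
  rw [← hNb] at c1 c2
  obtain ⟨A', hA'⟩ : ∃ A' : F.Ω → Prop, A' = fun ω => A ω ∧ ¬ Nb ω := ⟨_, rfl⟩
  have c2' := c2
  rw [← hA'] at c2'
  have hPA' : Real.exp (-((2 * τ) * J)) ≤ Pe F.p A' := by
    have d1 := Pe_diff c1
    rw [hA']
    refine le_trans ?_ d1
    have d2 : Real.exp (-(2 * τ * J)) ≤ Real.exp (-Real.log 2) * Real.exp (-(τ * J)) := by
      rw [← Real.exp_add]
      exact Real.exp_le_exp.2 (by linarith)
    exact d2.trans (mul_le_mul_of_nonneg_left hPA (Real.exp_pos _).le)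
  have hS2 : S.St (2 * τ) F A' := ⟨S.mono (by linarith) hT, hPA'⟩
  obtain ⟨hlaw, -, hTm', -⟩ := St_res (by linarith) hS2
  have hTm : (F.res A' True hlaw).Tm (τ' * J) := by
    have e7 : 6 * (2 * τ) ≤ τ' := by
      rw [hτ]
      rw [show 6 * (2 * (τ' / (7 * (1 + a)))) = 12 * τ' / (7 * (1 + a)) by ring,
        div_le_iff₀ (by positivity)]
      nlinarith
    unfold Fam.Tm at hTm' ⊢
    have := mul_le_mul_of_nonneg_right e7 hJ0.le
    linarith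
  have hτN : τ' ≤ g / (64 * (N * (k + 3) + 1)) := by
    rw [hτ']
    exact (min_le_left _ _).trans (min_le_left _ _)
  have h3 : a * CH (F.res A' True hlaw).p ((F.res A' True hlaw).X J)
      (fun ω => ((F.res A' True hlaw).X w₀ ω, (F.res A' True hlaw).W ω)) ≤
      (((k + 1 : ℕ) : ℝ) * Real.log 2 - R) * ((J : ℝ) - w₀) + 2 * η * J +
        a * (τ' * J + C₃) := by
    have k1 : τ * 2 ≤ τg := by
      have k2 : τ' ≤ θ / 2 := by
        rw [hτ']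
        exact (min_le_left _ _).trans (min_le_right _ _)
      have k3 : τ ≤ τ' := by
        rw [hτ, div_le_iff₀ (by positivity)]
        nlinarith
      rw [hθ] at k2
      linarith
    have k4 := hU J (by
      have : (J₂ : ℝ) ≤ J := by linarith
      exact_mod_cast this) F A' (hS2.mono (by linarith)) w₀ hw3
    have k5 : 0 ≤ a * (τ' * J + C₃) := by positivity
    have k6 : 0 ≤ η * J := by positivity
    change a * CH (Pool.Agent.H49.Ent.cond F.p A' True) (F.X J)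
      (fun ω => (F.X w₀ ω, F.W ω)) ≤ _
    linarith
  -- rows
  obtain ⟨ρ, hρ⟩ : ∃ ρ, ρ = Real.exp (-(κ' / 2)) := ⟨_, rfl⟩
  have hKr : (J : ℝ) / (2 * N) - 1 < K := by
    have : (J : ℝ) / (2 * N) < K + 1 := by
      rw [div_lt_iff₀ (by positivity)]
      linarith
    linarith
  have hhc : (h : ℝ) ≤ 1 / (8 * N * (k + 2)) * J := by
    refine hh.trans (mul_le_mul_of_nonneg_right ?_ hJ0.le)
    rw [hc2]
    exact min_le_right _ _
  have hhc1 : (h : ℝ) ≤ c₁ * J := by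
    refine hh.trans (mul_le_mul_of_nonneg_right ?_ hJ0.le)
    rw [hc2]
    exact min_le_left _ _
  obtain ⟨a', ha'⟩ : ∃ a', a' = K - ((h + 2 + 3) * (k + 1) + (h + 2)) := ⟨_, rfl⟩
  have hroom : (h + 2 + 3) * (k + 1) + (h + 2) ≤ K := by
    have : (((h + 2 + 3) * (k + 1) + (h + 2) : ℕ) : ℝ) ≤ K := by
      push_cast
      exact lin_room hk hN0 hhc j6 hKr
    exact_mod_cast this
  have haK : a' + (h + 2 + 3) * (k + 1) + (h + 2) ≤ K := by omega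
  have e4 : (4 : ℝ) / 2 ^ (h + 2) = 1 / 2 ^ h := by
    rw [pow_add]
    field_simp
    norm_num
  have hrow := hrows J (F.res A' True hlaw) K a' (h + 2) N w₀ (τ' * J) ρ (by omega) hTm
    (by omega) haK (by
    intro i hi ω hω v B
    have hdet : Det (Pool.Agent.H49.Ent.cond F.p A' True) (fun ω => (Fam.pt F ω, l ω))
        (fun ω => (F.c (w₀ + i * K) ω, (F.c (w₀ + (i + 1) * K) ω,
          (F.X (w₀ + (i + 1) * K) ω, F.T1 (w₀ + (i + 1) * K) ω)))) := by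
      intro ω ω' _ _ e
      have b := Prod.ext_iff.mp e
      have b1 : F.X J ω = F.X J ω' ∧ F.W ω = F.W ω' := Prod.ext_iff.mp b.1
      have b2 : F.T ω = F.T ω' ∧ F.Z ω = F.Z ω' := Prod.ext_iff.mp b1.2
      have b3 : l ω = l ω' := b.2
      have b4 : F.c (w₀ + i * K) ω = F.c (w₀ + i * K) ω' := by
        have := congrFun b3 ⟨i, by omega⟩
        rw [hl] at this
        exact this
      have b5 : F.c (w₀ + (i + 1) * K) ω = F.c (w₀ + (i + 1) * K) ω' := by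
        have := congrFun b3 ⟨i + 1, by omega⟩
        rw [hl] at this
        exact this
      have b6 : F.X (w₀ + (i + 1) * K) ω = F.X (w₀ + (i + 1) * K) ω' :=
        Pool.STK.B58.fl_fine (hlw ⟨i + 1, by omega⟩) b1.1
      have b7 : F.T1 (w₀ + (i + 1) * K) ω = F.T1 (w₀ + (i + 1) * K) ω' := by
        unfold Fam.T1
        rw [b2.1]
      exact Prod.ext b4 (Prod.ext b5 (Prod.ext b6 b7))
    have nc := (c2'.coarse hlaw hdet).cond_le hlaw hω (v, B)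
    rw [e4, hρ]
    exact nc)
  have hJw : ((J : ℝ) - w₀) = N * K := by
    have : ((w₀ + N * K : ℕ) : ℝ) = J := by rw [hw1]
    push_cast at this
    linarith
  rw [hJw] at h3
  rw [hw1] at hrow
  -- the upper bound
  have h4 : CH (F.res A' True hlaw).p ((F.res A' True hlaw).X J)
      (fun ω => ((F.res A' True hlaw).X w₀ ω, (F.res A' True hlaw).W ω)) ≤
      ((k + 1) * Real.log 2 - g) * (N * K) + 2 * η * J + τ' * J + C₃ := by
    obtain ⟨S, hS⟩ : ∃ S, S = CH (F.res A' True hlaw).p ((F.res A' True hlaw).X J)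
      (fun ω => ((F.res A' True hlaw).X w₀ ω, (F.res A' True hlaw).W ω)) := ⟨_, rfl⟩
    rw [← hS] at h3 ⊢
    have f1 : a * (((k + 1) * Real.log 2 - g) * (N * K) + 2 * η * J + τ' * J + C₃) -
        ((((k + 1 : ℕ) : ℝ) * Real.log 2 - R) * (N * K) + 2 * η * J + a * (τ' * J + C₃)) =
        (a - 1) * ((k + 1) * Real.log 2) * (N * K) + (a - 1) * (2 * η * J) := by
      rw [hg]
      push_cast
      field_simp
      ring
    have f2 : 0 ≤ (a - 1) * ((k + 1) * Real.log 2) * (N * K) + (a - 1) * (2 * η * J) := by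
      have : 0 ≤ a - 1 := by linarith
      positivity
    have f3 : a * S ≤ a * (((k + 1) * Real.log 2 - g) * (N * K) + 2 * η * J + τ' * J + C₃) := by
      linarith
    exact le_of_mul_le_mul_left f3 ha0
  refine lin_arith (k := k) (g := g) (N := N) (K := K) (a' := a') (J := J) (h' := (h : ℝ) + 2)
    (e := τ' * J) (ρ := ρ) (η := η) (L2 := Real.log 2) (C₁ := C₁) (C₃ := C₃) (c := c₁)
    hk hg0 hN0.le (by positivity) hl2.le ?_ ?_ ?_ hK3 hK4r hJ0.le hrow h4 hN2 ?_ ?_ ?_ ?_ ?_ ?_ hJ0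
  · exact lin_cast (by omega)
  · have : a' ≤ K := by omega
    exact_mod_cast this
  · rw [hρ]; positivity
  · linarith
  · rw [hc]
    refine le_of_eq ?_
    field_simp
  · -- `ρ` is small
    have f1 : Lρ ≤ κ' / 2 := by linarith
    have f2 : ρ ≤ Real.exp (-Lρ) := by
      rw [hρ]
      exact Real.exp_le_exp.2 (by linarith)
    have f3 : Real.exp (-Lρ) = 1 / ((k + 2) ^ 2 * Real.log 2 * 64 / g + 1) := by
      rw [hLρ, Real.exp_neg, Real.exp_log (by positivity), one_div]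
    rw [f3] at f2
    calc ((k : ℝ) + 2) ^ 2 * Real.log 2 * ρ ≤ (k + 2) ^ 2 * Real.log 2 *
          (1 / ((k + 2) ^ 2 * Real.log 2 * 64 / g + 1)) :=
          mul_le_mul_of_nonneg_left f2 (by positivity)
      _ ≤ g / 64 := by
          rw [mul_one_div, div_le_iff₀ (by positivity)]
          have : g / 64 * ((k + 2) ^ 2 * Real.log 2 * 64 / g + 1) =
            (k + 2) ^ 2 * Real.log 2 + g / 64 := by
            field_simp
          rw [this]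
          linarith
  · have f1 : N * ((k + 3) * (τ' * J)) + τ' * J = (τ' * (N * (k + 3) + 1)) * J := by ring
    rw [f1]
    refine mul_le_mul_of_nonneg_right ?_ hJ0.le
    rw [le_div_iff₀ (by positivity)] at hτN
    linarith
  · rw [hη]
    linarith
  · rw [← hCst]
    linarith

/-- LIN as a claim. -/
theorem lin_claim (k : ℕ) {S : FCl (k + 1)} {a R : ℝ} (ha : 1 ≤ a) (hR : 0 < R)
    (hU : GW S a R) :
    ∃ c₁ > 0, Claim S (fun J F A => ∀ h : ℕ, (h : ℝ) ≤ c₁ * J →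
      Hyp (1 / 2 ^ h) (Fam.pt F) F.d A) := by
  obtain ⟨c₁, hc, h⟩ := lin_thm k ha hR hU
  refine ⟨c₁, hc, Claim.one ⟨1, fun J F _ => Hyp (1 / 2 ^ ⌊c₁ * J⌋₊) (Fam.pt F) F.d,
    fun _ _ _ => Hyp.hered _ _ _⟩ fun κ hκ => ?_⟩
  obtain ⟨τ, hτ, J₁, h1⟩ := h κ hκ
  refine ⟨τ, hτ, J₁, fun J hJ F A hS hL i hi => ?_⟩
  have h2 := h1 J hJ F A hS ⌊c₁ * J⌋₊ (Nat.floor_le (by positivity)) (hL 0)
  obtain ⟨ζ, hζ⟩ := h2
  refine ⟨ζ, fun ω hω => ?_⟩
  obtain ⟨c, hcc⟩ := hζ ω hω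
  refine ⟨c, fun j => (hcc j).trans ?_⟩
  refine one_div_le_one_div_of_le (by positivity) ?_
  exact pow_le_pow_right₀ (by norm_num) (Nat.le_floor hi)

end Pool.K2S.G
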