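import Pool.Agent.H13.K2S.Cht
import Pool.Agent.H13.EG.Skel
import Pool.Agent.H13.EG.Lin

/-!
# The engine for a general class (H13.K2S.Cht)
-/

set_option autoImplicit false

namespace Pool.K2S.G

open Finset Real
open Pool.Agent.H49.Ent Pool.Agent.H32.Dense Pool.STK Pool.KA Pool.KSAT
open Pool.K2S Pool.PB Pool.LK

theorem cht_thm (S : FCl 2) : CHTStmt S := by
  classical
  intro a R ha hR hU
  obtain ⟨c, hc, hlin⟩ := lin_claim 1 ha hR hU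
  obtain ⟨c₁, hc₁⟩ : ∃ c₁, c₁ = min c 1 / 2 := ⟨_, rfl⟩
  have hm : 0 < min c 1 := lt_min hc one_pos
  have hc₁0 : 0 < c₁ := by rw [hc₁]; linarith
  have hc₁1 : c₁ ≤ 1 := by
    rw [hc₁]
    have := min_le_right c 1
    linarith
  have hc₁2 : c₁ ≤ c / 2 := by
    rw [hc₁]
    have := min_le_left c 1
    linarith
  refine ⟨c₁, hc₁0, hc₁1, Claim.mp ?_ hlin⟩
  refine Claim.one ⟨2, fun J F i => LineAt i (1 / 2 ^ ⌊c₁ * J⌋₊) (Fam.pt F) F.d,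
    fun _ _ _ => LineAt.hered _ _ _ _⟩ fun κ hκ => ?_
  obtain ⟨J₁, hJ₁⟩ := exists_nat_gt (Real.log 2 / κ + 2 / c)
  refine ⟨1, one_pos, J₁, fun J hJ F A _ hSb hH => ?_⟩
  have hJr : Real.log 2 / κ + 2 / c < J := hJ₁.trans_le (by exact_mod_cast hJ)
  have q1 : 0 < Real.log 2 / κ := div_pos (Real.log_pos (by norm_num)) hκ
  have q2 : 0 < 2 / c := by positivity
  have hJ0 : (0 : ℝ) < J := by linarith
  have k1 : Real.log 2 ≤ κ * J := by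
    have : Real.log 2 / κ < J := by linarith
    rw [div_lt_iff₀ hκ] at this
    linarith
  have k2 : ((⌊c₁ * J⌋₊ + 1 : ℕ) : ℝ) ≤ c * J := by
    push_cast
    have h1 : (⌊c₁ * J⌋₊ : ℝ) ≤ c₁ * J := Nat.floor_le (by positivity)
    have h2 : c₁ * J ≤ c / 2 * J := mul_le_mul_of_nonneg_right hc₁2 hJ0.le
    have h3 : 2 < J * c := by
      have : 2 / c < J := by linarith
      rwa [div_lt_iff₀ hc] at this
    linarith
  obtain ⟨ζ, hζ⟩ := hH (⌊c₁ * J⌋₊ + 1) k2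
  have hp := F.isLaw
  obtain ⟨ch, hch⟩ : ∃ ch : F.Ω → Prop, ch = fun ω =>
    |(ζ (Fam.pt F ω)).2 0 1| ≤ |(ζ (Fam.pt F ω)).2 0 0| := ⟨_, rfl⟩
  have hr : (2 : ℝ) * (1 / 2 ^ (⌊c₁ * J⌋₊ + 1)) = 1 / 2 ^ ⌊c₁ * J⌋₊ := by
    rw [pow_succ]
    field_simp
  -- the property in the two charts
  have key : ∀ (i j₁ : Fin 2), (∀ j, j = i ∨ j = j₁) → ∀ B : F.Ω → Prop, (∀ ω, B ω → A ω) →
      (∀ ω, B ω → |(ζ (Fam.pt F ω)).2 0 j₁| ≤ |(ζ (Fam.pt F ω)).2 0 i|) →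
      LineAt i (1 / 2 ^ ⌊c₁ * J⌋₊) (Fam.pt F) F.d B := by
    intro i j₁ hij B hBA hB
    have hex : ∀ y : (Fin 2 → ℤ) × (ℕ × F.ζ), ∃ e n : Fin 2 → ℝ,
        |(ζ y).2 0 j₁| ≤ |(ζ y).2 0 i| → (∀ j, |e j| ≤ 1) ∧
        ∀ D : Fin 2 → ℝ, (∃ c : ℝ, ∀ j, |D j - (ζ y).1 j - c * (ζ y).2 0 j| ≤
          1 / 2 ^ (⌊c₁ * J⌋₊ + 1)) → ∀ j, |D j - e j * D i - n j| ≤ 2 * (1 / 2 ^ (⌊c₁ * J⌋₊ + 1)) := by
      intro y
      by_cases h : |(ζ y).2 0 j₁| ≤ |(ζ y).2 0 i|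
      · obtain ⟨e, n, h1, h2⟩ := chart_line (v := (ζ y).1) (B := (ζ y).2 0) i j₁ hij h
          (r := 1 / 2 ^ (⌊c₁ * J⌋₊ + 1))
        exact ⟨e, n, fun _ => ⟨h1, h2⟩⟩
      · exact ⟨0, 0, fun h' => absurd h' h⟩
    choose e n hen using hex
    refine ⟨e, n, fun ω hω => (hen _ (hB ω hω)).1, fun ω hω => ?_⟩
    have h1 := (hen _ (hB ω hω)).2 (F.d ω) ?_
    · rwa [hr] at h1
    · obtain ⟨c', hc'⟩ := hζ ω (hBA ω hω)
      refine ⟨c' 0, fun j => ?_⟩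
      have := hc' j
      simpa using this
  have hcov := Pe_or hp (A := A) (B₀ := fun ω => A ω ∧ ch ω) (B₁ := fun ω => A ω ∧ ¬ ch ω)
    (fun ω hω => by
      by_cases h : ch ω
      · exact Or.inl ⟨hω, h⟩
      · exact Or.inr ⟨hω, h⟩)
  have hexp : Real.exp (-(κ * J)) ≤ 1 / 2 := by
    rw [show (1 / 2 : ℝ) = Real.exp (-Real.log 2) by
      rw [Real.exp_neg, Real.exp_log (by norm_num)]; norm_num]
    exact Real.exp_le_exp.2 (by linarith)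
  have hA0 := Pe_nonneg hp A
  have hexpA : Real.exp (-(κ * J)) * Pe F.p A ≤ Pe F.p A / 2 := by
    calc _ ≤ 1 / 2 * Pe F.p A := mul_le_mul_of_nonneg_right hexp hA0
      _ = _ := by ring
  by_cases hbig : Pe F.p A / 2 ≤ Pe F.p (fun ω => A ω ∧ ch ω)
  · refine ⟨0, ?_⟩
    refine (hSb 0).of_sub (B := fun ω => A ω ∧ ch ω) (fun ω hω => hω.1) (hexpA.trans hbig) ?_
    refine key 0 1 (by decide) _ (fun ω hω => hω.1) fun ω hω => ?_
    have := hω.2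
    rw [hch] at this
    exact this
  · refine ⟨1, ?_⟩
    push Not at hbig
    refine (hSb 1).of_sub (B := fun ω => A ω ∧ ¬ ch ω) (fun ω hω => hω.1)
      (hexpA.trans (by linarith)) ?_
    refine key 1 0 (by decide) _ (fun ω hω => hω.1) fun ω hω => ?_
    have := hω.2
    rw [hch] at this
    simp only [not_le] at this
    exact this.le

end Pool.K2S.G
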