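import Pool.Agent.H12.K2M.Ev
import Pool.Agent.H13.EG.Claim

/-!
# The engine for a general class (H12.K2M.Ev)
-/

set_option autoImplicit false

namespace Pool.K2S.G

open Finset Real
open Pool.Agent.H49.Ent Pool.Agent.H32.Dense Pool.STK Pool.KA
open Pool.K2S Pool.PB Pool.LK

variable {m : ℕ} {S : FCl m}

/-- Sub-events of constant relative probability are large. -/
theorem St_sub_const {J : ℕ} {F : Fam m J} {τ ρ : ℝ} {A A' : F.Ω → Prop}
    (hS : S.St (τ / 2) F A) (hτ : 0 < τ)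
    (hJ : Real.exp (-(τ / 2 * (J : ℝ))) ≤ ρ) (hP : ρ * Pe F.p A ≤ Pe F.p A') :
    S.St τ F A' := by
  have h0 := hS.mono (τ' := τ) (by linarith)
  refine ⟨h0.1, ?_⟩
  refine le_trans ?_ hP
  have h1 := hS.2
  have h2 : Real.exp (-(τ * (J : ℝ))) =
      Real.exp (-(τ / 2 * (J : ℝ))) * Real.exp (-(τ / 2 * (J : ℝ))) := by
    rw [← Real.exp_add]
    congr 1
    ring
  rw [h2]
  exact mul_le_mul hJ h1 (Real.exp_pos _).le ((Real.exp_pos _).le.trans hJ)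

theorem Cl.ev {ρ : ℝ} (hρ : 0 < ρ) : ∀ {r : ℕ} {Φ : Stat m}, Cl S r Φ →
    Cl S r (fun _ F A => ∀ A' : F.Ω → Prop, Sub A' A → ρ * Pe F.p A ≤ Pe F.p A' → Φ _ F A')
  | 0, _, ⟨τ, hτ, J₁, hc⟩ => by
    obtain ⟨J₀, hJ₀⟩ := exp_le_const hρ (half_pos hτ)
    refine ⟨τ / 2, half_pos hτ, max J₁ J₀, fun J hJ F A hA A' _ hP => ?_⟩
    exact hc J ((le_max_left _ _).trans hJ) F A'
      (St_sub_const hA hτ (hJ₀ J ((le_max_right _ _).trans hJ)) hP)
  | r + 1, Φ, ⟨L, hc⟩ => by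
    refine ⟨L, fun κ hκ => ?_⟩
    obtain ⟨J₀, hJ₀⟩ := exp_le_const hρ (half_pos hκ)
    refine Cl.mono (J₂ := J₀) ?_ (Cl.ev hρ (hc (κ / 2) (half_pos hκ)))
    intro J hJ F A h1 h2 A' hA' hP
    refine h1 A' hA' hP fun i => ?_
    have h3 := (h2 i).sub (a := κ / 2 * J) (L.her J F i) hA'
      (le_trans (mul_le_mul_of_nonneg_right (hJ₀ J hJ) (Pe_nonneg F.isLaw A)) hP)
    refine h3.mono F.isLaw ?_
    linarith

/-- **Claims hold for all sub-events of constant relative probability.** -/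
theorem Claim.ev {ρ : ℝ} (hρ : 0 < ρ) {Φ : Stat m} (h : Claim S Φ) :
    Claim S (fun _ F A => ∀ A' : F.Ω → Prop, Sub A' A → ρ * Pe F.p A ≤ Pe F.p A' →
      Φ _ F A') := h.imp fun _ hr => Cl.ev hρ hr

/-- The claim for the event itself and for all sub-events of constant relative probability. -/
theorem Claim.ev_and {ρ : ℝ} (hρ : 0 < ρ) {Φ : Stat m} (h : Claim S Φ) :
    Claim S (fun _ F A => Φ _ F A ∧ ∀ A' : F.Ω → Prop, Sub A' A → ρ * Pe F.p A ≤ Pe F.p A' →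
      Φ _ F A') := h.and (Claim.ev hρ h)

end Pool.K2S.G
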