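import Pool.Agent.H35.K2S.FFRow
import Pool.Agent.H13.EG.Lev

/-!
# The engine for a general class (H35.K2S.FFRow): the rows above `x`
-/

set_option autoImplicit false

namespace Pool.K2S.G

open Finset Real
open Pool.Agent.H49.Ent Pool.Agent.H32.Dense Pool.STK Pool.KA Pool.KA.TRC
open Pool.K2S Pool.PB Pool.LK

/-- **The rows above `x`.** -/
theorem rows_up {m : ℕ} {S : FCl m} {a R : ℝ} (hU : GW S a R) {ε : ℝ} (hε : 0 < ε) :
    ∃ τ > 0, ∃ J₁ : ℕ, ∀ J ≥ J₁, ∀ (F : Fam m J) (A : F.Ω → Prop), S.St τ F A →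
      ∀ x ≤ J, a * CH (Pool.Agent.H49.Ent.cond F.p A True) (F.X J)
        (fun ω => (F.X x ω, F.W ω)) ≤ (m * Real.log 2 - R) * ((J : ℝ) - x) + ε * J :=
  hU.tail ε hε

end Pool.K2S.G
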