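import Pool.Agent.H45.K2.PLF
import Pool.Agent.H13.EG.Skel
import Pool.Agent.H64.KS6.WfeA

/-!
# The engine for a general class (H45.K2.PLF)
-/

set_option autoImplicit false

namespace Pool.K2S.G

open Finset Real
open Pool.Agent.H49.Ent Pool.Agent.H32.Dense Pool.STK Pool.KA Pool.KA.Win Pool.KA.TRC Rows FF
open Pool.K2S Pool.PB Pool.LK

/-- **Plateaus**, with constants. -/
theorem plc_full (S : FCl 2) {c b : ℝ} (hc : 0 < c) (hc1 : c ≤ 1)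
    (hb : 0 ≤ b) (q : ℕ) : ∃ (dl : ℝ) (M : ℕ), 0 < dl ∧ 1 ≤ M ∧ ∀ x : ℝ, 0 < x → x ≤ 1 →
    ∃ c₉ : ℝ, 0 < c₉ ∧ ∀ κ > 0, ∃ τ > 0,
    ∃ J₁ : ℕ, ∀ J ≥ J₁, ∀ (F : Fam 2 J) (A : F.Ω → Prop), S.St τ F A →
    ∀ (i₀ : Fin 2) (w lam X q₁ f hx hh : ℕ)
    (e₀ n₀ e₁ n₁ e' n' : (Fin 2 → ℤ) × (ℕ × F.ζ) → Fin 2 → ℝ)
    (ζ : ((Fin 2 → ℝ) × (Fin 2 → ℝ)) × (ℕ × F.ζ) → Fin 2 → ℝ),
    w + lam + X ≤ J → x * J ≤ X → (q₁ : ℝ) ≤ c₉ * J → (hh : ℝ) ≤ dl * X + c₉ * J →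
    Stb F.p (κ * J) A (Ball (1 / 2 ^ q₁) (Fam.pt F) F.d) →
    ¬ Ball (1 / 2 ^ q₁) (Fam.pt F) F.d A →
    IsFrame i₀ (1 / 2 ^ f) (Fam.pt F) F.d A e₀ n₀ → q₁ + 2 ≤ f →
    OnL i₀ (1 / 2 ^ (lam + hh)) (Fam.pt F) F.d A e₁ n₁ → hx + q₁ + 4 ≤ hh →
    Stb F.p (κ * J) A
      (RotU i₀ (1 / 2 ^ (lam + hh)) (1 / 2 ^ (lam + hx)) (Fam.pt F) (wnd F (w + X)) F.d) →
    ¬ RotU i₀ (1 / 2 ^ (lam + hh)) (1 / 2 ^ (lam + hx)) (Fam.pt F) (wnd F (w + X)) F.d A →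
    Stb F.p (κ * J) A (PlC F i₀ w lam X M q b ((2 : ℝ) ^ (lam + hh))⁻¹) →
    OnL i₀ ((2 : ℝ) ^ lam)⁻¹ (Fam.pt F) F.d A e' n' →
    (∀ v j, ∃ k : ℤ, ζ v j = k / 2 ^ lam) → (∀ v j, |ζ v j| ≤ b) →
    (∀ ω, A ω → ∀ j, |e' (Fam.pt F ω) j - ζ (wnd F w ω) j| ≤ q * ((2 : ℝ) ^ lam)⁻¹) →
    (2 - c) * (X * Real.log 2) ≤
      CH (cond F.p A True) (F.X (w + lam + X)) (fun ω => (F.X (w + lam) ω, F.W ω)) := by
  classical
  have hl2 : 0 < Real.log 2 := Real.log_pos one_lt_two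
  have hl21 : Real.log 2 ≤ 1 := by
    have := Real.log_two_lt_d9
    linarith
  obtain ⟨C₀, hC₀, hplc⟩ := plc_thm hb q
  obtain ⟨M, hM⟩ := exists_nat_gt (72 / (c * Real.log 2))
  have hM0 : 0 < 72 / (c * Real.log 2) := by positivity
  have hMr : (0 : ℝ) < M := by linarith
  have hM1 : 1 ≤ M := by exact_mod_cast hMr
  have hM72 : 72 < M * (c * Real.log 2) := by
    rw [div_lt_iff₀ (by positivity)] at hM
    exact hM
  obtain ⟨dl, hdl⟩ : ∃ dl : ℝ, dl = c * Real.log 2 / (16 * ((C₀ + 1) * M)) := ⟨_, rfl⟩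
  have hdl0 : 0 < dl := by rw [hdl]; positivity
  have hdl1 : 16 * ((C₀ + 1) * M) * dl = c * Real.log 2 := by
    rw [hdl]
    field_simp
  refine ⟨dl, M, hdl0, hM1, fun x hx hx1 => ?_⟩
  obtain ⟨G, hG⟩ : ∃ G : ℝ, G = M + 2 * M / x + 1 := ⟨_, rfl⟩
  have hG0 : 0 < G := by rw [hG]; positivity
  obtain ⟨c₉, hc₉⟩ : ∃ c₉ : ℝ, c₉ = c * x * Real.log 2 / (64 * ((C₀ + 1) * G)) := ⟨_, rfl⟩
  have hc₉0 : 0 < c₉ := by rw [hc₉]; positivity
  have hc₉1 : 64 * ((C₀ + 1) * G) * c₉ = c * x * Real.log 2 := by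
    rw [hc₉]
    field_simp
  refine ⟨c₉, hc₉0, fun κ hκ => ?_⟩
  obtain ⟨τ, hτ⟩ : ∃ τ : ℝ, τ = c₉ / 7 := ⟨_, rfl⟩
  have hτ0 : 0 < τ := by rw [hτ]; positivity
  have hτ1 : 5 * τ + 2 * τ = c₉ := by
    rw [hτ]
    ring
  obtain ⟨N₂', hN₂'⟩ : ∃ n : ℕ, n = ⌈2 * M / x⌉₊ := ⟨_, rfl⟩
  obtain ⟨D, hD⟩ : ∃ D : ℝ, D = 4 * plcδ q b M N₂' + 6 * Real.log 2 := ⟨_, rfl⟩
  -- the exponential is small
  obtain ⟨t₀, ht₀⟩ : ∃ t₀ : ℝ, t₀ = c * x * Real.log 2 / 104 := ⟨_, rfl⟩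
  have ht₀0 : 0 < t₀ := by rw [ht₀]; positivity
  obtain ⟨J₂, hJ₂⟩ := exists_nat_gt (|D| / κ + 2 * M / x + 6 / c₉ + 2 * Real.log 2 / τ +
    4 * (-Real.log t₀) / κ + |4 * (-Real.log t₀) / κ| + 1)
  refine ⟨τ, hτ0, J₂, ?_⟩
  intro J hJ F A hS i₀ w lam X q₁ f hx' hh e₀ n₀ e₁ n₁ e' n' ζ hwJ hxX hq₁ hhq hBs hBn h₀ hf h₁
    hhh hRs hRn hPs hon hgrid hζb hclose
  have hp := F.isLaw
  have hJr : |D| / κ + 2 * M / x + 6 / c₉ + 2 * Real.log 2 / τ +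
    4 * (-Real.log t₀) / κ + |4 * (-Real.log t₀) / κ| + 1 < J :=
    hJ₂.trans_le (by exact_mod_cast hJ)
  have q1 : 0 ≤ |D| / κ := by positivity
  have q2 : 0 ≤ 2 * M / x := by positivity
  have q3 : 0 ≤ 6 / c₉ := by positivity
  have q4 : 0 ≤ 2 * Real.log 2 / τ := by positivity
  have q5 : 0 ≤ 4 * (-Real.log t₀) / κ + |4 * (-Real.log t₀) / κ| := by
    have := neg_abs_le (4 * (-Real.log t₀) / κ)
    linarith
  have hJ0 : (0 : ℝ) < J := by linarith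
  have r1 : D ≤ κ * J := by
    have h1 : |D| / κ < J := by linarith
    rw [div_lt_iff₀ hκ] at h1
    have := le_abs_self D
    linarith
  have r2 : 2 * M ≤ x * J := by
    have h1 : 2 * M / x < J := by linarith
    rw [div_lt_iff₀ hx] at h1
    linarith
  have r3 : 6 ≤ c₉ * J := by
    have h1 : 6 / c₉ < J := by linarith
    rw [div_lt_iff₀ hc₉0] at h1
    linarith
  have r4 : 2 * Real.log 2 ≤ τ * J := by
    have h1 : 2 * Real.log 2 / τ < J := by linarith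
    rw [div_lt_iff₀ hτ0] at h1
    linarith
  have r5 : Real.exp (-(κ * J / 4)) ≤ t₀ := by
    have h1 : 4 * (-Real.log t₀) / κ < J := by
      have := abs_nonneg (4 * (-Real.log t₀) / κ)
      linarith
    rw [div_lt_iff₀ hκ] at h1
    rw [← Real.exp_log ht₀0]
    refine Real.exp_le_exp.2 ?_
    linarith
  have hA0 : 0 < Pe F.p A := lt_of_lt_of_le (Real.exp_pos _) hS.2
  -- the scales
  obtain ⟨K, hK⟩ : ∃ K, K = X / M := ⟨_, rfl⟩
  obtain ⟨N₂, hN₂⟩ : ∃ N₂, N₂ = lam / K := ⟨_, rfl⟩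
  have hKM : (X : ℝ) < M * (K + 1) := by
    rw [hK]
    exact_mod_cast Nat.lt_mul_div_succ X hM1
  have hKM2 : (M : ℝ) * K ≤ X := by
    rw [hK]
    exact_mod_cast Nat.mul_div_le X M
  have hK2 : x * J ≤ 2 * (M * K) := by linarith
  have hKpos : (0 : ℝ) < K := by
    by_contra h
    push Not at h
    have h1 : (M : ℝ) * K ≤ 0 := mul_nonpos_of_nonneg_of_nonpos hMr.le h
    have h2 : 0 < x * J := mul_pos hx hJ0
    linarith only [h1, h2, hK2]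
  have hN₂b : (N₂ : ℝ) ≤ 2 * M / x := by
    have h1 : (N₂ : ℝ) * K ≤ lam := by
      rw [hN₂]
      exact_mod_cast Nat.div_mul_le_self lam K
    have h2 : (lam : ℝ) ≤ J := by
      have : lam ≤ J := by omega
      exact_mod_cast this
    rw [le_div_iff₀ hx]
    by_contra h
    push Not at h
    have h3 : 2 * M * K < N₂ * x * K := by
      exact mul_lt_mul_of_pos_right h hKpos
    have h4 : N₂ * K * x ≤ J * x := mul_le_mul_of_nonneg_right (h1.trans h2) hx.le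
    linarith
  have hN₂c : N₂ ≤ N₂' := by
    rw [hN₂']
    have : (N₂ : ℝ) ≤ ⌈2 * M / x⌉₊ := hN₂b.trans (Nat.le_ceil _)
    exact_mod_cast this
  -- radii
  have p1 : (0 : ℝ) < 1 / 2 ^ q₁ := by positivity
  have p2 : (1 : ℝ) / 2 ^ f ≤ 1 / 2 ^ q₁ / 4 := by
    have e1 : (1 : ℝ) / 2 ^ f ≤ 1 / 2 ^ (q₁ + 2) :=
      one_div_le_one_div_of_le (by positivity) (pow_le_pow_right₀ (by norm_num) hf)
    refine e1.trans (le_of_eq ?_)
    rw [pow_add]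
    field_simp
    norm_num
  have p3 : ((2 : ℝ) ^ (q₁ + 1))⁻¹ = 1 / 2 ^ q₁ / 2 := by
    rw [pow_succ]
    field_simp
  obtain ⟨e, he⟩ : ∃ e : ℝ, e = (5 * τ + 2 * τ) * J := ⟨_, rfl⟩
  have he0 : 0 ≤ e := by rw [he, hτ1]; positivity
  have heJ : e = c₉ * J := by rw [he, hτ1]
  obtain ⟨B, hBA, hB4, hBexp, hl, hmain⟩ := hplc J F A i₀ w lam X M hh (q₁ + 1) (κ * J) e
    (1 / 2 ^ q₁) (1 / 2 ^ f) (1 / 2 ^ (lam + hh)) (1 / 2 ^ (lam + hx')) e₀ n₀ e₁ n₁ e' n' ζ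
    hwJ hM1 he0 hA0 (by
      intro B hB hPB hl
      have hPB' : Real.exp (-((2 * τ) * J)) ≤ Pe F.p B := by
        refine le_trans ?_ hPB
        have h1 : Real.exp (-((2 * τ) * J)) ≤ Real.exp (-(τ * J)) / 4 := by
          rw [le_div_iff₀ (by norm_num)]
          have h2 : (4 : ℝ) = Real.exp (2 * Real.log 2) := by
            rw [mul_comm, Real.exp_mul, Real.exp_log (by norm_num)]
            norm_num
          rw [h2, ← Real.exp_add]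
          exact Real.exp_le_exp.2 (by linarith)
        have h3 := hS.2
        linarith
      rw [he]
      exact Pool.S6K.Wfe.res_Tm hτ0.le (by linarith) (S.tr hS.1) (S.tm hS.1) (S.rb hS.1) hPB' hl)
    hBs hBn h₀ h₁ (by rw [p3]; linarith) (by linarith) (by
      rw [div_le_iff₀ (by linarith)]
      have e1 : ((2 : ℝ) ^ (lam + hh))⁻¹ = 1 / 2 ^ (lam + hh) := by rw [one_div]
      rw [e1]
      have e2 : (1 : ℝ) / 2 ^ (lam + hh) ≤ 1 / 2 ^ (lam + (hx' + q₁ + 4)) :=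
        one_div_le_one_div_of_le (by positivity) (pow_le_pow_right₀ (by norm_num) (by omega))
      have e3 : (1 : ℝ) / 2 ^ (lam + (hx' + q₁ + 4)) =
          1 / 2 ^ (lam + hx') * (1 / 2 ^ q₁) / 16 := by
        rw [show lam + (hx' + q₁ + 4) = (lam + hx') + q₁ + 4 by ring, pow_add, pow_add]
        field_simp
        norm_num
      have e4 : (0 : ℝ) < 1 / 2 ^ (lam + hx') := by positivity
      have e5 : 0 < 1 / (2 : ℝ) ^ (lam + hx') * (1 / 2 ^ q₁) := by positivity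
      have e6 : 1 / (2 : ℝ) ^ (lam + hx') * (1 / 2 ^ q₁ / 2) ≤
          1 / 2 ^ (lam + hx') * (1 / 2 ^ q₁ - 2 * (1 / 2 ^ f)) :=
        mul_le_mul_of_nonneg_left (by linarith) e4.le
      have e7 : 1 / (2 : ℝ) ^ (lam + hx') * (1 / 2 ^ q₁ / 2) =
        1 / (2 : ℝ) ^ (lam + hx') * (1 / 2 ^ q₁) / 2 := by ring
      linarith)
    hRs hRn hPs hon hgrid hζb hclose (by
      rw [← hK, ← hN₂]
      have := plcδ_mono (q := q) (b := b) (N := M) hN₂c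
      linarith)
  rw [← hK, ← hN₂] at hmain
  -- the errors
  have hX0 : (0 : ℝ) ≤ X := Nat.cast_nonneg X
  have t1 : C₀ * (M * (((hh + (q₁ + 1) + 4 : ℕ) : ℝ) + e + 1) +
      ((N₂ : ℝ) + 1) * (((q₁ + 1 : ℕ) : ℝ) + 2 + e + 1)) ≤ c / 8 * (X * Real.log 2) := by
    have hdX : 0 ≤ dl * X := mul_nonneg hdl0.le hX0
    have h1 : (((hh + (q₁ + 1) + 4 : ℕ) : ℝ) + e + 1) ≤ dl * X + 4 * (c₉ * J) := by
      push_cast
      rw [heJ]
      linarith only [hhq, hq₁, r3]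
    have h1' : ((((q₁ + 1 : ℕ) : ℝ)) + 2 + e + 1) ≤ 4 * (c₉ * J) := by
      push_cast
      rw [heJ]
      have := mul_nonneg hc₉0.le hJ0.le
      linarith only [hq₁, r3, this]
    have h2 : (M : ℝ) + N₂ + 1 ≤ G := by
      rw [hG]
      linarith
    have hN₂0 : (0 : ℝ) ≤ N₂ := Nat.cast_nonneg N₂
    have hcJ : 0 ≤ 4 * (c₉ * J) := by positivity
    have h3 : M * (((hh + (q₁ + 1) + 4 : ℕ) : ℝ) + e + 1) +
        ((N₂ : ℝ) + 1) * (((q₁ + 1 : ℕ) : ℝ) + 2 + e + 1) ≤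
        M * (dl * X) + G * (4 * (c₉ * J)) := by
      have a1 := mul_le_mul_of_nonneg_left h1 hMr.le
      have a2 := mul_le_mul_of_nonneg_left h1' (by linarith only [hN₂0] : 0 ≤ (N₂ : ℝ) + 1)
      have a3 := mul_le_mul_of_nonneg_right h2 hcJ
      linarith only [a1, a2, a3]
    have h30 : 0 ≤ M * (dl * X) + G * (4 * (c₉ * J)) := by positivity
    have h4 : C₀ * (M * (((hh + (q₁ + 1) + 4 : ℕ) : ℝ) + e + 1) +
        ((N₂ : ℝ) + 1) * (((q₁ + 1 : ℕ) : ℝ) + 2 + e + 1)) ≤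
        (C₀ + 1) * (M * (dl * X) + G * (4 * (c₉ * J))) := by
      have a1 := mul_le_mul_of_nonneg_left h3 hC₀
      linarith only [a1, h30]
    refine h4.trans ?_
    have h5 : (C₀ + 1) * (M * (dl * X) + G * (4 * (c₉ * J))) =
        (16 * ((C₀ + 1) * M) * dl) * X / 16 + (64 * ((C₀ + 1) * G) * c₉) * J / 16 := by ring
    rw [h5, hdl1, hc₉1]
    have h6 : c * Real.log 2 * (x * J) ≤ c * Real.log 2 * X :=
      mul_le_mul_of_nonneg_left hxX (by positivity)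
    linarith only [h6]
  have t2 : 9 * (K : ℝ) ≤ c / 8 * (X * Real.log 2) := by
    have h1 : 72 * (K : ℝ) ≤ M * (c * Real.log 2) * K :=
      mul_le_mul_of_nonneg_right hM72.le hKpos.le
    have h2 : c * Real.log 2 * (M * K) ≤ c * Real.log 2 * X :=
      mul_le_mul_of_nonneg_left hKM2 (by positivity)
    linarith
  have t3 : 13 * (J * Real.exp (-(κ * J / 4))) ≤ c / 8 * (X * Real.log 2) := by
    have h1 : (J : ℝ) * Real.exp (-(κ * J / 4)) ≤ J * t₀ :=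
      mul_le_mul_of_nonneg_left r5 hJ0.le
    have h2 : c * Real.log 2 * (x * J) ≤ c * Real.log 2 * X :=
      mul_le_mul_of_nonneg_left hxX (by positivity)
    rw [ht₀] at h1
    linarith
  have hXl : 0 ≤ X * Real.log 2 := by positivity
  have hB : (2 - c / 2) * (X * Real.log 2) ≤ CH (cond F.p B True) (F.X (w + lam + X))
      (fun ω => (F.X (w + lam) ω, F.W ω)) := by
    have h1 : (2 - c / 2) * (X * Real.log 2) ≤ 2 * (X * Real.log 2) - (C₀ * (M *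
        ((hh + (q₁ + 1) + 4 : ℕ) + e + 1) + ((N₂ : ℕ) + 1) *
        (((q₁ + 1 : ℕ) : ℝ) + 2 + e + 1)) + 9 * (K : ℕ) +
        13 * (J * Real.exp (-(κ * J / 4)))) := by
      have h2 : 0 ≤ c * (X * Real.log 2) := by positivity
      linarith only [h2, t1, t2, t3]
    exact h1.trans hmain
  have hev := CH_event hp hBA hA0 (F.X (w + lam + X)) (fun ω => (F.X (w + lam) ω, F.W ω))
  have hcX : c * x * Real.log 2 ≤ c := by
    have h1 : x * Real.log 2 ≤ 1 := mul_le_one₀ hx1 hl2.le hl21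
    have h2 : c * (x * Real.log 2) ≤ c * 1 := mul_le_mul_of_nonneg_left h1 hc.le
    linarith only [h2]
  have hfrac : 1 - c / 8 ≤ Pe F.p B / Pe F.p A := by
    rw [le_div_iff₀ hA0]
    refine le_trans ?_ hBexp
    refine mul_le_mul_of_nonneg_right ?_ hA0.le
    have : t₀ ≤ c / 104 := by
      rw [ht₀]
      linarith
    linarith
  refine le_trans ?_ hev
  have hnn : 0 ≤ (2 - c / 2) * (X * Real.log 2) := mul_nonneg (by linarith) hXl
  have hcc : (2 - c) ≤ (1 - c / 8) * (2 - c / 2) := by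
    have h1 : 0 ≤ c * c := mul_self_nonneg c
    have h2 : (1 - c / 8) * (2 - c / 2) = 2 - c / 2 - c / 4 + c * c / 16 := by ring
    linarith only [h1, h2, hc]
  calc (2 - c) * (X * Real.log 2) ≤ (1 - c / 8) * ((2 - c / 2) * (X * Real.log 2)) := by
        rw [← mul_assoc (1 - c / 8)]
        exact mul_le_mul_of_nonneg_right hcc hXl
    _ ≤ Pe F.p B / Pe F.p A * ((2 - c / 2) * (X * Real.log 2)) :=
        mul_le_mul_of_nonneg_right hfrac hnn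
    _ ≤ _ := mul_le_mul_of_nonneg_left hB (div_nonneg (Pe_nonneg hp B) hA0.le)

end Pool.K2S.G
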