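import Pool.Agent.H45.K2.PLS
import Pool.Agent.H13.EG.Lev

/-!
# The engine for a general class (H45.K2.PLS)
-/

set_option autoImplicit false

namespace Pool.K2S.G

open Finset Real
open Pool.Agent.H49.Ent Pool.Agent.H32.Dense Pool.STK Pool.KA Pool.KSAT
open Pool.K2S Pool.PB Pool.LK

variable {S : FCl 2}

/-- The fans are spread. -/
theorem Fam.Stt.not_ball' {a R : ℝ} (ha : 1 ≤ a) (hR : 0 < R) (hU : GW S a R)
    {x : ℝ} (hx : 0 < x) (hx1 : x ≤ 1 / 4) :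
    ∃ τ > 0, ∃ J₁ : ℕ, ∀ J ≥ J₁, ∀ (F : Fam 2 J) (A : F.Ω → Prop), S.St τ F A →
      ¬ Ball (1 / 2 ^ (⌊x * J⌋₊ + 1)) (Fam.pt F) F.d A := by
  obtain ⟨τ, hτ, J₁, hball⟩ := not_ball ha hR hU hx
  refine ⟨τ, hτ, max J₁ 4, fun J hJ F A hS => ?_⟩
  have hJ4 : (4 : ℝ) ≤ J := by exact_mod_cast (le_max_right _ _).trans hJ
  have hJ0 : (0 : ℝ) ≤ J := by linarith
  refine hball J ((le_max_left _ _).trans hJ) F A hS (⌊x * J⌋₊ + 1) ?_ ?_
  · have h1 : (⌊x * J⌋₊ : ℝ) ≤ x * J := Nat.floor_le (by positivity)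
    have : ((⌊x * J⌋₊ + 1 : ℕ) : ℝ) ≤ J := by
      push_cast
      have : x * J ≤ 1 / 4 * J := mul_le_mul_of_nonneg_right hx1 hJ0
      linarith
    exact_mod_cast this
  · push_cast
    exact (Nat.lt_floor_add_one _).le

end Pool.K2S.G
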