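import Pool.Agent.H45.K2.PLClaim
import Pool.Agent.H13.EG.PLS
import Pool.Agent.H13.EG.PLF
import Pool.Agent.H13.EG.Skel

/-!
# The engine for a general class (H45.K2.PLClaim)
-/

set_option autoImplicit false

namespace Pool.K2S.G

open Finset Real
open Pool.Agent.H49.Ent Pool.Agent.H32.Dense Pool.STK Pool.KA Pool.KSAT
open Pool.K2S Pool.PB Pool.LK

/-- **(PLC)**, scale free: over rows which are not full the precision of the frame grows at a
rate which depends only on the deficit of the rows. -/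
def PLCXStmt (S : FCl 2) : Prop :=
  ∀ a R : ℝ, 1 < a → 0 < R → GW S a R → ∀ c : ℝ, 0 < c → ∃ dl : ℝ, 0 < dl ∧
    ∀ x μ h₁ : ℝ, 0 < x → 0 < μ → 0 < h₁ →
    ∃ N₁ : ℕ, ∀ N ≥ N₁, ∀ (i₀ : Fin 2) (v l s : ℕ), v + l + s ≤ N → x * N ≤ s →
    Claim S (fun J F A =>
      CH (Pool.Agent.H49.Ent.cond F.p A True) (F.X ((v + l + s) * (J / N)))
        (fun ω => (F.X ((v + l) * (J / N)) ω, F.W ω)) ≤
        (2 - c) * (((s * (J / N) : ℕ) : ℝ) * Real.log 2) →
      Lb F i₀ ⌊h₁ * J⌋₊ A →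
      (∀ h : ℕ, (h : ℝ) ≤ (l * (J / N) : ℕ) + μ * J → Ln F i₀ h A) →
      Cn F i₀ (l * (J / N)) (v * (J / N)) A →
      ∀ h : ℕ, (h : ℝ) ≤ dl * ((s * (J / N) : ℕ) : ℝ) → (h : ℝ) ≤ μ / 8 * J →
        Cn F i₀ (l * (J / N) + h) ((v + s) * (J / N)) A)

/-- **(PLC)** No plateau over rows which are not full. -/
def PLCStmt (S : FCl 2) : Prop :=
  ∀ a R : ℝ, 1 < a → 0 < R → GW S a R → ∀ c x μ h₁ : ℝ, 0 < c → 0 < x → 0 < μ → 0 < h₁ →
    ∃ h₀ : ℝ, 0 < h₀ ∧ ∃ N₁ : ℕ, ∀ N ≥ N₁, ∀ (i₀ : Fin 2) (v l s : ℕ), v + l + s ≤ N →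
    x * N ≤ s →
    Claim S (fun J F A =>
      CH (Pool.Agent.H49.Ent.cond F.p A True) (F.X ((v + l + s) * (J / N)))
        (fun ω => (F.X ((v + l) * (J / N)) ω, F.W ω)) ≤
        (2 - c) * (((s * (J / N) : ℕ) : ℝ) * Real.log 2) →
      Lb F i₀ ⌊h₁ * J⌋₊ A →
      (∀ h : ℕ, (h : ℝ) ≤ (l * (J / N) : ℕ) + μ * J → Ln F i₀ h A) →
      Cn F i₀ (l * (J / N)) (v * (J / N)) A →
      ∀ h : ℕ, (h : ℝ) ≤ h₀ * J → Cn F i₀ (l * (J / N) + h) ((v + s) * (J / N)) A)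

theorem plcx_thm (S : FCl 2) : PLCXStmt S := by
  classical
  intro a R ha hR hU c hc
  have hl2 : 0 < Real.log 2 := Real.log_pos (by norm_num)
  obtain ⟨c', hc'⟩ : ∃ c', c' = min c 1 / 2 := ⟨_, rfl⟩
  have hc'0 : 0 < c' := by rw [hc']; have := lt_min hc one_pos; linarith
  have hc'1 : c' ≤ 1 / 2 := by rw [hc']; have := min_le_right c 1; linarith
  have hc'c : c' ≤ c / 2 := by rw [hc']; have := min_le_left c 1; linarith
  obtain ⟨dl, M, hdl, hM, hfull⟩ := plc_full S (b := 4) hc'0 (by linarith)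
    (by norm_num) 2
  refine ⟨dl, hdl, fun x μ h₁ hx hμ hh₁ => ?_⟩
  obtain ⟨x', hx'⟩ : ∃ x', x' = min x 1 / 2 := ⟨_, rfl⟩
  have hx'0 : 0 < x' := by rw [hx']; have := lt_min hx one_pos; linarith
  have hx'1 : x' ≤ 1 := by rw [hx']; have := min_le_right x 1; linarith
  have hx'x : x' ≤ x / 2 := by rw [hx']; have := min_le_left x 1; linarith
  obtain ⟨c₉, hc₉, hfull⟩ := hfull x' hx'0 hx'1
  obtain ⟨h₀, hh₀⟩ : ∃ h₀, h₀ = min c₉ μ / 8 := ⟨_, rfl⟩
  have hh₀0 : 0 < h₀ := by rw [hh₀]; have := lt_min hc₉ hμ; linarith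
  have hh₀1 : 8 * h₀ ≤ c₉ := by rw [hh₀]; have := min_le_left c₉ μ; linarith
  have hh₀2 : 8 * h₀ ≤ μ := by rw [hh₀]; have := min_le_right c₉ μ; linarith
  refine ⟨1, fun N hN i₀ v l s hvls hs => ?_⟩
  have hN0 : 0 < N := hN
  have hNpos : (0 : ℝ) < N := by exact_mod_cast hN0
  -- the exponent of the spread
  obtain ⟨xb, hxb⟩ : ∃ xb, xb = min (min h₀ h₁) (1 / N) / 16 := ⟨_, rfl⟩
  have hxb0 : 0 < xb := by
    rw [hxb]
    have := lt_min (lt_min hh₀0 hh₁) (show 0 < 1 / (N : ℝ) by positivity)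
    linarith
  have hxb1 : 16 * xb ≤ h₀ := by
    rw [hxb]
    have := (min_le_left (min h₀ h₁) (1 / (N : ℝ))).trans (min_le_left _ _)
    linarith
  have hxb2 : 16 * xb ≤ h₁ := by
    rw [hxb]
    have := (min_le_left (min h₀ h₁) (1 / (N : ℝ))).trans (min_le_right _ _)
    linarith
  have hxb3 : 16 * xb ≤ 1 / N := by
    rw [hxb]
    have := min_le_right (min h₀ h₁) (1 / (N : ℝ))
    linarith
  have hN1 : 1 / (N : ℝ) ≤ 1 := by
    rw [div_le_one hNpos]
    exact_mod_cast hN0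
  have hxb4 : xb ≤ 1 / 4 := by linarith
  obtain ⟨τb, hτb, Jb, hball⟩ := Fam.Stt.not_ball' ha.le hR hU hxb0 hxb4
  -- the list
  refine Claim.one ⟨3, fun J F => ![Ball (1 / 2 ^ (⌊xb * J⌋₊ + 1)) (Fam.pt F) F.d,
    RotU i₀ (1 / 2 ^ (l * (J / N) + (plcH dl μ s N J + (⌊xb * J⌋₊ + 1) + 4)))
      (1 / 2 ^ (l * (J / N) + plcH dl μ s N J)) (Fam.pt F)
      (wnd F (v * (J / N) + s * (J / N))) F.d,
    PlC F i₀ (v * (J / N)) (l * (J / N)) (s * (J / N)) M 2 4
      ((2 : ℝ) ^ (l * (J / N) + (plcH dl μ s N J + (⌊xb * J⌋₊ + 1) + 4)))⁻¹], ?_⟩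
      fun κ hκ => ?_
  · intro J F i
    fin_cases i
    · exact Ball.hered _ _ _
    · exact RotU.hered _ _ _ _ _ _
    · exact PlC.hered _ _ _ _ _ _ _ _ _
  obtain ⟨τ₀, hτ₀, J₁, hfull⟩ := hfull (κ / 2) (half_pos hκ)
  obtain ⟨τ, hτ⟩ : ∃ τ, τ = min τ₀ τb / 4 := ⟨_, rfl⟩
  have hτ0 : 0 < τ := by rw [hτ]; have := lt_min hτ₀ hτb; linarith
  have hτ1 : 4 * τ ≤ τ₀ := by rw [hτ]; have := min_le_left τ₀ τb; linarith
  have hτ2 : 4 * τ ≤ τb := by rw [hτ]; have := min_le_right τ₀ τb; linarith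
  obtain ⟨J₂, hJ₂⟩ := exists_nat_gt (2 * N + 20 / xb + 2 * Real.log 2 / κ + Real.log 2 / τ +
    |Real.log (c' / 8)| / κ + 20 / h₀ + 1)
  refine ⟨τ, hτ0, max J₂ (max J₁ Jb), fun J hJ F A hS hSb hrow hLb hLn hCn => ?_⟩
  have hJr : 2 * N + 20 / xb + 2 * Real.log 2 / κ + Real.log 2 / τ +
      |Real.log (c' / 8)| / κ + 20 / h₀ + 1 < J :=
    hJ₂.trans_le (by exact_mod_cast (le_max_left _ _).trans hJ)
  have q1 : 0 < 20 / xb := by positivity
  have q2 : 0 < 2 * Real.log 2 / κ := by positivity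
  have q3 : 0 < Real.log 2 / τ := by positivity
  have q4 : 0 ≤ |Real.log (c' / 8)| / κ := by positivity
  have q5 : 0 < 20 / h₀ := by positivity
  have hJ0 : (0 : ℝ) < J := by linarith
  have r1 : 20 ≤ xb * J := by
    have : 20 / xb < J := by linarith
    rw [div_lt_iff₀ hxb0] at this
    linarith
  have r2 : 2 * Real.log 2 ≤ κ * J := by
    have : 2 * Real.log 2 / κ < J := by linarith
    rw [div_lt_iff₀ hκ] at this
    linarith
  have r3 : Real.log 2 ≤ τ * J := by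
    have : Real.log 2 / τ < J := by linarith
    rw [div_lt_iff₀ hτ0] at this
    linarith
  have r4 : Real.exp (-(κ * J)) ≤ c' / 8 := by
    have h1 : |Real.log (c' / 8)| / κ < J := by linarith
    rw [div_lt_iff₀ hκ] at h1
    rw [← Real.exp_log (show 0 < c' / 8 by linarith)]
    refine Real.exp_le_exp.2 ?_
    have := neg_abs_le (Real.log (c' / 8))
    linarith
  have r5 : 2 * (N : ℝ) ≤ J := by linarith
  have r6 : 20 ≤ h₀ * J := by
    have : 20 / h₀ < J := by linarith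
    rw [div_lt_iff₀ hh₀0] at this
    linarith
  have hp := F.isLaw
  have hA0 : 0 < Pe F.p A := lt_of_lt_of_le (Real.exp_pos _) hS.2
  -- scales
  obtain ⟨u, hu⟩ : ∃ u, u = J / N := ⟨_, rfl⟩
  have hu1 : (N : ℝ) * u ≤ J := by rw [hu]; exact_mod_cast Nat.mul_div_le J N
  have hu2 : (J : ℝ) < N * (u + 1) := by rw [hu]; exact_mod_cast Nat.lt_mul_div_succ J hN0
  have hu0 : (0 : ℝ) ≤ u := Nat.cast_nonneg u
  obtain ⟨q₁, hq₁⟩ : ∃ q₁, q₁ = ⌊xb * J⌋₊ + 1 := ⟨_, rfl⟩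
  obtain ⟨hx₀, hhx₀⟩ : ∃ n, n = plcH dl μ s N J := ⟨_, rfl⟩
  obtain ⟨hh, hhh⟩ : ∃ n, n = hx₀ + q₁ + 4 := ⟨_, rfl⟩
  obtain ⟨lam, hlam⟩ : ∃ n, n = l * u := ⟨_, rfl⟩
  obtain ⟨w, hw⟩ : ∃ n, n = v * u := ⟨_, rfl⟩
  obtain ⟨X, hX⟩ : ∃ n, n = s * u := ⟨_, rfl⟩
  obtain ⟨f, hf⟩ : ∃ n, n = ⌊h₁ * J⌋₊ := ⟨_, rfl⟩
  have s0 : Stb F.p (κ * J) A (Ball (1 / 2 ^ q₁) (Fam.pt F) F.d) := by
    rw [hq₁]
    exact hSb 0
  have s1 : Stb F.p (κ * J) A (RotU i₀ (1 / 2 ^ (lam + hh)) (1 / 2 ^ (lam + hx₀)) (Fam.pt F)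
      (wnd F (w + X)) F.d) := by
    rw [hhh, hhx₀, hq₁, hlam, hw, hX, hu]
    exact hSb 1
  have s2 : Stb F.p (κ * J) A (PlC F i₀ w lam X M 2 4 ((2 : ℝ) ^ (lam + hh))⁻¹) := by
    rw [hhh, hhx₀, hq₁, hlam, hw, hX, hu]
    exact hSb 2
  have hnb : ¬ Ball (1 / 2 ^ q₁) (Fam.pt F) F.d A := by
    rw [hq₁]
    exact hball J ((le_max_right _ _).trans ((le_max_right _ _).trans hJ)) F A
      (hS.mono (by linarith))
  have hlamr : (lam : ℝ) = l * u := by rw [hlam]; push_cast; ring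
  have hwr : (w : ℝ) = v * u := by rw [hw]; push_cast; ring
  have hXr : (X : ℝ) = s * u := by rw [hX]; push_cast; ring
  have hq₁r : (q₁ : ℝ) ≤ xb * J + 1 := by
    rw [hq₁]
    push_cast
    have := Nat.floor_le (show 0 ≤ xb * (J : ℝ) by positivity)
    linarith
  have hx₀d : (hx₀ : ℝ) ≤ dl * X := by
    rw [hhx₀, hX, hu]
    exact (Nat.floor_le (le_min (by positivity) (by positivity))).trans (min_le_left _ _)
  have hx₀μ : (hx₀ : ℝ) ≤ μ / 8 * J := by
    rw [hhx₀]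
    exact (Nat.floor_le (le_min (by positivity) (by positivity))).trans (min_le_right _ _)
  have hhr : (hh : ℝ) = hx₀ + q₁ + 4 := by rw [hhh]; push_cast; ring
  have k1 : 16 * (xb * J) ≤ h₀ * J := by
    have := mul_le_mul_of_nonneg_right hxb1 hJ0.le
    linarith
  have k2 : 16 * (xb * J) ≤ h₁ * J := by
    have := mul_le_mul_of_nonneg_right hxb2 hJ0.le
    linarith
  have k3 : 16 * (xb * J) ≤ J / N := by
    have := mul_le_mul_of_nonneg_right hxb3 hJ0.le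
    have e : 1 / (N : ℝ) * J = J / N := by ring
    linarith
  have k4 : 8 * (h₀ * J) ≤ c₉ * J := by
    have := mul_le_mul_of_nonneg_right hh₀1 hJ0.le
    linarith
  have k5 : 8 * (h₀ * J) ≤ μ * J := by
    have := mul_le_mul_of_nonneg_right hh₀2 hJ0.le
    linarith
  have hfq : q₁ + 3 ≤ f := by
    rw [hf]
    refine Nat.le_floor ?_
    push_cast
    linarith
  have hq₁c : (q₁ : ℝ) ≤ c₉ * J := by linarith only [hq₁r, k1, k4, r1]
  have hhq : (hh : ℝ) ≤ dl * X + c₉ * J := by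
    rw [hhr]
    linarith only [hx₀d, hq₁r, k1, k4, r1]
  have hwJ : w + lam + X ≤ J := by
    have h1 : w + lam + X = (v + l + s) * u := by rw [hw, hlam, hX]; ring
    rw [h1]
    have h2 : (v + l + s) * u ≤ N * u := Nat.mul_le_mul_right u hvls
    have h3 : N * u ≤ J := by rw [hu]; exact Nat.mul_div_le J N
    omega
  have hxX : x' * J ≤ X := by
    rw [hXr]
    have h1 : x * N * u ≤ s * u := mul_le_mul_of_nonneg_right hs hu0
    have h2 : (J : ℝ) / 2 ≤ N * u := by linarith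
    have h3 : x * (J / 2) ≤ x * (N * u) := mul_le_mul_of_nonneg_left h2 hx.le
    have h4 : x' * J ≤ x / 2 * J := mul_le_mul_of_nonneg_right hx'x hJ0.le
    linarith
  have hX0 : (0 : ℝ) < X := lt_of_lt_of_le (by positivity) hxX
  have hXl : 0 < X * Real.log 2 := by positivity
  -- it is enough to know the frame from the windows
  suffices hR : RotU i₀ (1 / 2 ^ (lam + hh)) (1 / 2 ^ (lam + hx₀)) (Fam.pt F)
      (wnd F (w + X)) F.d A by
    intro h hd hh'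
    rw [← hu, ← hlam]
    have hle : h ≤ hx₀ := by
      rw [hhx₀]
      exact Nat.le_floor (le_min hd hh')
    refine hR.toCn (l := lam + h) (by omega) (by omega) ?_
    rw [hw, hX]
    ring
  by_contra hRn
  have hκh : κ / 2 * J ≤ κ * J := by
    have : 0 < κ * J := mul_pos hκ hJ0
    linarith only [this]
  rw [← hu] at hrow hLn hCn
  rw [← hlam] at hLn
  rw [← hlam, ← hw] at hCn
  have hrow' : CH (Pool.Agent.H49.Ent.cond F.p A True) (F.X (w + lam + X))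
      (fun ω => (F.X (w + lam) ω, F.W ω)) ≤ (2 - c) * (X * Real.log 2) := by
    have e1 : (v + l + s) * u = w + lam + X := by rw [hw, hlam, hX]; ring
    have e2 : (v + l) * u = w + lam := by rw [hw, hlam]; ring
    rw [e1, e2, ← hX] at hrow
    exact hrow
  obtain ⟨e₁, n₁, h₁'⟩ := hLn (lam + hh) (by
    push_cast
    rw [hhr]
    linarith only [hx₀μ, hq₁r, k1, k5, r1])
  obtain ⟨e₀, n₀, h₀'⟩ := hLb
  rw [← hf] at h₀'
  rcases Nat.eq_zero_or_pos l with hl0 | hl0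
  · -- precision `1`
    have hlam0 : lam = 0 := by rw [hlam, hl0, Nat.zero_mul]
    have hf1 : (1 : ℝ) / 2 ^ f ≤ 1 := by
      rw [div_le_one (by positivity)]
      exact one_le_pow₀ (by norm_num)
    have hinv : ((2 : ℝ) ^ lam)⁻¹ = 1 := by rw [hlam0]; norm_num
    have hon : OnL i₀ ((2 : ℝ) ^ lam)⁻¹ (Fam.pt F) F.d A e₀ n₀ := by
      rw [hinv]
      exact fun ω hω j => (h₀'.line ω hω j).trans hf1
    have hcl : ∀ ω, A ω → ∀ j : Fin 2, |e₀ (Fam.pt F ω) j - (0 : ℝ)| ≤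
        (2 : ℕ) * ((2 : ℝ) ^ lam)⁻¹ := by
      intro ω hω j
      rw [hinv, sub_zero]
      have := h₀'.bound ω hω j
      push_cast
      linarith
    have hfu := hfull J ((le_max_left _ _).trans ((le_max_right _ _).trans hJ)) F A
      (hS.mono (by linarith)) i₀ w lam X q₁ f hx₀ hh e₀ n₀ e₁ n₁ e₀ n₀ (fun _ _ => 0) hwJ hxX hq₁c hhq
      (s0.mono hp hκh) hnb h₀' (by omega) h₁' (by omega)
      (s1.mono hp hκh) hRn (s2.mono hp hκh)
      hon (fun _ _ => ⟨0, by simp⟩) (fun _ _ => by simp) hcl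
    have h4 : c' * (X * Real.log 2) ≤ c / 2 * (X * Real.log 2) :=
      mul_le_mul_of_nonneg_right hc'c hXl.le
    have h5 : 0 < c * (X * Real.log 2) := by positivity
    linarith
  · -- the frame of the windows
    have hlamq : q₁ + 3 ≤ lam := by
      have h1 : (q₁ : ℝ) + 3 ≤ lam := by
        have h2 : (u : ℝ) ≤ lam := by
          rw [hlamr]
          have : (1 : ℝ) ≤ l := by exact_mod_cast hl0
          exact le_mul_of_one_le_left hu0 this
        have h3 : J / N < (u : ℝ) + 1 := by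
          rw [div_lt_iff₀ hNpos]
          linarith only [hu2]
        linarith only [h2, h3, k3, hq₁r, r1]
      exact_mod_cast h1
    obtain ⟨A', hsub, hPA', e, n, ζ, hon, hgr, hbd, hcl⟩ :=
      steep_remove (w := w) hA0 h₀' s0 hnb hCn hlamq hfq
    have hhalf : Real.exp (-Real.log 2) * Pe F.p A ≤ Pe F.p A' := by
      refine le_trans (mul_le_mul_of_nonneg_right ?_ hA0.le) hPA'
      rw [show Real.exp (-Real.log 2) = 1 / 2 by
        rw [Real.exp_neg, Real.exp_log (by norm_num)]; norm_num]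
      linarith only [r4, hc'1]
    have hS' : S.St τ₀ F A' := by
      have h0 := hS.mono (τ' := τ₀) (by linarith only [hτ1, hτ0])
      refine ⟨h0.1, le_trans ?_ hhalf⟩
      have h1 := hS.2
      calc Real.exp (-(τ₀ * J)) ≤ Real.exp (-Real.log 2) * Real.exp (-(τ * J)) := by
            rw [← Real.exp_add]
            refine Real.exp_le_exp.2 ?_
            have h3 : 4 * τ * J ≤ τ₀ * J := mul_le_mul_of_nonneg_right hτ1 hJ0.le
            have h4 : 0 < τ * J := mul_pos hτ0 hJ0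
            linarith only [h3, h4, r3]
        _ ≤ _ := mul_le_mul_of_nonneg_left h1 (Real.exp_pos _).le
    have hκ2 : κ / 2 * J ≤ κ * J - Real.log 2 := by linarith only [r2]
    have hexp2 : Real.exp (-(κ * J)) * Pe F.p A ≤ Real.exp (-Real.log 2) * Pe F.p A :=
      mul_le_mul_of_nonneg_right (Real.exp_le_exp.2 (by linarith only [r2, hl2])) hA0.le
    have hfu := hfull J ((le_max_left _ _).trans ((le_max_right _ _).trans hJ)) F A' hS'
      i₀ w lam X q₁ f hx₀ hh e₀ n₀ e₁ n₁ e n ζ hwJ hxX hq₁c hhq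
      ((s0.sub (Ball.hered _ _ _) hsub hhalf).mono hp hκ2)
      (fun h => hnb (s0.of_sub hsub (hexp2.trans hhalf) h))
      ⟨fun ω hω => h₀'.bound ω (hsub ω hω), fun ω hω => h₀'.line ω (hsub ω hω)⟩ (by omega)
      (h₁'.sub hsub) (by omega)
      ((s1.sub (RotU.hered _ _ _ _ _ _) hsub hhalf).mono hp hκ2)
      (fun h => hRn (s1.of_sub hsub (hexp2.trans hhalf) h))
      ((s2.sub (PlC.hered _ _ _ _ _ _ _ _ _) hsub hhalf).mono hp hκ2)
      hon hgr hbd hcl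
    · have hev := CH_event hp hsub hA0 (F.X (w + lam + X)) (fun ω => (F.X (w + lam) ω, F.W ω))
      have hfrac : 1 - c' / 8 ≤ Pe F.p A' / Pe F.p A := by
        rw [le_div_iff₀ hA0]
        exact (mul_le_mul_of_nonneg_right (by linarith) hA0.le).trans hPA'
      have hnn : 0 ≤ (2 - c') * (X * Real.log 2) := mul_nonneg (by linarith) hXl.le
      have h1 : (1 - c' / 8) * ((2 - c') * (X * Real.log 2)) ≤
          CH (Pool.Agent.H49.Ent.cond F.p A True) (F.X (w + lam + X))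
            (fun ω => (F.X (w + lam) ω, F.W ω)) := by
        refine le_trans ?_ hev
        exact (mul_le_mul_of_nonneg_right hfrac hnn).trans
          (mul_le_mul_of_nonneg_left hfu (div_nonneg (Pe_nonneg hp _) hA0.le))
      have h2 : (1 - c' / 8) * (2 - c') = 2 - c' - c' / 4 + c' * c' / 8 := by ring
      have h3 : (2 - c) < (1 - c' / 8) * (2 - c') := by
        rw [h2]
        have : 0 < c' * c' := by positivity
        linarith
      have h4 : (2 - c) * (X * Real.log 2) < (1 - c' / 8) * (2 - c') * (X * Real.log 2) :=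
        mul_lt_mul_of_pos_right h3 hXl
      linarith

theorem plclaim_thm (S : FCl 2) : PLCStmt S := by
  intro a R ha hR hU c x μ h₁ hc hx hμ hh₁
  obtain ⟨dl, hdl, h⟩ := plcx_thm S a R ha hR hU c hc
  obtain ⟨N₁, hN₁⟩ := h x μ h₁ hx hμ hh₁
  refine ⟨min (dl * x / 2) (μ / 8), lt_min (by positivity) (by positivity), max N₁ 1,
    fun N hN i₀ v l s hvls hs => ?_⟩
  have hN0 : 0 < N := (le_max_right N₁ 1).trans hN
  have hNpos : (0 : ℝ) < N := by exact_mod_cast hN0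
  refine Claim.mono (2 * N) ?_ (hN₁ N ((le_max_left _ _).trans hN) i₀ v l s hvls hs)
  intro J hJ F A h1 h2 h3 h4 h5 h hh
  have hJ' : 2 * (N : ℝ) ≤ J := by exact_mod_cast hJ
  have hu2 : (J : ℝ) < N * ((J / N : ℕ) + 1) := by exact_mod_cast Nat.lt_mul_div_succ J hN0
  refine h1 h2 h3 h4 h5 h (hh.trans ?_) (hh.trans ?_)
  · have e1 : x * N * (J / N : ℕ) ≤ s * (J / N : ℕ) :=
      mul_le_mul_of_nonneg_right hs (Nat.cast_nonneg _)
    have e2 : x * (J / 2) ≤ x * (N * (J / N : ℕ)) :=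
      mul_le_mul_of_nonneg_left (by linarith only [hJ', hu2]) hx.le
    have e3 : x * (J / 2) ≤ s * (J / N : ℕ) := by linarith only [e1, e2]
    have e4 := mul_le_mul_of_nonneg_left e3 hdl.le
    have e5 : min (dl * x / 2) (μ / 8) * J ≤ dl * x / 2 * J :=
      mul_le_mul_of_nonneg_right (min_le_left _ _) (Nat.cast_nonneg J)
    push_cast
    linarith only [e4, e5]
  · exact mul_le_mul_of_nonneg_right (min_le_right _ _) (Nat.cast_nonneg J)

end Pool.K2S.G
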