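import Pool.Agent.H13.K2S.Slo
import Pool.Agent.H13.EG.OcFam
import Pool.Agent.H13.EG.LIP
import Pool.Agent.H13.EG.PLClaim

/-!
# The engine for a general class (H13.K2S.Slo)
-/

set_option autoImplicit false

namespace Pool.K2S.G

open Finset Real
open Pool.Agent.H49.Ent Pool.Agent.H32.Dense Pool.STK Pool.KA Pool.KSAT
open Pool.K2S Pool.PB Pool.LK

variable {S : FCl 2}

/-- **(MICR)** (MIC) for regular rows. -/
def MICRStmt (S : FCl 2) : Prop :=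
  ∀ a R : ℝ, 1 < a → 0 < R → GW S a R → ∀ c μ h₁ ω₀ : ℝ, 0 < c → 0 < μ → 0 < h₁ → 0 < ω₀ →
    ∃ θ : ℝ, 0 < θ ∧ ∀ e : ℝ, 0 < e → ∃ N₁ : ℕ, ∀ N ≥ N₁, ∃ η : ℝ, 0 < η ∧
    ∀ (i₀ : Fin 2) (pa pb wa wb : ℕ)
    (lam : ℕ → ℕ), e * N ≤ (pb : ℝ) - pa → ω₀ * N ≤ (wa : ℝ) → wa ≤ wb →
    ω₀ * N ≤ (N : ℝ) - pb →
    (∀ w, wa ≤ w → w ≤ wb → pa ≤ w + lam w ∧ w + lam w ≤ pb) →
    (∀ w, wa ≤ w → w < wb → lam w ≤ lam (w + 1) ∧
      (lam (w + 1) : ℝ) ≤ lam w + θ * ((pb : ℝ) - pa)) →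
    (wa : ℝ) + lam wa ≤ pa + θ * ((pb : ℝ) - pa) →
    (pb : ℝ) - θ * ((pb : ℝ) - pa) ≤ wb + lam wb →
    Claim S (fun J F A => RowsReg N η F A →
      (∀ s t : ℕ, pa ≤ s → t ≤ pb → θ * ((pb : ℝ) - pa) ≤ (t : ℝ) - s →
        CH (Pool.Agent.H49.Ent.cond F.p A True) (F.X (t * (J / N)))
          (fun ω => (F.X (s * (J / N)) ω, F.W ω)) ≤
        (2 - c) * (((t : ℝ) - s) * ((J / N : ℕ) * Real.log 2))) →
      Lb F i₀ ⌊h₁ * J⌋₊ A →
      (∀ h : ℕ, (h : ℝ) ≤ ((pb : ℝ) - wa) * (J / N : ℕ) + μ * J → Ln F i₀ h A) →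
      (∀ w, wa ≤ w → w ≤ wb → Cn F i₀ (lam w * (J / N)) (w * (J / N)) A ∧
        ¬ Cn F i₀ ((lam w + 1) * (J / N)) (w * (J / N)) A) → False)

/-- **(MICS)** (MICR) with the slopes of the critical row. -/
def MICSStmt (S : FCl 2) : Prop :=
  ∀ a R : ℝ, 1 < a → 0 < R → GW S a R → ∀ c μ h₁ ω₀ s₀ : ℝ, 0 < c → 0 < μ → 0 < h₁ →
    0 < ω₀ → 0 < s₀ →
    ∃ θ : ℝ, 0 < θ ∧ ∀ e : ℝ, 0 < e → ∃ N₁ : ℕ, ∀ N ≥ N₁, ∃ η : ℝ, 0 < η ∧
    ∀ (i₀ : Fin 2) (pa pb wa wb : ℕ)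
    (lam : ℕ → ℕ), e * N ≤ (pb : ℝ) - pa → ω₀ * N ≤ (wa : ℝ) → wa ≤ wb →
    ω₀ * N ≤ (N : ℝ) - pb →
    (∀ w, wa ≤ w → w ≤ wb → pa ≤ w + lam w ∧ w + lam w ≤ pb) →
    (∀ w, wa ≤ w → w < wb → lam w ≤ lam (w + 1) ∧
      (lam (w + 1) : ℝ) ≤ lam w + θ * ((pb : ℝ) - pa)) →
    (wa : ℝ) + lam wa ≤ pa + θ * ((pb : ℝ) - pa) →
    (pb : ℝ) - θ * ((pb : ℝ) - pa) ≤ wb + lam wb →
    (∀ w w', wa ≤ w → w ≤ w' → w' ≤ wb →
      s₀ * ((lam w' : ℝ) - lam w) ≤ max ((w' : ℝ) - w) (θ * ((pb : ℝ) - pa)) ∧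
      (θ * ((pb : ℝ) - pa) ≤ (w' : ℝ) - w → s₀ * ((w' : ℝ) - w) ≤ (lam w' : ℝ) - lam w)) →
    Claim S (fun J F A => RowsReg N η F A →
      (∀ s t : ℕ, pa ≤ s → t ≤ pb → θ * ((pb : ℝ) - pa) ≤ (t : ℝ) - s →
        CH (Pool.Agent.H49.Ent.cond F.p A True) (F.X (t * (J / N)))
          (fun ω => (F.X (s * (J / N)) ω, F.W ω)) ≤
        (2 - c) * (((t : ℝ) - s) * ((J / N : ℕ) * Real.log 2))) →
      Lb F i₀ ⌊h₁ * J⌋₊ A →
      (∀ h : ℕ, (h : ℝ) ≤ ((pb : ℝ) - wa) * (J / N : ℕ) + μ * J → Ln F i₀ h A) →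
      (∀ w, wa ≤ w → w ≤ wb → Cn F i₀ (lam w * (J / N)) (w * (J / N)) A ∧
        ¬ Cn F i₀ ((lam w + 1) * (J / N)) (w * (J / N)) A) → False)

theorem micr_of_mics (hL : LIPStmt S) (hP : PLCXStmt S) (hS : MICSStmt S) :
    MICRStmt S := by
  classical
  intro a R ha hR hU c μ h₁ ω₀ hc hμ hh₁ hω₀
  have hl2 : 0 < Real.log 2 := Real.log_pos (by norm_num)
  obtain ⟨C, N₁, hL⟩ := hL a R ha hR hU c (μ / 2) h₁ ω₀ hc (half_pos hμ) hh₁ hω₀
  obtain ⟨dl, hdl, hP⟩ := hP a R ha hR hU c hc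
  obtain ⟨s₁, hs₁⟩ : ∃ s₁ : ℝ, s₁ = min dl (μ / 8) / 2 := ⟨_, rfl⟩
  have hs₁0 : 0 < s₁ := by rw [hs₁]; have := lt_min hdl (show 0 < μ / 8 by linarith); linarith
  obtain ⟨s₀, hs₀⟩ : ∃ s₀ : ℝ, s₀ = min s₁ (1 / (C + 1)) := ⟨_, rfl⟩
  have hC1 : (0 : ℝ) < C + 1 := by positivity
  have hs₀0 : 0 < s₀ := by rw [hs₀]; exact lt_min hs₁0 (by positivity)
  obtain ⟨θ₀, hθ₀, hS⟩ := hS a R ha hR hU c μ h₁ ω₀ s₀ hc hμ hh₁ hω₀ hs₀0
  refine ⟨θ₀, hθ₀, fun e he => ?_⟩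
  obtain ⟨N₂, hS⟩ := hS e he
  obtain ⟨N₃, hP⟩ := hP (θ₀ * e) μ h₁ (by positivity) hμ hh₁
  obtain ⟨N₄, hN₄⟩ := exists_nat_gt (4 / (s₁ * (θ₀ * e)) + 4 / μ)
  refine ⟨max (max N₁ N₂) (max N₃ (N₄ + 1)), fun N hN => ?_⟩
  have hN1 : N₁ ≤ N := ((le_max_left _ _).trans (le_max_left _ _)).trans hN
  have hN2 : N₂ ≤ N := ((le_max_right _ _).trans (le_max_left _ _)).trans hN
  have hN3 : N₃ ≤ N := ((le_max_left _ _).trans (le_max_right _ _)).trans hN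
  have hN4 : N₄ + 1 ≤ N := ((le_max_right _ _).trans (le_max_right _ _)).trans hN
  have hNr : 4 / (s₁ * (θ₀ * e)) + 4 / μ < N := by
    refine hN₄.trans_le ?_
    exact_mod_cast (Nat.le_succ _).trans hN4
  have q1 : 0 < 4 / (s₁ * (θ₀ * e)) := by positivity
  have q2 : 0 < 4 / μ := by positivity
  have hNpos : (0 : ℝ) < N := by linarith
  have hN0 : 0 < N := by exact_mod_cast hNpos
  have r1 : 4 ≤ s₁ * (θ₀ * e) * N := by
    have : 4 / (s₁ * (θ₀ * e)) ≤ N := by linarith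
    rw [div_le_iff₀ (by positivity)] at this
    linarith
  have r2 : 4 ≤ μ * N := by
    have : 4 / μ ≤ N := by linarith
    rw [div_le_iff₀ hμ] at this
    linarith
  obtain ⟨η, hη, hS⟩ := hS N hN2
  refine ⟨η, hη, fun i₀ pa pb wa wb lam hz hωa hab hωb hrow hstep hfirst hlast => ?_⟩
  have hzpos : 0 < (pb : ℝ) - pa := lt_of_lt_of_le (by positivity) hz
  -- the claims
  have hA : Claim S (fun J F A => ∀ w < wb + 1, ∀ w' < wb + 1,
      (wa ≤ w ∧ w ≤ w' ∧ w + lam w + C * (w' - w) < w' + lam w') →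
      Lb F i₀ ⌊h₁ * J⌋₊ A →
      (∀ h : ℕ, (h : ℝ) ≤ ((w' : ℝ) + lam w' - w) * (J / N : ℕ) + μ / 2 * J → Ln F i₀ h A) →
      Cn F i₀ (lam w' * (J / N)) (w' * (J / N)) A →
      ¬ Cn F i₀ ((lam w + 1) * (J / N)) (w * (J / N)) A →
      (2 - c) * (((w' : ℝ) + lam w' - (w + lam w)) * ((J / N : ℕ) * Real.log 2)) <
        CH (Pool.Agent.H49.Ent.cond F.p A True) (F.X ((w' + lam w') * (J / N)))
          (fun ω => (F.X ((w + lam w) * (J / N)) ω, F.W ω))) := by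
    refine Claim.all (wb + 1) fun w hw => Claim.all (wb + 1) fun w' hw' =>
      Claim.cnd fun hx => ?_
    have h1 : (wa : ℝ) ≤ w := by exact_mod_cast hx.1
    refine hL N hN1 i₀ w w' (lam w) (lam w') hx.2.1 (hωa.trans h1) ?_ hx.2.2
    have h2 : ((w' + lam w' : ℕ) : ℝ) ≤ pb := by
      exact_mod_cast (hrow w' (hx.1.trans hx.2.1) (by omega)).2
    push_cast at h2
    linarith
  have hB : Claim S (fun J F A => ∀ w < wb + 1, ∀ w' < wb + 1,
      (wa ≤ w ∧ w ≤ w' ∧ w + lam w + (w' - w) ≤ N ∧ θ₀ * e * N ≤ ((w' - w : ℕ) : ℝ)) →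
      CH (Pool.Agent.H49.Ent.cond F.p A True) (F.X ((w + lam w + (w' - w)) * (J / N)))
        (fun ω => (F.X ((w + lam w) * (J / N)) ω, F.W ω)) ≤
        (2 - c) * ((((w' - w) * (J / N) : ℕ) : ℝ) * Real.log 2) →
      Lb F i₀ ⌊h₁ * J⌋₊ A →
      (∀ h : ℕ, (h : ℝ) ≤ (lam w * (J / N) : ℕ) + μ * J → Ln F i₀ h A) →
      Cn F i₀ (lam w * (J / N)) (w * (J / N)) A →
      ∀ h : ℕ, (h : ℝ) ≤ dl * (((w' - w) * (J / N) : ℕ) : ℝ) → (h : ℝ) ≤ μ / 8 * J →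
        Cn F i₀ (lam w * (J / N) + h) ((w + (w' - w)) * (J / N)) A) := by
    refine Claim.all (wb + 1) fun w hw => Claim.all (wb + 1) fun w' hw' =>
      Claim.cnd fun hx => ?_
    exact hP N hN3 i₀ w (lam w) (w' - w) hx.2.2.1 hx.2.2.2
  by_cases hslope : ∀ w w', wa ≤ w → w ≤ w' → w' ≤ wb →
      s₀ * ((lam w' : ℝ) - lam w) ≤ max ((w' : ℝ) - w) (θ₀ * ((pb : ℝ) - pa)) ∧
      (θ₀ * ((pb : ℝ) - pa) ≤ (w' : ℝ) - w → s₀ * ((w' : ℝ) - w) ≤ (lam w' : ℝ) - lam w)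
  · exact hS i₀ pa pb wa wb lam hz hωa hab hωb hrow hstep hfirst hlast hslope
  push Not at hslope
  obtain ⟨w, w', hw1, hw2, hw3, hw5⟩ := hslope
  have hmono : ∀ v v', wa ≤ v → v ≤ v' → v' ≤ wb → lam v ≤ lam v' := by
    intro v v' h1 h2 h3
    induction v', h2 using Nat.le_induction with
    | base => exact le_rfl
    | succ n hn ih => exact (ih (by omega)).trans (hstep n (by omega) (by omega)).1
  have hwr : (w : ℝ) ≤ w' := by exact_mod_cast hw2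
  have hlam := hmono w w' hw1 hw2 hw3
  have hlamr : (lam w : ℝ) ≤ lam w' := by exact_mod_cast hlam
  have hpbN : pb ≤ N := by
    have h1 : 0 ≤ ω₀ * N := by positivity
    have h2 : (pb : ℝ) ≤ N := by linarith
    exact_mod_cast h2
  have hLL : 0 < θ₀ * ((pb : ℝ) - pa) := by positivity
  have hsN' : θ₀ * e * N ≤ θ₀ * ((pb : ℝ) - pa) := by
    have := mul_le_mul_of_nonneg_left hz hθ₀.le
    linarith
  refine Claim.mono N ?_ (hA.and hB)
  rintro J hJ F A ⟨hA, hB⟩ - hZ hLb hLn hC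
  obtain ⟨u, hu⟩ : ∃ u, u = J / N := ⟨_, rfl⟩
  have hu0 : 0 < u := by rw [hu]; exact Nat.div_pos hJ hN0
  have hu1 : N * u ≤ J := by rw [hu]; exact Nat.mul_div_le J N
  have hu2 : J < N * (u + 1) := by rw [hu]; exact Nat.lt_mul_div_succ J hN0
  have hur : (0 : ℝ) < u := by exact_mod_cast hu0
  have hu1r : (N : ℝ) * u ≤ J := by exact_mod_cast hu1
  have hJ0 : (0 : ℝ) ≤ J := Nat.cast_nonneg J
  rw [← hu] at hA hB hZ hLn hC
  have hUL : (0 : ℝ) < u * Real.log 2 := by positivity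
  -- the lower slope
  have hlow : θ₀ * ((pb : ℝ) - pa) ≤ (w' : ℝ) - w →
      s₁ * ((w' : ℝ) - w) ≤ (lam w' : ℝ) - lam w := by
    intro hw4
    have hsN : θ₀ * e * N ≤ (w' : ℝ) - w := hsN'.trans hw4
    by_contra hcon
    push Not at hcon
    have hrow' := hrow w' (by omega) hw3
    have key := hB w (by omega) w' (by omega) ⟨hw1, hw2, by omega, by
        rw [Nat.cast_sub hw2]; exact hsN⟩ ?_ hLb ?_ (hC w hw1 (by omega)).1
    · have hk := (hC w' (by omega) hw3).2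
      have e1 : w + (w' - w) = w' := by omega
      rw [e1] at key
      obtain ⟨h, hh⟩ : ∃ h : ℕ, h = (lam w' + 1 - lam w) * u := ⟨_, rfl⟩
      have e2 : lam w * u + h = (lam w' + 1) * u := by
        rw [hh, ← Nat.add_mul]
        congr 1
        omega
      have e3 : (h : ℝ) = ((lam w' : ℝ) + 1 - lam w) * u := by
        rw [hh, Nat.cast_mul, Nat.cast_sub (by omega)]
        push_cast
        ring
      have e4 : (h : ℝ) ≤ 2 * s₁ * ((w' : ℝ) - w) * u := by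
        rw [e3]
        refine mul_le_mul_of_nonneg_right ?_ hur.le
        have h1 : s₁ * (θ₀ * e * N) ≤ s₁ * ((w' : ℝ) - w) :=
          mul_le_mul_of_nonneg_left hsN hs₁0.le
        have h2 : s₁ * (θ₀ * e) * N = s₁ * (θ₀ * e * N) := by ring
        linarith
      have hs2 : 2 * s₁ ≤ dl := by
        rw [hs₁]; have := min_le_left dl (μ / 8); linarith
      have hs3 : 2 * s₁ ≤ μ / 8 := by
        rw [hs₁]; have := min_le_right dl (μ / 8); linarith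
      refine hk ?_
      rw [← e2]
      refine key h (e4.trans ?_) (e4.trans ?_)
      · have h1 : (((w' - w) * u : ℕ) : ℝ) = ((w' : ℝ) - w) * u := by
          rw [Nat.cast_mul, Nat.cast_sub hw2]
        rw [h1, ← mul_assoc]
        refine mul_le_mul_of_nonneg_right ?_ hur.le
        exact mul_le_mul_of_nonneg_right hs2 (by linarith)
      · have h1 : ((w' : ℝ) - w) * u ≤ J := by
          refine le_trans ?_ hu1r
          refine mul_le_mul_of_nonneg_right ?_ hur.le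
          have : w' ≤ N := by omega
          have h3 : (w' : ℝ) ≤ N := by exact_mod_cast this
          have h4 : (0 : ℝ) ≤ w := Nat.cast_nonneg w
          linarith
        have h2 : 0 ≤ ((w' : ℝ) - w) * u := mul_nonneg (by linarith) hur.le
        calc 2 * s₁ * ((w' : ℝ) - w) * u = 2 * s₁ * (((w' : ℝ) - w) * u) := by ring
          _ ≤ μ / 8 * (((w' : ℝ) - w) * u) := mul_le_mul_of_nonneg_right hs3 h2
          _ ≤ _ := mul_le_mul_of_nonneg_left h1 (by linarith)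
    · have h1 := hZ (w + lam w) (w + lam w + (w' - w)) (hrow w hw1 (by omega)).1 (by omega) (by
        rw [Nat.cast_add (w + lam w), Nat.cast_sub hw2]
        linarith)
      refine h1.trans (le_of_eq ?_)
      rw [Nat.cast_add (w + lam w), Nat.cast_mul, Nat.cast_sub hw2]
      ring
    · intro h hh
      refine hLn h (hh.trans ?_)
      have h1 : (lam w : ℝ) ≤ (pb : ℝ) - wa := by
        have h2 : ((w + lam w : ℕ) : ℝ) ≤ pb := by exact_mod_cast (hrow w hw1 (by omega)).2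
        have h3 : (wa : ℝ) ≤ w := by exact_mod_cast hw1
        push_cast at h2
        linarith
      have := mul_le_mul_of_nonneg_right h1 hur.le
      push_cast
      linarith
  -- the upper slope
  obtain ⟨mx, hmx⟩ : ∃ mx : ℝ, mx = max ((w' : ℝ) - w) (θ₀ * ((pb : ℝ) - pa)) := ⟨_, rfl⟩
  have hmx1 : (w' : ℝ) - w ≤ mx := by rw [hmx]; exact le_max_left _ _
  have hmx2 : θ₀ * ((pb : ℝ) - pa) ≤ mx := by rw [hmx]; exact le_max_right _ _
  rw [← hmx] at hw5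
  have hup : (lam w' : ℝ) - lam w ≤ (C + 1) * mx := by
    by_contra hcon
    push Not at hcon
    have h0 : (C : ℝ) * ((w' : ℝ) - w) ≤ C * mx :=
      mul_le_mul_of_nonneg_left hmx1 (Nat.cast_nonneg C)
    have h00 : 0 ≤ (C : ℝ) * mx := mul_nonneg (Nat.cast_nonneg C) (hLL.le.trans hmx2)
    have h1 : w + lam w + C * (w' - w) < w' + lam w' := by
      have : ((w + lam w + C * (w' - w) : ℕ) : ℝ) < ((w' + lam w' : ℕ) : ℝ) := by
        push_cast [Nat.cast_sub hw2]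
        linarith
      exact_mod_cast this
    have key := hA w (by omega) w' (by omega) ⟨hw1, hw2, h1⟩ hLb ?_
      (hC w' (by omega) hw3).1 (hC w hw1 (by omega)).2
    · have h2 := hZ (w + lam w) (w' + lam w') (hrow w hw1 (by omega)).1
        (hrow w' (by omega) hw3).2 (by push_cast; linarith)
      push_cast at h2
      exact absurd (key.trans_le h2) (lt_irrefl _)
    · intro h hh
      refine hLn h (hh.trans ?_)
      have h2 : ((w' + lam w' : ℕ) : ℝ) ≤ pb := by exact_mod_cast (hrow w' (by omega) hw3).2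
      have h3 : (wa : ℝ) ≤ w := by exact_mod_cast hw1
      push_cast at h2
      have h4 : (w' : ℝ) + lam w' - w ≤ (pb : ℝ) - wa := by linarith
      have h5 := mul_le_mul_of_nonneg_right h4 hur.le
      have h6 : 0 ≤ μ / 2 * J := by positivity
      linarith
  -- contradiction
  have h1 : s₀ ≤ 1 / (C + 1) := by rw [hs₀]; exact min_le_right _ _
  have h2 : s₀ * (C + 1) ≤ 1 := by rwa [le_div_iff₀ hC1] at h1
  have hc2 : s₀ * ((lam w' : ℝ) - lam w) ≤ mx := by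
    calc s₀ * ((lam w' : ℝ) - lam w) ≤ s₀ * ((C + 1) * mx) :=
          mul_le_mul_of_nonneg_left hup hs₀0.le
      _ = s₀ * (C + 1) * mx := by ring
      _ ≤ 1 * mx := mul_le_mul_of_nonneg_right h2 (hLL.le.trans hmx2)
      _ = _ := one_mul _
  obtain ⟨hw6, hw7⟩ := hw5 hc2
  have hc1 : s₀ * ((w' : ℝ) - w) ≤ (lam w' : ℝ) - lam w := by
    refine le_trans (mul_le_mul_of_nonneg_right ?_ (by linarith)) (hlow hw6)
    rw [hs₀]
    exact min_le_left _ _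
  exact absurd hc1 (not_le.2 hw7)

end Pool.K2S.G
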