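import Pool.Agent.H13.K2S.EngR
import Pool.Agent.H13.EG.FF
import Pool.Agent.H13.EG.Slo
import Pool.Agent.H13.EG.Ev
import Pool.Agent.H84.EG.Rty

/-!
# The engine for a general class (H13.K2S.EngR)
-/

set_option autoImplicit false

namespace Pool.K2S.G

open Finset Real
open Pool.Agent.H49.Ent Pool.Agent.H32.Dense Pool.STK Pool.KA Pool.KSAT
open Pool.K2S Pool.PB Pool.LK

variable {S : FCl 2}

/-- A claim holds for all parts of constant proportion. -/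
theorem Claim.evp {m : ℕ} {S : FCl m} {ρ : ℝ} (hρ : 0 < ρ) {Φ : Stat m} (h : Claim S Φ) :
    Claim S (fun _ F A => ∀ A' : F.Ω → Prop, Sub A' A → ρ * Pe F.p A ≤ Pe F.p A' →
      Φ _ F A') := Claim.ev hρ h

/-- The rows are regular on the large classes of a partition into a constant number of parts. -/
theorem reg_part (S : FCl 2) (N : ℕ) {η ζ : ℝ} (hη : 0 < η) (hζ : 0 < ζ) :
    ∃ M : ℕ, ∃ τ > 0, ∃ J₁ : ℕ, ∀ J ≥ J₁, ∀ (F : Fam 2 J) (A : F.Ω → Prop),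
    S.St τ F A → ∃ (cl : F.Ω → Fin M) (bad : Fin M),
      law (Pool.Agent.H49.Ent.cond F.p A True) cl bad ≤ ζ ∧
      ∀ k ≠ bad, ζ / M ≤ law (Pool.Agent.H49.Ent.cond F.p A True) cl k →
        RowsReg N η F (fun ω => A ω ∧ cl ω = k) := by
  classical
  have hl2 : 0 < Real.log 2 := Real.log_pos (by norm_num)
  obtain ⟨B, hB⟩ : ∃ B : ℝ, B = 2 * Real.log 2 + 2 := ⟨_, rfl⟩
  have hB0 : 0 < B := by rw [hB]; positivity
  obtain ⟨M, hM⟩ := rty_rel (N + 1) (e := η / 2) hB0 (half_pos hη) hζ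
  obtain ⟨J₂, hJ₂⟩ := exists_nat_gt (-Real.log (ζ / M) / (η / 2))
  refine ⟨M, 1, one_pos, max 1 J₂, fun J hJ F A hS => ?_⟩
  have hJ1 : 1 ≤ J := (le_max_left _ _).trans hJ
  have hJ2 : (J₂ : ℝ) ≤ J := by exact_mod_cast (le_max_right _ _).trans hJ
  have hJr : (1 : ℝ) ≤ J := by exact_mod_cast hJ1
  obtain ⟨hq, ⟨z, hz⟩, -, hRb⟩ := St_res zero_le_one hS
  obtain ⟨h, hh⟩ := hRb.2.1
  have hZ : ∀ ω, 0 < Pool.Agent.H49.Ent.cond F.p A True ω → F.Z ω = z := fun ω hω =>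
    hz ω hω.ne'
  have hle : ∀ i : Fin (N + 1), (i : ℕ) * (J / N) ≤ J := fun i =>
    (Nat.mul_le_mul_right _ (by omega)).trans (Nat.mul_div_le J N)
  have hdet : ∀ i : Fin (N + 1), Det (Pool.Agent.H49.Ent.cond F.p A True)
      (fun ω => (F.X J ω, F.T ω)) (fun ω => (F.X ((i : ℕ) * (J / N)) ω, F.W ω)) := by
    intro i ω ω' hω hω' e
    obtain ⟨e1, e2⟩ := Prod.ext_iff.1 e
    exact Prod.ext (Pool.STK.B58.fl_fine (hle i) e1)
      (Prod.ext e2 ((hZ ω hω).trans (hZ ω' hω').symm))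
  have hH : ∀ i : Fin (N + 1), H (Pool.Agent.H49.Ent.cond F.p A True)
      (fun ω => (F.X J ω, F.T ω)) - H (Pool.Agent.H49.Ent.cond F.p A True)
      (fun ω => (F.X ((i : ℕ) * (J / N)) ω, F.W ω)) ≤ B * J := by
    intro i
    obtain ⟨x, hx⟩ : ∃ x, x = (i : ℕ) * (J / N) := ⟨_, rfl⟩
    have hxJ : x ≤ J := by rw [hx]; exact hle i
    rw [← hx]
    have h1 : H (Pool.Agent.H49.Ent.cond F.p A True) (fun ω => (F.X J ω, F.T ω)) ≤
        H (Pool.Agent.H49.Ent.cond F.p A True) (fun ω => (F.X J ω, F.W ω)) := by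
      refine H_mono hq.nonneg fun ω ω' _ _ e => ?_
      obtain ⟨e1, e2⟩ := Prod.ext_iff.1 e
      exact Prod.ext e1 (Prod.ext_iff.1 e2).1
    have h2 := Rows.chain_det hq.nonneg (F.X J) (F.X x) F.W
      fun ω ω' _ _ e => Pool.STK.B58.fl_fine hxJ e
    have h3 : CH (Pool.Agent.H49.Ent.cond F.p A True) (F.X J) F.W =
        H (Pool.Agent.H49.Ent.cond F.p A True) (fun ω => (F.X J ω, F.W ω)) -
          H (Pool.Agent.H49.Ent.cond F.p A True) F.W := rfl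
    have h4 : CH (Pool.Agent.H49.Ent.cond F.p A True) (F.X x) F.W =
        H (Pool.Agent.H49.Ent.cond F.p A True) (fun ω => (F.X x ω, F.W ω)) -
          H (Pool.Agent.H49.Ent.cond F.p A True) F.W := rfl
    have h5 : CH (Pool.Agent.H49.Ent.cond F.p A True) (F.X J)
        (fun ω => (F.X x ω, F.W ω)) ≤ 2 * ((J - x : ℕ) * Real.log 2) := by
      have := row_ub hq F.x F.W x (J - x)
      rw [show x + (J - x) = J by omega] at this
      exact_mod_cast this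
    have h6 : ((J - x : ℕ) : ℝ) ≤ J := by exact_mod_cast Nat.sub_le J x
    have h7 : ((J - x : ℕ) : ℝ) * Real.log 2 ≤ J * Real.log 2 :=
      mul_le_mul_of_nonneg_right h6 hl2.le
    rw [hB]
    linarith
  have hh' : Rg (Pool.Agent.H49.Ent.cond F.p A True) (fun ω => (F.X J ω, F.T ω)) h (B * J) := by
    refine rg_mono ?_ hh
    refine mul_le_mul_of_nonneg_right ?_ (by linarith)
    rw [hB]
    linarith
  obtain ⟨cl, bad, hbad, hreg⟩ := hM J hJ1 F.Ω _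
    (fun _ => (Fin 2 → ℤ) × (ℕ × F.ζ)) _ hq _ h hh'
    (fun i ω => (F.X ((i : ℕ) * (J / N)) ω, F.W ω)) hdet hH
  refine ⟨cl, bad, hbad, fun k hk hlaw s hs => ?_⟩
  have hM0 : 0 < M := Fin.pos bad
  have hM0r : (0 : ℝ) < M := by exact_mod_cast hM0
  have h1 : Real.exp (-(η / 2 * J)) ≤ law (Pool.Agent.H49.Ent.cond F.p A True) cl k := by
    refine le_trans ?_ hlaw
    rw [← Real.le_log_iff_exp_le (by positivity)]
    have := hJ₂.le.trans hJ2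
    rw [div_le_iff₀ (by positivity)] at this
    linarith
  obtain ⟨h', hh2⟩ := hreg k hk h1 ⟨s, by omega⟩
  have hA0 : Pe F.p A ≠ 0 := (lt_of_lt_of_le (Real.exp_pos _) hS.2).ne'
  refine ⟨h', ?_⟩
  rw [← Piece.cond_inter (A := A) (B := fun ω => cl ω = k) hA0, Piece.cond_val]
  have e1 : 2 * (η / 2) * J = η * J := by ring
  rw [e1] at hh2
  exact hh2

/-- **(ENGR)** (ENG) for regular rows. -/
def ENGRStmt (S : FCl 2) : Prop :=
  ∀ a R : ℝ, 1 < a → 0 < R → GW S a R → ∀ c e μ h₁ ω₀ : ℝ, 0 < c → 0 < e → 0 < μ → 0 < h₁ →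
    0 < ω₀ → ∃ N₁ : ℕ, ∀ N ≥ N₁, ∃ η : ℝ, 0 < η ∧ ∀ (i₀ : Fin 2) (p₁ p₂ j : ℕ), p₁ ≤ p₂ →
    p₂ ≤ N → e * N ≤ (p₂ : ℝ) - p₁ → j ≤ p₁ → 1 ≤ j → ω₀ * N ≤ (p₁ : ℝ) - j →
    Claim S (fun J F A => RowsReg N η F A →
      Zn F c (p₁ * (J / N)) (p₂ * (J / N)) A →
      Lb F i₀ ⌊h₁ * J⌋₊ A →
      (∀ h : ℕ, (h : ℝ) ≤ ((p₂ : ℝ) - p₁ + j) * (J / N : ℕ) + μ * J → Ln F i₀ h A) →
      (∀ i < j, Cn F i₀ (i * (J / N)) ((p₁ - i) * (J / N)) A) →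
      Cn F i₀ (j * (J / N)) ((p₁ - j) * (J / N)) A)

theorem eng_of_engr (hE : ENGRStmt S) : ENGStmt S := by
  classical
  intro a R ha hR hU c₀ e μ h₁ ω₀ hc₀ he hμ hh₁ hω₀
  have hl2 : 0 < Real.log 2 := Real.log_pos (by norm_num)
  obtain ⟨c, hc⟩ : ∃ c, c = min c₀ 1 := ⟨_, rfl⟩
  have hc0 : 0 < c := by rw [hc]; exact lt_min hc₀ one_pos
  have hcc : c ≤ c₀ := by rw [hc]; exact min_le_left _ _
  have hc1 : c ≤ 1 := by rw [hc]; exact min_le_right _ _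
  obtain ⟨N₁, hE⟩ := hE a R ha hR hU (c / 2) e μ h₁ ω₀ (half_pos hc0) he hμ hh₁ hω₀
  refine ⟨max N₁ 1, fun N hN i₀ p₁ p₂ j hp12 hp2N hep hjp hj1 hωp => ?_⟩
  have hN1 : N₁ ≤ N := (le_max_left _ _).trans hN
  have hN0 : 0 < N := (le_max_right _ _).trans hN
  have hN0r : (0 : ℝ) < N := by exact_mod_cast hN0
  obtain ⟨η, hη, hE⟩ := hE N hN1
  have hE := hE i₀ p₁ p₂ j hp12 hp2N hep hjp hj1 hωp
  obtain ⟨ζ, hζ⟩ : ∃ ζ, ζ = c / 16 := ⟨_, rfl⟩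
  have hζ0 : 0 < ζ := by rw [hζ]; positivity
  obtain ⟨M, τ, hτ, J₁, hreg⟩ := reg_part S N hη hζ0
  rcases Nat.eq_zero_or_pos M with hM | hM
  · refine Claim.of hτ J₁ fun J hJ F A hS => ?_
    obtain ⟨cl, bad, -⟩ := hreg J hJ F A hS
    rw [hM] at bad
    exact bad.elim0
  have hMr : (0 : ℝ) < M := by exact_mod_cast hM
  have hMr1 : (1 : ℝ) ≤ M := by exact_mod_cast hM
  have hρ : 0 < ζ / M := by positivity
  have hρ1 : ζ / M ≤ 1 := by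
    rw [div_le_one hMr, hζ]
    linarith
  have hR' : Claim S (fun J F A => ∃ (cl : F.Ω → Fin M) (bad : Fin M),
      law (Pool.Agent.H49.Ent.cond F.p A True) cl bad ≤ ζ ∧
      ∀ k ≠ bad, ζ / M ≤ law (Pool.Agent.H49.Ent.cond F.p A True) cl k →
        RowsReg N η F (fun ω => A ω ∧ cl ω = k)) :=
    Claim.of hτ J₁ fun J hJ F A hS => hreg J hJ F A hS
  have hL : Claim S (fun J F A => IsLaw (Pool.Agent.H49.Ent.cond F.p A True) ∧
      0 < Pe F.p A) := by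
    refine Claim.of one_pos 0 fun J _ F A hS => ?_
    obtain ⟨h, -⟩ := St_res zero_le_one hS
    exact ⟨h, lt_of_lt_of_le (Real.exp_pos _) hS.2⟩
  -- stability of the conclusion
  have hC : Claim S (fun J F A => ∀ A' : F.Ω → Prop, Sub A' A →
      ζ / M * Pe F.p A ≤ Pe F.p A' → Cn F i₀ (j * (J / N)) ((p₁ - j) * (J / N)) A' →
      Cn F i₀ (j * (J / N)) ((p₁ - j) * (J / N)) A) := by
    obtain ⟨J₂, hJ₂⟩ := exists_nat_gt (-Real.log (ζ / M) / 1)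
    refine ⟨1, ⟨1, fun J F _ => Cn F i₀ (j * (J / N)) ((p₁ - j) * (J / N)),
      fun J F _ => RotU.hered _ _ _ _ _ _⟩, fun κ hκ => ?_⟩
    obtain ⟨J₂, hJ₂⟩ := exists_nat_gt (-Real.log (ζ / M) / κ)
    refine ⟨1, one_pos, J₂, fun J hJ F A _ hSb A' hA' hP hCn => ?_⟩
    refine (hSb 0).of_sub hA' (le_trans ?_ hP) hCn
    refine mul_le_mul_of_nonneg_right ?_ (Pe_nonneg F.isLaw A)
    rw [← Real.le_log_iff_exp_le hρ]
    have hJr : (J₂ : ℝ) ≤ J := by exact_mod_cast hJ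
    have := hJ₂.le.trans hJr
    rw [div_le_iff₀ hκ] at this
    linarith
  refine Claim.mono N ?_ (((hE.evp hρ).and hR').and (hL.and hC))
  rintro J hJ F A ⟨⟨hE, cl, bad, hbad, hreg⟩, ⟨hq, hA0⟩, hC⟩ hZn hLb hLn hhist
  obtain ⟨u, hu⟩ : ∃ u, u = J / N := ⟨_, rfl⟩
  have hu0 : 0 < u := by rw [hu]; exact Nat.div_pos hJ hN0
  have hur : (0 : ℝ) < u := by exact_mod_cast hu0
  have hpp : (0 : ℝ) < (p₂ : ℝ) - p₁ := lt_of_lt_of_le (by positivity) hep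
  rw [← hu] at hE hZn hLn hhist hC ⊢
  have hLL : 0 < ((p₂ * u : ℕ) : ℝ) - (p₁ * u : ℕ) := by
    push_cast
    have := mul_pos hpp hur
    linarith
  -- the part
  have hsum := Pool.KSAT.RES2.CH_sum hq.nonneg (F.X (p₂ * u))
    (fun ω => (F.X (p₁ * u) ω, F.W ω)) cl
  have hmono : CH (Pool.Agent.H49.Ent.cond F.p A True) (F.X (p₂ * u))
      (fun ω => (cl ω, (F.X (p₁ * u) ω, F.W ω))) ≤
      CH (Pool.Agent.H49.Ent.cond F.p A True) (F.X (p₂ * u))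
        (fun ω => (F.X (p₁ * u) ω, F.W ω)) :=
    CH_mono_cond hq.nonneg fun ω ω' _ _ e => (Prod.ext_iff.mp e).2
  have hsum' : ∑ k : Fin M, law (Pool.Agent.H49.Ent.cond F.p A True) cl k *
      CH (Pool.Agent.H49.Ent.cond (Pool.Agent.H49.Ent.cond F.p A True) cl k) (F.X (p₂ * u))
        (fun ω => (F.X (p₁ * u) ω, F.W ω)) ≤
      (2 - c) * ((((p₂ * u : ℕ) : ℝ) - (p₁ * u : ℕ)) * Real.log 2) := by
    have h3 : ∑ k ∈ univ.image cl, law (Pool.Agent.H49.Ent.cond F.p A True) cl k *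
        CH (Pool.Agent.H49.Ent.cond (Pool.Agent.H49.Ent.cond F.p A True) cl k) (F.X (p₂ * u))
          (fun ω => (F.X (p₁ * u) ω, F.W ω)) =
        ∑ k : Fin M, law (Pool.Agent.H49.Ent.cond F.p A True) cl k *
        CH (Pool.Agent.H49.Ent.cond (Pool.Agent.H49.Ent.cond F.p A True) cl k) (F.X (p₂ * u))
          (fun ω => (F.X (p₁ * u) ω, F.W ω)) := by
      refine Finset.sum_subset (Finset.subset_univ _) fun k _ hk => ?_
      rw [law_eq_zero_of_notMem _ cl hk, zero_mul]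
    rw [← h3, ← hsum]
    refine hmono.trans (hZn.trans ?_)
    refine mul_le_mul_of_nonneg_right (by linarith) (by positivity)
  have hone : ∑ k : Fin M, law (Pool.Agent.H49.Ent.cond F.p A True) cl k = 1 := by
    rw [← hq.sum_one, ← sum_law (Pool.Agent.H49.Ent.cond F.p A True) cl]
    refine (Finset.sum_subset (Finset.subset_univ _) fun k _ hk => ?_).symm
    exact law_eq_zero_of_notMem _ cl hk
  obtain ⟨k, hk1, hk2, hk3⟩ := exists_small_term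
    (w := fun k => law (Pool.Agent.H49.Ent.cond F.p A True) cl k)
    (x := fun k => CH (Pool.Agent.H49.Ent.cond (Pool.Agent.H49.Ent.cond F.p A True) cl k)
      (F.X (p₂ * u)) (fun ω => (F.X (p₁ * u) ω, F.W ω)))
    (bad := bad) (c := c) (ζ := ζ) (fun k => law_nonneg hq.nonneg cl k)
    (fun k => CH_nonneg (cond_nonneg hq.nonneg cl k) _ _) hone hc0 hc1 hζ
    (mul_pos hLL hl2) hbad hsum'
  have hsub : Sub (fun ω => A ω ∧ cl ω = k) A := fun ω h => h.1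
  have hPe : ζ / M * Pe F.p A ≤ Pe F.p (fun ω => A ω ∧ cl ω = k) := by
    have h1 : Pe (Pool.Agent.H49.Ent.cond F.p A True) (fun ω => cl ω = k) =
        Pe F.p (fun ω => A ω ∧ cl ω = k) / Pe F.p A := Pe_cond _
    rw [Piece.law_val] at h1
    have h2 : ζ / M ≤ Pe F.p (fun ω => A ω ∧ cl ω = k) / Pe F.p A := by
      rw [← h1]; exact hk2
    rwa [le_div_iff₀ hA0] at h2
  refine hC _ hsub hPe (hE _ hsub hPe (hreg k hk1 hk2) ?_ (Lb.hered F i₀ _ _ _ hsub hLb)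
    (fun h hh => LineU.hered _ _ _ _ _ _ hsub (hLn h hh))
    (fun i hi => RotU.hered _ _ _ _ _ _ _ _ hsub (hhist i hi)))
  show CH (Pool.Agent.H49.Ent.cond F.p (fun ω => A ω ∧ cl ω = k) True) (F.X (p₂ * u))
    (fun ω => (F.X (p₁ * u) ω, F.W ω)) ≤ _
  rw [← Piece.cond_inter (A := A) (B := fun ω => cl ω = k) hA0.ne', Piece.cond_val]
  exact hk3

theorem engr_thm (hMNJ : MNJStmt S) (hMIC : MICRStmt S) : ENGRStmt S := by
  classical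
  intro a R ha hR hU c₀ e μ h₁ ω₀ hc₀ he hμ hh₁ hω₀
  have hl2 : 0 < Real.log 2 := Real.log_pos (by norm_num)
  obtain ⟨c, hc⟩ : ∃ c, c = min c₀ 1 := ⟨_, rfl⟩
  have hc0 : 0 < c := by rw [hc]; exact lt_min hc₀ one_pos
  have hcc : c ≤ c₀ := by rw [hc]; exact min_le_left _ _
  have hc1 : c ≤ 1 := by rw [hc]; exact min_le_right _ _
  obtain ⟨ω₁, hω₁⟩ : ∃ ω₁, ω₁ = min ω₀ (c * e / 16) := ⟨_, rfl⟩
  have hω₁0 : 0 < ω₁ := by rw [hω₁]; exact lt_min hω₀ (by positivity)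
  have hω₁ω : ω₁ ≤ ω₀ := by rw [hω₁]; exact min_le_left _ _
  have hω₁c : ω₁ ≤ c * e / 16 := by rw [hω₁]; exact min_le_right _ _
  have hmnj := hMNJ a R ha hR hU
  obtain ⟨θ₀, hθ₀, hmic⟩ := hMIC a R ha hR hU (c / 4) μ h₁ ω₁ (by linarith) hμ hh₁ hω₁0
  obtain ⟨θ, hθe⟩ : ∃ θ, θ = min θ₀ 1 := ⟨_, rfl⟩
  have hθ : 0 < θ := by rw [hθe]; exact lt_min hθ₀ one_pos
  have hθθ : θ ≤ θ₀ := by rw [hθe]; exact min_le_left _ _
  have hθ1 : θ ≤ 1 := by rw [hθe]; exact min_le_right _ _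
  obtain ⟨ρ, hρ, hρ1, htwo⟩ := two_scale (c / 2) (θ / 2) (by linarith) (by linarith)
  obtain ⟨e', he'⟩ : ∃ e', e' = ρ * (e / 2) := ⟨_, rfl⟩
  have he'0 : 0 < e' := by rw [he']; positivity
  obtain ⟨N₁, hmic⟩ := hmic e' he'0
  obtain ⟨η, hη⟩ : ∃ η, η = c * θ * e' / 32 := ⟨_, rfl⟩
  have hη0 : 0 < η := by rw [hη]; positivity
  obtain ⟨N₂, hmnj⟩ := hmnj η μ h₁ ω₁ hη0 hμ hh₁ hω₁0
  obtain ⟨N₃, hN₃⟩ := exists_nat_gt (32 / (c * e) + 2 / (θ * e') + 1)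
  refine ⟨max N₁ (max N₂ N₃), fun N hN => ?_⟩
  have hN1 : N₁ ≤ N := (le_max_left _ _).trans hN
  have hN2 : N₂ ≤ N := (le_max_left _ _).trans ((le_max_right _ _).trans hN)
  have hN3 : N₃ ≤ N := (le_max_right _ _).trans ((le_max_right _ _).trans hN)
  have hNr : 32 / (c * e) + 2 / (θ * e') + 1 < N :=
    hN₃.trans_le (by exact_mod_cast hN3)
  have q2 : 0 < 32 / (c * e) := by positivity
  have q3 : 0 < 2 / (θ * e') := by positivity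
  have hNpos : (0 : ℝ) < N := by linarith
  have hN0 : 0 < N := by exact_mod_cast hNpos
  have r2 : 32 ≤ c * e * N := by
    have : 32 / (c * e) ≤ N := by linarith
    rw [div_le_iff₀ (by positivity)] at this
    linarith
  have r3 : 2 ≤ θ * e' * N := by
    have : 2 / (θ * e') ≤ N := by linarith
    rw [div_le_iff₀ (by positivity)] at this
    linarith
  obtain ⟨ηR, hηR, hmic⟩ := hmic N hN1
  refine ⟨ηR, hηR, fun i₀ p₁ p₂ j hp12 hp2N hep hjp hj1 hωp => ?_⟩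
  -- the zone without its top
  obtain ⟨k, hk⟩ : ∃ k, k = ⌊c / 8 * ((p₂ : ℝ) - p₁)⌋₊ := ⟨_, rfl⟩
  have hp12r : 0 < (p₂ : ℝ) - p₁ := lt_of_lt_of_le (by positivity) hep
  have hk1 : (k : ℝ) ≤ c / 8 * ((p₂ : ℝ) - p₁) := by
    rw [hk]; exact Nat.floor_le (by positivity)
  have hk2 : c / 8 * ((p₂ : ℝ) - p₁) < k + 1 := by rw [hk]; exact Nat.lt_floor_add_one _
  have hk3 : k ≤ p₂ := by
    have h1 : (k : ℝ) ≤ p₂ := by
      have : c / 8 * ((p₂ : ℝ) - p₁) ≤ 1 * ((p₂ : ℝ) - p₁) :=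
        mul_le_mul_of_nonneg_right (by linarith) hp12r.le
      have : (0 : ℝ) ≤ p₁ := Nat.cast_nonneg _
      linarith
    exact_mod_cast h1
  obtain ⟨p₃, hp₃⟩ : ∃ p₃, p₃ = p₂ - k := ⟨_, rfl⟩
  have hp₃r : (p₃ : ℝ) = p₂ - k := by rw [hp₃, Nat.cast_sub hk3]
  have hp13 : ((p₂ : ℝ) - p₁) / 2 ≤ (p₃ : ℝ) - p₁ := by
    rw [hp₃r]
    have : c / 8 * ((p₂ : ℝ) - p₁) ≤ 1 / 8 * ((p₂ : ℝ) - p₁) :=
      mul_le_mul_of_nonneg_right (by linarith) hp12r.le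
    linarith
  have hp13' : p₁ < p₃ := by
    have : (p₁ : ℝ) < p₃ := by linarith
    exact_mod_cast this
  have hp32 : p₃ ≤ p₂ := by rw [hp₃]; exact Nat.sub_le _ _
  have hω₁p : ∀ t : ℕ, t ≤ p₃ → ω₁ * N ≤ (N : ℝ) - t := by
    intro t ht
    have h1 : (t : ℝ) ≤ p₃ := by exact_mod_cast ht
    have h2 : (p₂ : ℝ) ≤ N := by exact_mod_cast hp2N
    have h3 : c / 8 * (e * N) ≤ c / 8 * ((p₂ : ℝ) - p₁) :=
      mul_le_mul_of_nonneg_left hep (by positivity)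
    have h4 : ω₁ * N ≤ c * e / 16 * N := mul_le_mul_of_nonneg_right hω₁c hNpos.le
    nlinarith
  have hωp' : ω₁ * N ≤ (p₁ : ℝ) - j := by
    refine le_trans (mul_le_mul_of_nonneg_right hω₁ω hNpos.le) hωp
  -- the claims
  have hA : Claim S (fun J F A => ∀ x : Fin (N + 1) × Fin (N + 1) × Fin (N + 1),
      ((x.1 : ℕ) ≤ x.2.1 ∧ (x.2.1 : ℕ) ≤ x.2.2 ∧ (x.1 : ℕ) + 1 ≤ x.2.2 ∧
        ω₁ * N ≤ ((x.1 : ℕ) : ℝ) ∧ ω₁ * N ≤ (N : ℝ) - ((x.2.2 : ℕ) : ℝ)) →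
      Lb F i₀ ⌊h₁ * J⌋₊ A →
      (∀ h : ℕ, (h : ℝ) ≤ (((x.2.2 : ℕ) : ℝ) - ((x.1 : ℕ) : ℝ)) * (J / N : ℕ) + μ * J →
        Ln F i₀ h A) →
      Cn F i₀ (((x.2.2 : ℕ) - ((x.1 : ℕ) + 1)) * (J / N)) (((x.1 : ℕ) + 1) * (J / N)) A →
      ¬ Cn F i₀ (((x.2.1 : ℕ) - (x.1 : ℕ)) * (J / N)) ((x.1 : ℕ) * (J / N)) A →
      (2 * (((x.2.2 : ℕ) : ℝ) - ((x.2.1 : ℕ) : ℝ)) - η * N) *
          ((J / N : ℕ) * Real.log 2) ≤
        CH (Pool.Agent.H49.Ent.cond F.p A True) (F.X ((x.2.2 : ℕ) * (J / N)))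
          (fun ω => (F.X ((x.2.1 : ℕ) * (J / N)) ω, F.W ω))) := by
    refine Claim.finite fun x => Claim.cnd fun hx => ?_
    exact hmnj N hN2 i₀ (x.1 : ℕ) (x.2.1 : ℕ) (x.2.2 : ℕ) hx.1 hx.2.1 hx.2.2.1
      hx.2.2.2.1 hx.2.2.2.2
  obtain ⟨ext, hext⟩ : ∃ ext : (Fin (N + 1) → Fin (N + 2)) → ℕ → ℕ, ext = fun g w =>
      if h : w < N + 1 then ((g ⟨w, h⟩ : Fin (N + 2)) : ℕ) else 0 := ⟨_, rfl⟩
  have hB : Claim S (fun J F A => ∀ x : (Fin (N + 1) × Fin (N + 1)) ×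
      (Fin (N + 1) × Fin (N + 1)) × (Fin (N + 1) → Fin (N + 2)),
      (e' * N ≤ (((x.1.2 : ℕ) : ℝ)) - ((x.1.1 : ℕ) : ℝ) ∧ ω₁ * N ≤ (((x.2.1.1 : ℕ) : ℝ)) ∧
        (x.2.1.1 : ℕ) ≤ x.2.1.2 ∧ ω₁ * N ≤ (N : ℝ) - ((x.1.2 : ℕ) : ℝ) ∧
        (∀ w, (x.2.1.1 : ℕ) ≤ w → w ≤ (x.2.1.2 : ℕ) →
          (x.1.1 : ℕ) ≤ w + ext x.2.2 w ∧ w + ext x.2.2 w ≤ (x.1.2 : ℕ)) ∧
        (∀ w, (x.2.1.1 : ℕ) ≤ w → w < (x.2.1.2 : ℕ) → ext x.2.2 w ≤ ext x.2.2 (w + 1) ∧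
          (ext x.2.2 (w + 1) : ℝ) ≤ ext x.2.2 w +
            θ₀ * ((((x.1.2 : ℕ) : ℝ)) - ((x.1.1 : ℕ) : ℝ))) ∧
        ((x.2.1.1 : ℕ) : ℝ) + ext x.2.2 (x.2.1.1 : ℕ) ≤ ((x.1.1 : ℕ) : ℝ) +
          θ₀ * ((((x.1.2 : ℕ) : ℝ)) - ((x.1.1 : ℕ) : ℝ)) ∧
        ((x.1.2 : ℕ) : ℝ) - θ₀ * ((((x.1.2 : ℕ) : ℝ)) - ((x.1.1 : ℕ) : ℝ)) ≤
          ((x.2.1.2 : ℕ) : ℝ) + ext x.2.2 (x.2.1.2 : ℕ)) →
      RowsReg N ηR F A →
      (∀ s t : ℕ, (x.1.1 : ℕ) ≤ s → t ≤ (x.1.2 : ℕ) →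
        θ₀ * ((((x.1.2 : ℕ) : ℝ)) - ((x.1.1 : ℕ) : ℝ)) ≤ (t : ℝ) - s →
        CH (Pool.Agent.H49.Ent.cond F.p A True) (F.X (t * (J / N)))
          (fun ω => (F.X (s * (J / N)) ω, F.W ω)) ≤
        (2 - c / 4) * (((t : ℝ) - s) * ((J / N : ℕ) * Real.log 2))) →
      Lb F i₀ ⌊h₁ * J⌋₊ A →
      (∀ h : ℕ, (h : ℝ) ≤ (((x.1.2 : ℕ) : ℝ) - ((x.2.1.1 : ℕ) : ℝ)) * (J / N : ℕ) + μ * J →
        Ln F i₀ h A) →
      (∀ w, (x.2.1.1 : ℕ) ≤ w → w ≤ (x.2.1.2 : ℕ) →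
        Cn F i₀ (ext x.2.2 w * (J / N)) (w * (J / N)) A ∧
        ¬ Cn F i₀ ((ext x.2.2 w + 1) * (J / N)) (w * (J / N)) A) → False) := by
    refine Claim.finite fun x => Claim.cnd fun hx => ?_
    obtain ⟨x1, x2, x3, x4, x5, x6, x7, x8⟩ := hx
    exact hmic i₀ (x.1.1 : ℕ) (x.1.2 : ℕ) (x.2.1.1 : ℕ) (x.2.1.2 : ℕ) (ext x.2.2)
      x1 x2 x3 x4 x5 x6 x7 x8
  -- the large event
  have hL : Claim S (fun J F A => IsLaw (Pool.Agent.H49.Ent.cond F.p A True)) := by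
    refine Claim.of one_pos 0 fun J _ F A hS => ?_
    obtain ⟨h, -⟩ := St_res zero_le_one hS
    exact h
  refine Claim.mono N ?_ ((hA.and hB).and hL)
  rintro J hJ F A ⟨⟨hA, hB⟩, hq⟩ hReg hZn hLb hLn hhist
  by_contra hcon
  obtain ⟨u, hu⟩ : ∃ u, u = J / N := ⟨_, rfl⟩
  have hu0 : 0 < u := by rw [hu]; exact Nat.div_pos hJ hN0
  have hu1 : N * u ≤ J := by rw [hu]; exact Nat.mul_div_le J N
  have hur : (0 : ℝ) < u := by exact_mod_cast hu0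
  rw [← hu] at hA hB hZn hLn hhist hcon
  have hUL : (0 : ℝ) < u * Real.log 2 := by positivity
  have hbd := rowf_bd F A hq hu0
  -- the deficit of the zone without its top
  have hzone : rowf F A u p₃ - rowf F A u p₁ ≤ (2 - c / 2) * ((p₃ : ℝ) - p₁) := by
    have h1 := (hbd p₃ p₂ hp32).1
    have h2 := rowf_eq F A hq hu0 hp12
    have h3 : rowf F A u p₂ - rowf F A u p₁ ≤ (2 - c₀) * ((p₂ : ℝ) - p₁) := by
      refine le_of_mul_le_mul_right ?_ hUL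
      rw [h2]
      refine hZn.trans (le_of_eq ?_)
      push_cast
      ring
    have h4 : (2 - c₀) * ((p₂ : ℝ) - p₁) ≤ (2 - c) * ((p₂ : ℝ) - p₁) :=
      mul_le_mul_of_nonneg_right (by linarith) hp12r.le
    have h5 : (p₂ : ℝ) - p₁ = ((p₃ : ℝ) - p₁) + k := by rw [hp₃r]; ring
    have h6 : (2 - c) * ((p₂ : ℝ) - p₁) = (2 - c) * ((p₃ : ℝ) - p₁) + (2 - c) * k := by
      rw [h5]; ring
    have h7 : (2 - c) * (k : ℝ) ≤ 2 * k :=
      mul_le_mul_of_nonneg_right (by linarith) (Nat.cast_nonneg k)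
    have h8 : (k : ℝ) ≤ c / 4 * ((p₃ : ℝ) - p₁) := by
      refine hk1.trans ?_
      have : c / 8 * ((p₂ : ℝ) - p₁) ≤ c / 8 * (2 * ((p₃ : ℝ) - p₁)) :=
        mul_le_mul_of_nonneg_left (by linarith) (by positivity)
      linarith
    linarith
  obtain ⟨pa, pb, hpa1, hpab, hpb1, hlen, hsub⟩ := htwo p₁ p₃ (rowf F A u) hp13' hbd hzone
  have hpabr : (0 : ℝ) < (pb : ℝ) - pa := by
    have : (pa : ℝ) < pb := by exact_mod_cast hpab
    linarith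
  have hlen' : e' * N ≤ (pb : ℝ) - pa := by
    refine le_trans ?_ hlen
    rw [he']
    have : ρ * (e / 2 * N) ≤ ρ * ((p₃ : ℝ) - p₁) :=
      mul_le_mul_of_nonneg_left (by linarith) hρ.le
    linarith
  have hpbN : pb ≤ N := by omega
  have hpos : 0 < c * θ * e' * N := by positivity
  -- the crossing
  obtain ⟨δ, hδ⟩ : ∃ δ, δ = θ / 2 * ((pb : ℝ) - pa) := ⟨_, rfl⟩
  have hδ1 : δ ≤ (pb : ℝ) - pa := by
    rw [hδ]
    have : θ / 2 * ((pb : ℝ) - pa) ≤ 1 * ((pb : ℝ) - pa) :=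
      mul_le_mul_of_nonneg_right (by linarith) hpabr.le
    linarith
  have hδ2 : δ + 1 ≤ θ * ((pb : ℝ) - pa) := by
    rw [hδ]
    have : θ * (e' * N) ≤ θ * ((pb : ℝ) - pa) := mul_le_mul_of_nonneg_left hlen' hθ.le
    linarith
  have hLn' : ∀ v t : ℕ, p₁ - j ≤ v → t ≤ p₂ →
      ∀ h : ℕ, (h : ℝ) ≤ ((t : ℝ) - v) * u + μ * J → Ln F i₀ h A := by
    intro v t hv ht h hh
    refine hLn h (hh.trans ?_)
    have h1 : (t : ℝ) - v ≤ (p₂ : ℝ) - p₁ + j := by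
      have h2 : ((p₁ - j : ℕ) : ℝ) ≤ v := by exact_mod_cast hv
      rw [Nat.cast_sub hjp] at h2
      have h3 : (t : ℝ) ≤ p₂ := by exact_mod_cast ht
      linarith
    have := mul_le_mul_of_nonneg_right h1 hur.le
    linarith
  have hcross := crossing (fun l w => Cn F i₀ (l * u) (w * u) A) (w₀ := p₁ - j) (pa := pa)
    (pb := pb) (δ := δ)
    (fun w => by simpa using hLb.cn (w * u))
    (fun l l' w hl h => h.mono (Nat.mul_le_mul_right u hl))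
    (fun l w w' hw hw' h => h.mono_w (Nat.mul_le_mul_right u hw)
      ((Nat.mul_le_mul_right u (hw'.trans hpbN)).trans hu1))
    (by omega) hpab.le hδ1
    (fun h => hcon (h.mono (Nat.mul_le_mul_right u (by omega))))
    (fun w s t hw hws hst hwt hpas htpb hQ1 hQ2 => by
      by_contra hc2
      push Not at hc2
      have hv : ω₁ * N ≤ (w : ℝ) := by
        refine hωp'.trans ?_
        have : ((p₁ - j : ℕ) : ℝ) ≤ w := by exact_mod_cast hw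
        rw [Nat.cast_sub hjp] at this
        exact this
      have h1 := hA (⟨w, by omega⟩, ⟨s, by omega⟩, ⟨t, by omega⟩)
        ⟨hws, hst, hwt, hv, hω₁p t (by omega)⟩ hLb
        (hLn' w t hw (by omega)) hQ1 hQ2
      have h2 := rowf_eq F A hq hu0 hst
      have h3 := hsub s t hpas htpb (by rw [← hδ]; exact hc2)
      have h4 : (2 * ((t : ℝ) - s) - η * N) ≤ rowf F A u t - rowf F A u s := by
        refine le_of_mul_le_mul_right ?_ hUL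
        rw [h2]
        exact h1
      refine jump_arith (c := c) (θ := θ) (n := (pb : ℝ) - pa) (k := (t : ℝ) - s)
        (N := N) (e := e') (η := η) hc0 hθ hlen' hη (by rw [← hδ]; exact hc2) h4 ?_ hpos
      refine h3.trans (le_of_eq ?_)
      ring)
  obtain ⟨wa, wb, lam, k1, k2, k3, k4, k5, k6, k7, k8, k9⟩ := hcross
  -- the engine
  obtain ⟨g, hg⟩ : ∃ g : Fin (N + 1) → Fin (N + 2), g = fun w =>
      ⟨lam w, by have := k4 w; omega⟩ := ⟨_, rfl⟩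
  have hext' : ∀ w, w ≤ N → ext g w = lam w := by
    intro w hw
    rw [hext, hg]
    simp only
    rw [dif_pos (by omega)]
  have hth : θ * ((pb : ℝ) - pa) ≤ θ₀ * ((pb : ℝ) - pa) :=
    mul_le_mul_of_nonneg_right hθθ hpabr.le
  refine hB ((⟨pa, by omega⟩, ⟨pb, by omega⟩), (⟨wa, by omega⟩, ⟨wb, by omega⟩), g)
    ⟨hlen', ?_, k2, hω₁p pb hpb1, ?_, ?_, ?_, ?_⟩ hReg ?_ hLb ?_ ?_
  · refine hωp'.trans ?_
    have : ((p₁ - j : ℕ) : ℝ) ≤ wa := by exact_mod_cast k1.le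
    rw [Nat.cast_sub hjp] at this
    exact this
  · intro w h1 h2
    rw [hext' w (by simp only at h2; omega)]
    exact k5 w h1 h2
  · intro w h1 h2
    rw [hext' w (by simp only at h2; omega), hext' (w + 1) (by simp only at h2; omega)]
    obtain ⟨h3, h4⟩ := k6 w h1 h2
    refine ⟨h3, h4.trans ?_⟩
    show (lam w : ℝ) + δ ≤ lam w + θ₀ * ((pb : ℝ) - pa)
    linarith
  · show (wa : ℝ) + ext g wa ≤ pa + θ₀ * ((pb : ℝ) - pa)
    rw [hext' wa (by omega)]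
    linarith
  · show (pb : ℝ) - θ₀ * ((pb : ℝ) - pa) ≤ wb + ext g wb
    rw [hext' wb (by omega)]
    linarith
  · intro s t hs ht hst
    have hst' : θ₀ * ((pb : ℝ) - pa) ≤ (t : ℝ) - s := hst
    have h0 : (s : ℝ) ≤ t := by
      have : 0 ≤ θ₀ * ((pb : ℝ) - pa) := by positivity
      linarith
    have h0' : s ≤ t := by exact_mod_cast h0
    have h1 := hsub s t hs ht (by
      have : θ / 2 * ((pb : ℝ) - pa) ≤ θ * ((pb : ℝ) - pa) :=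
        mul_le_mul_of_nonneg_right (by linarith) hpabr.le
      linarith)
    rw [← rowf_eq F A hq hu0 h0']
    have h2 : (2 - c / 2 / 2) * ((t : ℝ) - s) = (2 - c / 4) * ((t : ℝ) - s) := by ring
    rw [h2] at h1
    have := mul_le_mul_of_nonneg_right h1 hUL.le
    linarith
  · intro h hh
    exact hLn' wa pb k1.le (by omega) h hh
  · intro w h1 h2
    rw [hext' w (by simp only at h2; omega)]
    exact k9 w h1 h2

/-- (ENG) from one nonfull row, the slopes and the crossing for regular rows. -/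
theorem eng_of_mics (h1 : MNJ1Stmt S) (hS : MICSStmt S) : ENGStmt S :=
  eng_of_engr (engr_thm (mnj_thm h1) (micr_of_mics (lip_thm h1)
    (plcx_thm S) hS))

end Pool.K2S.G
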