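import Pool.Agent.H13.K2S.OcAsm
import Pool.Agent.H13.EG.OcFam

/-!
# The engine for a general class (H13.K2S.OcAsm)
-/

set_option autoImplicit false

namespace Pool.K2S.G

open Finset Real
open Pool.Agent.H49.Ent Pool.Agent.H32.Dense Pool.STK Pool.KA Pool.KSAT
open Pool.K2S Pool.PB Pool.LK

variable {S : FCl 2}

/-- **(FRM)** (helper64). Frames, windows and slopes are functions on the stable event itself.
From FLC (`flc_thm`), (FLT), (WS) at `q = 0` in the windows `w + q`, (NFZ) and the spread of the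
fans; the property `∃ f n z φ, Frs ..` is hereditary, it is put into the outermost list. -/
def FRMStmt (S : FCl 2) : Prop :=
  ∀ a R : ℝ, 1 < a → 0 < R → GW S a R → ∀ c μ h₁ : ℝ, 0 < c → 0 < μ → 0 < h₁ →
    ∀ (N s q₀ K pb wa wb : ℕ) (i₀ : Fin 2) (lam Lp : ℕ → ℕ), 0 < N → 1 ≤ s → 1 ≤ q₀ → pb ≤ N →
    (∀ w, wa ≤ w → w ≤ wb → 2 ≤ lam w ∧ w + lam w ≤ pb) →
    (∀ w w', wa ≤ w → w ≤ w' → w' ≤ wb → lam w ≤ lam w') →
    (∀ w q, wa ≤ w → w + q ≤ wb → q + lam w ≤ K) →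
    (∀ w q, wa ≤ w → q₀ ≤ q → w + q ≤ wb → lam w - 1 ≤ Lp (q + w + (lam w - 1)) ∧
      ∃ v, w ≤ v ∧ v ≤ w + q ∧ v + lam v + s ≤ q + w + (lam w - 1) ∧
        Lp (q + w + (lam w - 1)) ≤ lam v - 1) →
    Claim S (fun J F A => Lb F i₀ ⌊h₁ * J⌋₊ A →
      (∀ h : ℕ, (h : ℝ) ≤ (K : ℝ) * (J / N : ℕ) + μ * J → Ln F i₀ h A) →
      (∀ w, wa ≤ w → w ≤ wb → Cn F i₀ (lam w * (J / N)) (w * (J / N)) A) →
      (∀ v, wa ≤ v → v ≤ wb → v + lam v + s ≤ pb →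
        CH (Pool.Agent.H49.Ent.cond F.p A True) (F.X ((v + lam v + s) * (J / N)))
          (fun ω => (F.X ((v + lam v) * (J / N)) ω, F.W ω)) ≤
        (2 - c) * ((s : ℝ) * ((J / N : ℕ) * Real.log 2))) →
      ∃ (f n : (Fin 2 → ℤ) × (ℕ × F.ζ) → Fin 2 → ℝ) (z : ℕ → F.Ω → Fin 2 → ℝ)
        (φ : ℕ → ℕ → F.Ω → ℝ),
        Frs F i₀ A (J / N) (K * (J / N)) wa wb q₀ lam Lp f n z φ)

/-- **(TRN)** (helper9). The slopes seen in a context are not constant on a line. -/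
def TRNStmt (S : FCl 2) : Prop :=
  ∀ a R : ℝ, 1 < a → 0 < R → GW S a R → ∀ ε : ℝ, 0 < ε → ∀ (N w q l : ℕ) (i₀ : Fin 2),
    0 < N → 1 ≤ l → q + w + l ≤ N →
    Claim S (fun J F A => ¬ Cn F i₀ ((l + 1) * (J / N)) (w * (J / N)) A →
      ∀ (f n : (Fin 2 → ℤ) × (ℕ × F.ζ) → Fin 2 → ℝ) (z : F.Ω → Fin 2 → ℝ) (φ : F.Ω → ℝ)
        (H L : ℕ), (l + 1) * (J / N) ≤ H → (l + 2) * (J / N) ≤ L → Frm F i₀ A H f n →
      Win F i₀ A f (w * (J / N)) ((l - 1) * (J / N)) z →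
      Slp F i₀ A f (w * (J / N)) (q * (J / N)) ((l - 1) * (J / N)) L z φ →
      Pool.KAF.Pr (dbl (Pool.Agent.H49.Ent.cond F.p A True) (fun ω =>
          (F.l ω, F.qlb (w * (J / N)) (q * (J / N)) ((l - 1) * (J / N)) i₀ z ω)))
        {x | |(2 : ℝ) ^ ((l - 1) * (J / N)) * (φ x.1 - z x.1 (1 - i₀)) -
          2 ^ ((l - 1) * (J / N)) * (φ x.2 - z x.2 (1 - i₀))| < 1 / 2 ^ (3 * (J / N))} ≤ ε)

end Pool.K2S.G
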