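import Pool.Agent.H35.K2S.WS
import Pool.Agent.H64.KS6.WfeA

/-!
# The engine for a general class (H35.K2S.WS)
-/

set_option autoImplicit false

namespace Pool.K2S.G

open Finset Real
open Pool.Agent.H49.Ent Pool.Agent.H32.Dense Pool.STK Pool.KA Pool.KA.Win Pool.KA.TRC Rows FF
open Pool.K2S Pool.PB

/-- **Rows of the chart coordinate in a context**, with constants. -/
theorem ws_full {m : ℕ} (S : FCl m) {η : ℝ} (hη : 0 < η) : ∃ γ : ℝ, 0 < γ ∧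
    ∀ δ κ : ℝ, 0 < κ → ∃ τ > 0, ∃ J₁ : ℕ, ∀ J ≥ J₁, ∀ (F : Fam m J) (A : F.Ω → Prop),
    S.St τ F A → ∀ (i₀ : Fin m) (w q s x1 : ℕ) (σ : Type) (L : F.Ω → σ),
    q + w + s ≤ J → (x1 : ℝ) ≤ γ * J → Stb F.p (κ * J) A (FrzG F i₀ q (q + x1)) →
    ¬ FrzG F i₀ q (q + x1) A → Det F.p (wnd F w) L →
    (∀ B : F.Ω → Prop, Sub B A → 0 < Pe F.p B →
      CH (Pool.Agent.H49.Ent.cond F.p B True) L (ptq F i₀ q) ≤ δ) →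
    s * Real.log 2 - η * J ≤
      CH (Pool.Agent.H49.Ent.cond F.p A True) (fun ω => ⌊(2 : ℝ) ^ (q + w + s) * F.x ω i₀⌋)
        (fun ω => (F.T ω, ((⌊(2 : ℝ) ^ (q + w) * F.x1 w ω i₀⌋, ⌊(2 : ℝ) ^ q * F.d ω i₀⌋),
          (L ω, F.Z ω)))) := by
  obtain ⟨γ, hγ, h⟩ := Pool.S6K.Wfe.ws_cls (m := m) hη
  refine ⟨γ, hγ, fun δ κ hκ => ?_⟩
  obtain ⟨τ, hτ, J₁, h⟩ := h δ κ hκ
  exact ⟨τ, hτ, J₁, fun J hJ F A hS =>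
    h J hJ F A (S.tr hS.1) (S.tm hS.1) (S.rb hS.1) hS.2⟩

end Pool.K2S.G
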