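import Pool.Agent.H35.K2S.WSA
import Pool.Agent.H13.EG.PLS
import Pool.Agent.H13.EG.WS

/-!
# The engine for a general class (H35.K2S.WSA)
-/

set_option autoImplicit false

namespace Pool.K2S.G

open Finset Real
open Pool.Agent.H49.Ent Pool.Agent.H32.Dense Pool.STK Pool.KA Pool.KA.Win Pool.KA.TRC Rows FF
  Pool.KSAT
open Pool.K2S Pool.PB Pool.LK

variable {S : FCl 2}

/-- **(WS), general form.** The rows of the base position are full in the contexts `(w, q)`;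
`x J` is the number of bits after `q` which are not frozen. -/
theorem ws_bits (S : FCl 2) {η : ℝ} (hη : 0 < η) : ∃ γ : ℝ, 0 < γ ∧ ∀ N : ℕ,
    0 < N → ∀ x : ℕ → ℕ, (∀ J : ℕ, (x J : ℝ) ≤ γ * J) → ∀ (i₀ : Fin 2) (w q l : ℕ),
    q + w + l ≤ N →
    Cl S 1 (fun J F A => ¬ Frz F i₀ (q * (J / N)) (q * (J / N) + x J) A →
      ∀ (f n : (Fin 2 → ℤ) × (ℕ × F.ζ) → Fin 2 → ℝ) (z : F.Ω → Fin 2 → ℝ) (H : ℕ),
      (q + l) * (J / N) ≤ H → Frm F i₀ A H f n → Win F i₀ A f (w * (J / N)) (l * (J / N)) z →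
      ∀ P : ℕ, (q + w) * (J / N) ≤ P → P ≤ J →
        ((P : ℝ) - ((q + w) * (J / N) : ℕ)) * Real.log 2 - η * J ≤
          CH (Pool.Agent.H49.Ent.cond F.p A True) (fun ω => ⌊(2 : ℝ) ^ P * F.x ω i₀⌋)
            (fun ω => (F.qlb (w * (J / N)) (q * (J / N)) (l * (J / N)) i₀ z ω, F.T ω))) := by
  obtain ⟨γ, hγ, hfull⟩ := ws_full S hη
  refine ⟨γ, hγ, fun N hN x hx i₀ w q l hqwl => ?_⟩
  refine ⟨⟨1, fun J F _ => FrzG F i₀ (q * (J / N)) (q * (J / N) + x J),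
    fun J F _ => FrzG.hered F i₀ _ _⟩, fun κ hκ => ?_⟩
  obtain ⟨τ, hτ, J₁, h1⟩ := hfull (3 * cc 2) κ hκ
  refine ⟨τ, hτ, J₁, fun J hJ F A hS hSb hnF f n z H hH hFrm hWin P hP hPJ => ?_⟩
  have hp := F.isLaw
  obtain ⟨u, hu⟩ : ∃ u, u = J / N := ⟨_, rfl⟩
  rw [← hu] at hnF hH hWin hP ⊢
  have hu1 : N * u ≤ J := by rw [hu]; exact Nat.mul_div_le J N
  have hqwlu : (q + w + l) * u ≤ J := (Nat.mul_le_mul_right u hqwl).trans hu1
  have e1 : (q + w) * u = q * u + w * u := by ring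
  have e3 : (q + l) * u = q * u + l * u := by ring
  have e4 : (q + w + l) * u = q * u + w * u + l * u := by ring
  rw [e4] at hqwlu
  rw [e3] at hH
  rw [e1] at hP ⊢
  obtain ⟨s, hs⟩ := Nat.exists_eq_add_of_le hP
  have hnF' : ¬ FrzG F i₀ (q * u) (q * u + x J) A := hnF
  have hFs : Stb F.p (κ * J) A (FrzG F i₀ (q * u) (q * u + x J)) := by
    rw [hu]
    exact hSb 0
  have hdet : Det F.p (wnd F (w * u)) (F.qlb (w * u) (q * u) (l * u) i₀ z) := by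
    intro ω ω' _ _ h
    have a1 := Prod.ext_iff.mp h
    have a2 := Prod.ext_iff.mp a1.2
    have hl : F.l ω = F.l ω' := a1.1
    have hT1 : F.T1 (w * u) ω = F.T1 (w * u) ω' := a2.1
    have hZ : F.Z ω = F.Z ω' := a2.2
    have hlu : F.u ω = F.u ω' := (Prod.ext_iff.mp hl).1
    have hld : F.d ω = F.d ω' := (Prod.ext_iff.mp hl).2
    obtain ⟨gz, hgz⟩ := hWin.fn
    have hz : z ω = z ω' := by
      rw [hgz, hgz]
      have : slam F (w * u) ω = slam F (w * u) ω' := by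
        unfold slam
        rw [hl, hT1, hZ]
      rw [this]
    have hx := x1_det F (w * u) hlu hld hT1
    change (((F.T1 (w * u) ω, z ω), (fl (q * u + w * u) (pco (l * u) i₀ (z ω) (F.x1 (w * u) ω)),
      fl (q * u) (pco (l * u) i₀ (z ω) (F.d ω)))), F.Z ω) = (((F.T1 (w * u) ω', z ω'),
      (fl (q * u + w * u) (pco (l * u) i₀ (z ω') (F.x1 (w * u) ω')),
      fl (q * u) (pco (l * u) i₀ (z ω') (F.d ω')))), F.Z ω')
    rw [hT1, hz, hx, hld, hZ]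
  have key := h1 J hJ F A hS i₀ (w * u) (q * u) s (x J) _
    (F.qlb (w * u) (q * u) (l * u) i₀ z) (by omega) (hx J) hFs hnF' hdet (by
      intro B hBA hB0
      have hlB := isLaw_cond hp hB0
      have hpos : ∀ ω, 0 < (F.res B True hlB).p ω → A ω := by
        intro ω hω
        have hω' : 0 < cond F.p B True ω := hω
        have := ((cond_pos_iff hp.nonneg B True ω).1 hω').2
        exact hBA ω (by simpa using this)
      exact qlb_vis (F.res B True hlB) (i₀ := i₀) (w := w * u) (q := q * u) (l := l * u)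
        (H := H) (by omega) (by omega) (f := f) (n := n) (z := z)
        (fun ω hω => hFrm.on ω (hpos ω hω)) (fun ω hω => hFrm.bd ω (hpos ω hω)) hWin.gr hWin.z0
        (fun ω hω => hWin.cl ω (hpos ω hω)))
  have hPs : (P : ℝ) - ((q * u + w * u : ℕ) : ℝ) = s := by
    rw [hs]
    push_cast
    ring
  rw [hPs, hs]
  refine key.trans (CH_mono_cond (cond_nonneg hp.nonneg A True) ?_)
  intro ω ω' _ _ h
  have a1 := Prod.ext_iff.mp h
  have a2 := Prod.ext_iff.mp a1.2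
  have a3 := Prod.ext_iff.mp a2.2
  exact Prod.ext a3.1 a1.1

/-- **(WS)** with the number of bits `⌊γ J⌋`. -/
theorem ws_floor (S : FCl 2) {η : ℝ} (hη : 0 < η) : ∃ γ : ℝ, 0 < γ ∧ ∀ N : ℕ,
    0 < N → ∀ (i₀ : Fin 2) (w q l : ℕ), q + w + l ≤ N →
    Cl S 1 (fun J F A => ¬ Frz F i₀ (q * (J / N)) (q * (J / N) + ⌊γ * J⌋₊) A →
      ∀ (f n : (Fin 2 → ℤ) × (ℕ × F.ζ) → Fin 2 → ℝ) (z : F.Ω → Fin 2 → ℝ) (H : ℕ),
      (q + l) * (J / N) ≤ H → Frm F i₀ A H f n → Win F i₀ A f (w * (J / N)) (l * (J / N)) z →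
      ∀ P : ℕ, (q + w) * (J / N) ≤ P → P ≤ J →
        ((P : ℝ) - ((q + w) * (J / N) : ℕ)) * Real.log 2 - η * J ≤
          CH (Pool.Agent.H49.Ent.cond F.p A True) (fun ω => ⌊(2 : ℝ) ^ P * F.x ω i₀⌋)
            (fun ω => (F.qlb (w * (J / N)) (q * (J / N)) (l * (J / N)) i₀ z ω, F.T ω))) := by
  obtain ⟨γ, hγ, h⟩ := ws_bits S hη
  exact ⟨γ, hγ, fun N hN => h N hN (fun J => ⌊γ * J⌋₊) fun J => Nat.floor_le (by positivity)⟩

/-- The velocities are not frozen at `q = 0`. -/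
theorem not_frz0 {a R : ℝ} (ha : 1 ≤ a) (hR : 0 < R) (hU : GW S a R)
    {x h₁ : ℝ} (hx : 0 < x) (hh₁ : 0 < h₁) :
    ∃ τ > 0, ∃ J₁ : ℕ, ∀ J ≥ J₁, ∀ (F : Fam 2 J) (A : F.Ω → Prop), S.St τ F A →
      ∀ (i₀ : Fin 2), Lb F i₀ ⌊h₁ * J⌋₊ A → ∀ q' : ℕ, x * J ≤ q' → ¬ Frz F i₀ 0 q' A := by
  classical
  have hl2 : 0 < Real.log 2 := Real.log_pos one_lt_two
  obtain ⟨y, hy⟩ : ∃ y, y = min (min x h₁) 1 / 4 := ⟨_, rfl⟩
  have hy0 : 0 < y := by rw [hy]; have := lt_min (lt_min hx hh₁) one_pos; linarith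
  have hy1 : y ≤ 1 / 4 := by rw [hy]; have := min_le_right (min x h₁) 1; linarith
  have hyx : 4 * y ≤ x := by
    rw [hy]
    have := (min_le_left (min x h₁) 1).trans (min_le_left _ _)
    linarith
  have hyh : 4 * y ≤ h₁ := by
    rw [hy]
    have := (min_le_left (min x h₁) 1).trans (min_le_right _ _)
    linarith
  obtain ⟨τb, hτb, Jb, hball⟩ := Fam.Stt.not_ball' ha hR hU hy0 hy1
  obtain ⟨J₂, hJ₂⟩ := exists_nat_gt (2 * (2 * Real.log 2) / τb + 8 / y)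
  refine ⟨τb / 2, half_pos hτb, max Jb J₂, fun J hJ F A hS i₀ hLb q' hq' hFz => ?_⟩
  have hp := F.isLaw
  have hJr : 2 * (2 * Real.log 2) / τb + 8 / y < J :=
    hJ₂.trans_le (by exact_mod_cast (le_max_right _ _).trans hJ)
  have q1 : 0 < 2 * (2 * Real.log 2) / τb := by positivity
  have q2 : 0 < 8 / y := by positivity
  have hJ0 : (0 : ℝ) < J := by linarith
  have r1 : 2 * (2 * Real.log 2) ≤ τb * J := by
    have h : 2 * (2 * Real.log 2) / τb < J := by linarith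
    rw [div_lt_iff₀ hτb] at h
    linarith
  have r2 : 8 ≤ y * J := by
    have h : 8 / y < J := by linarith
    rw [div_lt_iff₀ hy0] at h
    linarith
  have hA0 : 0 < Pe F.p A := lt_of_lt_of_le (Real.exp_pos _) hS.2
  obtain ⟨φ, hφ⟩ := hFz
  obtain ⟨e₀, n₀, hb, hl⟩ := hLb
  -- a value of the first digit
  obtain ⟨b, hbB⟩ : ∃ b : ℤ, Pe F.p A / 4 ≤ Pe F.p (fun ω => A ω ∧ ⌊(2 : ℝ) ^ 0 * F.d ω i₀⌋ = b) := by
    by_contra hcon
    push Not at hcon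
    have hcov : Pe F.p A ≤ Pe F.p (fun ω => A ω ∧ ⌊(2 : ℝ) ^ 0 * F.d ω i₀⌋ = -1) +
        (Pe F.p (fun ω => A ω ∧ ⌊(2 : ℝ) ^ 0 * F.d ω i₀⌋ = 0) +
          Pe F.p (fun ω => A ω ∧ ⌊(2 : ℝ) ^ 0 * F.d ω i₀⌋ = 1)) := by
      refine (Pe_or hp (B₀ := fun ω => A ω ∧ ⌊(2 : ℝ) ^ 0 * F.d ω i₀⌋ = -1)
        (B₁ := fun ω => (A ω ∧ ⌊(2 : ℝ) ^ 0 * F.d ω i₀⌋ = 0) ∨
          (A ω ∧ ⌊(2 : ℝ) ^ 0 * F.d ω i₀⌋ = 1)) ?_).trans (add_le_add le_rfl (Pe_or hp ?_))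
      · intro ω hω
        have hd := F.dir ω i₀
        rw [abs_le] at hd
        have h1 : -1 ≤ ⌊(2 : ℝ) ^ 0 * F.d ω i₀⌋ := by
          rw [Int.le_floor]
          push_cast
          linarith [hd.1]
        have h2 : ⌊(2 : ℝ) ^ 0 * F.d ω i₀⌋ < 2 := by
          rw [Int.floor_lt]
          push_cast
          linarith [hd.2]
        have h3 : ⌊(2 : ℝ) ^ 0 * F.d ω i₀⌋ = -1 ∨ ⌊(2 : ℝ) ^ 0 * F.d ω i₀⌋ = 0 ∨
            ⌊(2 : ℝ) ^ 0 * F.d ω i₀⌋ = 1 := by omega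
        tauto
      · intro ω hω
        exact hω
    have h1 := hcon (-1)
    have h2 := hcon 0
    have h3 := hcon 1
    have h4 : Pe F.p A < Pe F.p A / 4 + (Pe F.p A / 4 + Pe F.p A / 4) :=
      hcov.trans_lt (add_lt_add h1 (add_lt_add h2 h3))
    linarith
  obtain ⟨B, hB⟩ : ∃ B : F.Ω → Prop, B = fun ω => A ω ∧ ⌊(2 : ℝ) ^ 0 * F.d ω i₀⌋ = b := ⟨_, rfl⟩
  rw [← hB] at hbB
  have hBA : Sub B A := by rw [hB]; exact fun ω h => h.1
  have hSB : S.St τb F B := by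
    have h0 := hS.mono (τ' := τb) (by linarith)
    refine ⟨h0.1, le_trans ?_ hbB⟩
    have h1 := hS.2
    have h2 : Real.exp (-(τb * J)) ≤ Real.exp (-(τb / 2 * J)) / 4 := by
      rw [le_div_iff₀ (by norm_num)]
      have h2 : (4 : ℝ) = Real.exp (2 * Real.log 2) := by
        rw [mul_comm, Real.exp_mul, Real.exp_log (by norm_num)]
        norm_num
      rw [h2, ← Real.exp_add]
      exact Real.exp_le_exp.2 (by linarith)
    linarith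
  refine hball J ((le_max_left _ _).trans hJ) F B hSB
    ⟨fun y j => e₀ y j * φ (y, b) + n₀ y j, fun ω hω j => ?_⟩
  have hωA := hBA ω hω
  have hb' : ⌊(2 : ℝ) ^ 0 * F.d ω i₀⌋ = b := by
    rw [hB] at hω
    exact hω.2
  have g1 := hφ ω hωA
  rw [hb'] at g1
  have g2 := hb ω hωA j
  have g3 := hl ω hωA j
  have e1 : F.d ω j - (e₀ (Fam.pt F ω) j * φ (Fam.pt F ω, b) + n₀ (Fam.pt F ω) j) =
      (F.d ω j - e₀ (Fam.pt F ω) j * F.d ω i₀ - n₀ (Fam.pt F ω) j) +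
        e₀ (Fam.pt F ω) j * (F.d ω i₀ - φ (Fam.pt F ω, b)) := by ring
  have hfl : (⌊y * J⌋₊ : ℝ) ≤ y * J := Nat.floor_le (by positivity)
  have p1 : (1 : ℝ) / 2 ^ q' ≤ 1 / 2 ^ (⌊y * J⌋₊ + 2) := by
    refine one_div_le_one_div_of_le (by positivity) (pow_le_pow_right₀ (by norm_num) ?_)
    have h4 : 4 * y * J ≤ x * J := mul_le_mul_of_nonneg_right hyx hJ0.le
    have : ((⌊y * J⌋₊ + 2 : ℕ) : ℝ) ≤ q' := by
      push_cast
      linarith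
    exact_mod_cast this
  have p2 : (1 : ℝ) / 2 ^ ⌊h₁ * J⌋₊ ≤ 1 / 2 ^ (⌊y * J⌋₊ + 2) := by
    refine one_div_le_one_div_of_le (by positivity) (pow_le_pow_right₀ (by norm_num) ?_)
    refine Nat.le_floor ?_
    have h4 : 4 * y * J ≤ h₁ * J := mul_le_mul_of_nonneg_right hyh hJ0.le
    push_cast
    linarith
  have p3 : (1 : ℝ) / 2 ^ (⌊y * J⌋₊ + 1) = 1 / 2 ^ (⌊y * J⌋₊ + 2) + 1 / 2 ^ (⌊y * J⌋₊ + 2) := by
    rw [pow_succ, pow_succ, pow_succ]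
    field_simp
    norm_num
  rw [e1, p3]
  refine (abs_add_le _ _).trans (add_le_add (g3.trans p2) ?_)
  rw [abs_mul]
  calc |e₀ (Fam.pt F ω) j| * |F.d ω i₀ - φ (Fam.pt F ω, b)| ≤ 1 * (1 / 2 ^ q') :=
        mul_le_mul g2 g1 (abs_nonneg _) (by norm_num)
    _ = 1 / 2 ^ q' := one_mul _
    _ ≤ _ := p1

/-- The velocities are not frozen at `q = 0`, as a claim with `0` levels. -/
theorem not_frz0_cl {a R : ℝ} (ha : 1 ≤ a) (hR : 0 < R) (hU : GW S a R)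
    {γ h₁ : ℝ} (hγ : 0 < γ) (hh₁ : 0 < h₁) (i₀ : Fin 2) :
    Cl S 0 (fun J F A => Lb F i₀ ⌊h₁ * J⌋₊ A → ¬ Frz F i₀ 0 ⌊γ * J⌋₊ A) := by
  obtain ⟨τ, hτ, J₁, h⟩ := not_frz0 ha hR hU (half_pos hγ) hh₁
  obtain ⟨J₂, hJ₂⟩ := exists_nat_gt (2 / γ)
  refine ⟨τ, hτ, max J₁ J₂, fun J hJ F A hS hLb => ?_⟩
  refine h J ((le_max_left _ _).trans hJ) F A hS i₀ hLb ⌊γ * J⌋₊ ?_
  have h1 : 2 / γ < J := hJ₂.trans_le (by exact_mod_cast (le_max_right _ _).trans hJ)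
  rw [div_lt_iff₀ hγ] at h1
  have h2 := Nat.lt_floor_add_one (γ * (J : ℝ))
  linarith

end Pool.K2S.G
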