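import Pool.Agent.H64.K2.FRM
import Pool.Agent.H13.EG.OcAsm
import Pool.Agent.H13.EG.WSA
import Pool.Agent.H13.EG.FLC

/-!
# The engine for a general class (H64.K2.FRM)
-/

set_option autoImplicit false

namespace Pool.K2S.G

open Finset Real
open Pool.Agent.H49.Ent Pool.Agent.H32.Dense Pool.STK Pool.KA Pool.KSAT
open Pool.K2S Pool.K2S.Frmm Pool.PB Pool.LK

variable {S : FCl 2}

/-- Finitely many claims with the same number of levels. -/
theorem cl_all {r : ℕ} (n : ℕ) {Φ : ℕ → Stat 2} (h : ∀ i < n, Cl S r (Φ i)) :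
    Cl S r (fun _ F A => ∀ i < n, Φ i _ F A) := by
  induction n with
  | zero =>
    refine Cl.le (Nat.zero_le r) ⟨1, one_pos, 0, ?_⟩
    intro _ _ _ _ _ i hi
    omega
  | succ n ih =>
    refine Cl.mono (J₂ := 0) ?_ ((ih fun i hi => h i (by omega)).and (h n (by omega)))
    rintro J - F A ⟨h1, h2⟩ i hi
    rcases Nat.lt_succ_iff_lt_or_eq.1 hi with h3 | h3
    · exact h1 i h3
    · rw [h3]; exact h2

/-- A claim under a condition which does not depend on the family. -/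
theorem cl_cnd {r : ℕ} {P : Prop} {Φ : Stat 2} (h : P → Cl S r Φ) :
    Cl S r (fun _ F A => P → Φ _ F A) := by
  by_cases hP : P
  · exact Cl.mono (J₂ := 0) (fun _ _ _ _ h1 _ => h1) (h hP)
  · exact Cl.le (Nat.zero_le r) ⟨1, one_pos, 0, fun _ _ _ _ _ h1 => absurd h1 hP⟩

/-- The frames on the stable event. -/
theorem fr1_claim {a R μ h₁ : ℝ} (ha : 1 ≤ a) (hR : 0 < R) (hU : GW S a R) (hμ : 0 < μ)
    (hh₁ : 0 < h₁) {N s K pb wa wb : ℕ} {i₀ : Fin 2} {lam : ℕ → ℕ} (hN : 0 < N) (hpb : pb ≤ N)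
    (hlam : ∀ w, wa ≤ w → w ≤ wb → 1 ≤ lam w ∧ lam w ≤ K) :
    Claim S (fun J F A => Lb F i₀ ⌊h₁ * J⌋₊ A →
      (∀ h : ℕ, (h : ℝ) ≤ (K : ℝ) * (J / N : ℕ) + μ * J → Ln F i₀ h A) →
      (∀ w, wa ≤ w → w ≤ wb → Cn F i₀ (lam w * (J / N)) (w * (J / N)) A) →
      (∀ v, wa ≤ v → v ≤ wb → v + lam v + s ≤ pb →
        LineU i₀ (1 / 2 ^ (lam v * (J / N))) (cel F ((v + lam v + s) * (J / N))) F.d A) →
      ∃ (f n : (Fin 2 → ℤ) × (ℕ × F.ζ) → Fin 2 → ℝ) (z : ℕ → F.Ω → Fin 2 → ℝ),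
        Fr1 F i₀ A (J / N) (K * (J / N)) s wa wb pb lam f n z) := by
  classical
  have hl2 : 0 < Real.log 2 := Real.log_pos one_lt_two
  have hNr : (0 : ℝ) < N := by exact_mod_cast hN
  obtain ⟨x, hx⟩ : ∃ x, x = min (min h₁ μ) (min (1 / N) (1 / 2)) / 2 := ⟨_, rfl⟩
  have hx0 : 0 < x := by
    rw [hx]
    have := lt_min (lt_min hh₁ hμ) (lt_min (by positivity : (0 : ℝ) < 1 / N)
      (by norm_num : (0 : ℝ) < 1 / 2))
    linarith
  have hx1 : 2 * x ≤ h₁ := by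
    rw [hx]
    have := (min_le_left (min h₁ μ) (min (1 / (N : ℝ)) (1 / 2))).trans (min_le_left _ _)
    linarith
  have hx2 : 2 * x ≤ μ := by
    rw [hx]
    have := (min_le_left (min h₁ μ) (min (1 / (N : ℝ)) (1 / 2))).trans (min_le_right _ _)
    linarith
  have hx3 : 2 * x ≤ 1 / N := by
    rw [hx]
    have := (min_le_right (min h₁ μ) (min (1 / (N : ℝ)) (1 / 2))).trans (min_le_left _ _)
    linarith
  have hx4 : x ≤ 1 / 4 := by
    rw [hx]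
    have := (min_le_right (min h₁ μ) (min (1 / (N : ℝ)) (1 / 2))).trans (min_le_right _ _)
    linarith
  obtain ⟨τb, hτb, Jb, hball⟩ := not_ball ha hR hU hx0
  refine Claim.one ⟨1, fun J F _ A => ∃ (f n : (Fin 2 → ℤ) × (ℕ × F.ζ) → Fin 2 → ℝ)
    (z : ℕ → F.Ω → Fin 2 → ℝ), Fr1 F i₀ A (J / N) (K * (J / N)) s wa wb pb lam f n z, ?_⟩
    fun κ hκ => ?_
  · rintro J F - A B hB ⟨f, n, z, h⟩
    exact ⟨f, n, z, h.sub hB⟩
  obtain ⟨J₂, hJ₂⟩ := exists_nat_gt (10 / h₁ + 10 / μ + 12 * N + 2 * Real.log 2 / τb +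
    Real.log 2 / κ + Jb)
  refine ⟨τb / 2, half_pos hτb, J₂, fun J hJ F A hS hSb hLb hLn hCn hcel => ?_⟩
  have hp := F.isLaw
  have hJr : (J₂ : ℝ) ≤ J := by exact_mod_cast hJ
  have t1 : 0 < 10 / h₁ := by positivity
  have t2 : 0 < 10 / μ := by positivity
  have t3 : 0 < 12 * (N : ℝ) := by positivity
  have t4 : 0 < 2 * Real.log 2 / τb := by positivity
  have t5 : 0 < Real.log 2 / κ := by positivity
  have t6 : (0 : ℝ) ≤ Jb := Nat.cast_nonneg _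
  have j1 : 10 / h₁ < J := by linarith
  have j2 : 10 / μ < J := by linarith
  have j3 : 12 * (N : ℝ) < J := by linarith
  have j4 : 2 * Real.log 2 / τb < J := by linarith
  have j5 : Real.log 2 / κ < J := by linarith
  have j6 : (Jb : ℝ) < J := by linarith
  have hJ0 : (0 : ℝ) < J := by linarith
  rw [div_lt_iff₀ hh₁] at j1
  rw [div_lt_iff₀ hμ] at j2
  rw [div_lt_iff₀ hτb] at j4
  rw [div_lt_iff₀ hκ] at j5
  have j6' : J ≥ Jb := by
    have : Jb < J := by exact_mod_cast j6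
    omega
  have hA0 : 0 < Pe F.p A := lt_of_lt_of_le (Real.exp_pos _) hS.2
  obtain ⟨u, hu⟩ : ∃ u, u = J / N := ⟨_, rfl⟩
  obtain ⟨y, hy⟩ : ∃ y, y = ⌊x * J⌋₊ := ⟨_, rfl⟩
  have hyx : (y : ℝ) ≤ x * J := by
    rw [hy]
    exact Nat.floor_le (by positivity)
  have huJ : N * u ≤ J := by rw [hu]; exact Nat.mul_div_le J N
  have huJ2 : J < N * (u + 1) := by rw [hu]; exact Nat.lt_mul_div_succ J hN
  have huJ2r : (J : ℝ) < N * ((u : ℝ) + 1) := by exact_mod_cast huJ2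
  have hxN : 2 * x * N ≤ 1 := by
    have := mul_le_mul_of_nonneg_right hx3 hNr.le
    rwa [one_div, inv_mul_cancel₀ hNr.ne'] at this
  -- the thin fans
  have hthin : Pe F.p (fun ω => A ω ∧ Thin (1 / 2 ^ (y + 1)) (Fam.pt F) F.d A ω) ≤
      Pe F.p A / 2 := by
    by_contra hcon
    push Not at hcon
    have h0 := hS.mono (τ' := τb) (by linarith)
    refine hball J j6' F _ ⟨h0.1, ?_⟩ (y + 1) (by
      have q1 : ((y + 1 : ℕ) : ℝ) ≤ J := by
        push_cast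
        have q2 : x * J ≤ 1 / 4 * J := mul_le_mul_of_nonneg_right hx4 hJ0.le
        have q3 : (12 : ℝ) * 1 ≤ 12 * N := by
          have : (1 : ℝ) ≤ N := by exact_mod_cast hN
          linarith
        linarith
      exact_mod_cast q1) (by
      rw [hy]
      push_cast
      exact (Nat.lt_floor_add_one _).le) (ball_thin (1 / 2 ^ (y + 1)) (Fam.pt F) F.d A)
    refine le_trans ?_ hcon.le
    have h1 := hS.2
    rw [le_div_iff₀ (by norm_num)]
    refine le_trans ?_ h1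
    have h2 : (2 : ℝ) = Real.exp (Real.log 2) := by rw [Real.exp_log (by norm_num)]
    rw [h2, ← Real.exp_add]
    refine Real.exp_le_exp.2 ?_
    rw [← h2]
    linarith
  have hPA := Pe_diff hthin
  obtain ⟨A₀, hA₀⟩ : ∃ A₀ : F.Ω → Prop, A₀ = fun ω => A ω ∧
    ¬ Thin (1 / 2 ^ (y + 1)) (Fam.pt F) F.d A ω := ⟨_, rfl⟩
  have hSp : Spread (1 / 2 ^ (y + 1)) (Fam.pt F) F.d A₀ := by
    rw [hA₀]
    exact spread_of_not_thin _ _ _ _
  rw [← hA₀] at hPA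
  have hsub : Sub A₀ A := by
    rw [hA₀]
    exact fun ω hω => hω.1
  have hQ := hSb 0
  refine hQ.of_sub hsub (le_trans ?_ hPA) ?_
  · refine mul_le_mul_of_nonneg_right (Real.exp_le_exp.2 ?_) hA0.le
    linarith
  show ∃ (f n : (Fin 2 → ℤ) × (ℕ × F.ζ) → Fin 2 → ℝ) (z : ℕ → F.Ω → Fin 2 → ℝ),
    Fr1 F i₀ A₀ (J / N) (K * (J / N)) s wa wb pb lam f n z
  rw [← hu]
  rw [← hu] at hLn hCn hcel
  refine fr1_spread (h₀ := ⌊h₁ * J⌋₊) (h := K * u + ⌊μ * J⌋₊) hSp ?_ ?_ ?_ ?_ (by omega) ?_ hlam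
    ((Nat.mul_le_mul_right u hpb).trans huJ) ?_ ?_
  · exact LineAt.hered _ _ _ _ _ _ hsub hLb
  · refine Nat.le_floor ?_
    push_cast
    have h1 : 2 * x * J ≤ h₁ * J := mul_le_mul_of_nonneg_right hx1 hJ0.le
    linarith
  · refine LineU.hered _ _ _ _ _ _ hsub (hLn _ ?_)
    have h1 := Nat.floor_le (by positivity : 0 ≤ μ * (J : ℝ))
    push_cast
    linarith
  · have h1 : y + 4 ≤ ⌊μ * J⌋₊ := by
      refine Nat.le_floor ?_
      push_cast
      have h1 : 2 * x * J ≤ μ * J := mul_le_mul_of_nonneg_right hx2 hJ0.le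
      linarith
    omega
  · have h1 : ((y + 5 : ℕ) : ℝ) ≤ u := by
      push_cast
      have h2 : 2 * x * (N * ((u : ℝ) + 1)) ≤ (u : ℝ) + 1 := by
        have := mul_le_mul_of_nonneg_right hxN (by positivity : (0 : ℝ) ≤ (u : ℝ) + 1)
        linarith
      have h3 : 2 * x * J ≤ 2 * x * (N * ((u : ℝ) + 1)) :=
        mul_le_mul_of_nonneg_left huJ2r.le (by positivity)
      have h4 : 11 < (u : ℝ) := by
        have h5 : 12 * (N : ℝ) < N * ((u : ℝ) + 1) := by linarith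
        have h6 : (N : ℝ) * 12 < N * ((u : ℝ) + 1) := by linarith
        have := lt_of_mul_lt_mul_left h6 hNr.le
        linarith
      linarith
    exact_mod_cast h1
  · intro w h1 h2
    exact RotU.hered _ _ _ _ _ _ _ _ hsub (hCn w h1 h2)
  · intro v h1 h2 h3
    exact LineU.hered _ _ _ _ _ _ hsub (hcel v h1 h2 h3)

/-- **(FRM)** -/
theorem frm_thm : FRMStmt S := by
  classical
  intro a R ha hR hU c μ h₁ hc hμ hh₁ N s q₀ K pb wa wb i₀ lam Lp hN hs hq₀ hpb c1 c2 c3 c4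
  have hl2 : 0 < Real.log 2 := Real.log_pos one_lt_two
  have hlam : ∀ w, wa ≤ w → w ≤ wb → 1 ≤ lam w ∧ lam w ≤ K := by
    intro w h1 h2
    have h3 := c1 w h1 h2
    have h4 := c3 w 0 h1 (by omega)
    exact ⟨by omega, by omega⟩
  -- the frames
  have hA := G.fr1_claim (s := s) (i₀ := i₀) ha.le hR hU hμ hh₁ hN hpb hlam
  -- the cells
  obtain ⟨h₂, hh₂, hflc⟩ := flc_thm a R ha.le hR hU c h₁ hc hh₁ N s hN hs
  have hB : Claim S (fun J F A => ∀ v < wb + 1, wa ≤ v ∧ v + lam v + s ≤ pb →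
      Lb F i₀ ⌊h₁ * J⌋₊ A → Cn F i₀ (lam v * (J / N)) (v * (J / N)) A →
      CH (Pool.Agent.H49.Ent.cond F.p A True) (F.X ((v + lam v + s) * (J / N)))
        (fun ω => (F.X ((v + lam v) * (J / N)) ω, F.W ω)) ≤
          (2 - c) * ((s : ℝ) * ((J / N : ℕ) * Real.log 2)) →
      LineU i₀ (1 / 2 ^ (lam v * (J / N))) (cel F ((v + lam v + s) * (J / N))) F.d A) := by
    refine Claim.all (wb + 1) fun v hv => Claim.cnd fun h => ?_
    refine Claim.mono 0 ?_ (hflc i₀ (lam v) v (by omega))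
    intro J _ F A h1 h2 h3 h4
    have e1 : lam v + v + s = v + lam v + s := by ring
    have e2 : lam v + v = v + lam v := by ring
    rw [e1, e2] at h1
    have h5 := h1 h2 h3 h4 0 (by push_cast; positivity)
    rwa [Nat.add_zero] at h5
  -- the slopes
  obtain ⟨C, hC⟩ := Flt.flt_thm
  obtain ⟨M, hM⟩ : ∃ M : ℕ, M = (wb + 1) * (wb + 1) := ⟨_, rfl⟩
  have hMr : (1 : ℝ) ≤ M := by
    have : 1 ≤ M := by rw [hM]; exact Nat.one_le_iff_ne_zero.2 (by positivity)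
    exact_mod_cast this
  have hD : Claim S (fun J F A =>
      (∃ (f n : (Fin 2 → ℤ) × (ℕ × F.ζ) → Fin 2 → ℝ) (z : ℕ → F.Ω → Fin 2 → ℝ),
        Frmm.Fr1 F i₀ A (J / N) (K * (J / N)) s wa wb pb lam f n z) →
      Lb F i₀ ⌊h₁ * J⌋₊ A →
      ∃ (f n : (Fin 2 → ℤ) × (ℕ × F.ζ) → Fin 2 → ℝ) (z : ℕ → F.Ω → Fin 2 → ℝ)
        (φ : ℕ → ℕ → F.Ω → ℝ),
        Frs F i₀ A (J / N) (K * (J / N)) wa wb q₀ lam Lp f n z φ) := by
    refine ⟨2, ⟨1, fun J F _ A => ∃ (f n : (Fin 2 → ℤ) × (ℕ × F.ζ) → Fin 2 → ℝ)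
      (z : ℕ → F.Ω → Fin 2 → ℝ) (φ : ℕ → ℕ → F.Ω → ℝ),
        Frs F i₀ A (J / N) (K * (J / N)) wa wb q₀ lam Lp f n z φ, ?_⟩, fun κ hκ => ?_⟩
    · rintro J F - A B hB ⟨f, n, z, φ, h⟩
      exact ⟨f, n, z, φ, Frmm.frs_sub h hB⟩
    obtain ⟨η, hη⟩ : ∃ η, η = κ / (8 * (M : ℝ) ^ 2) := ⟨_, rfl⟩
    have hη0 : 0 < η := by rw [hη]; positivity
    obtain ⟨γ, hγ, hws⟩ := ws_floor S hη0
    have hnf := not_frz0_cl ha.le hR hU hγ hh₁ i₀
    have h1 : Cl S 1 (fun J F A => ∀ v < wb + 1, wa ≤ v →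
        (¬ Frz F i₀ 0 ⌊γ * J⌋₊ A →
        ∀ (f n : (Fin 2 → ℤ) × (ℕ × F.ζ) → Fin 2 → ℝ) (z : F.Ω → Fin 2 → ℝ),
        Frm F i₀ A (K * (J / N)) f n →
        Win F i₀ A f (v * (J / N)) ((lam v - 1) * (J / N)) z →
        ∀ P : ℕ, v * (J / N) ≤ P → P ≤ J →
          ((P : ℝ) - (v * (J / N) : ℕ)) * Real.log 2 - η * J ≤
            CH (Pool.Agent.H49.Ent.cond F.p A True) (fun ω => ⌊(2 : ℝ) ^ P * F.x ω i₀⌋)
              (fun ω => (F.qlb (v * (J / N)) 0 ((lam v - 1) * (J / N)) i₀ z ω, F.T ω)))) := by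
      refine G.cl_all (wb + 1) fun v hv => G.cl_cnd fun hva => ?_
      have h2 := c1 v hva (by omega)
      have h3 := hlam v hva (by omega)
      refine Cl.mono (J₂ := 0) ?_ (hws N hN i₀ v 0 (lam v - 1) (by omega))
      intro J _ F A h4 h5 f n z hf hw P hP1 hP2
      have e1 : 0 * (J / N) = 0 := Nat.zero_mul _
      rw [e1, Nat.zero_add] at h4
      have h6 := h4 h5 f n z (K * (J / N)) (by
        refine Nat.mul_le_mul_right _ ?_
        omega) hf hw P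
      have e2 : (0 + v) * (J / N) = v * (J / N) := by rw [Nat.zero_add]
      rw [e2] at h6
      exact h6 hP1 hP2
    have h2 : Cl S 0 (fun J F A => 0 < Pe F.p A) :=
      ⟨1, one_pos, 0, fun J _ F A hS => lt_of_lt_of_le (Real.exp_pos _) hS.2⟩
    obtain ⟨J₂, hJ₂⟩ := exists_nat_gt
      ((2 * (M : ℝ) ^ 2 * (|C| + 1) + Real.log 2) * 2 / κ)
    refine Cl.mono (J₂ := J₂) ?_ ((h1.and (hnf.le (Nat.zero_le 1))).and (h2.le (Nat.zero_le 1)))
    rintro J hJ F A ⟨⟨g1, g2⟩, g3⟩ hSb ⟨f, n, z, hFr⟩ hLb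
    have hJr : (J₂ : ℝ) ≤ J := by exact_mod_cast hJ
    have huJ : N * (J / N) ≤ J := Nat.mul_div_le J N
    have hJ3 : (2 * (M : ℝ) ^ 2 * (|C| + 1) + Real.log 2) * 2 / κ < J := by linarith
    rw [div_lt_iff₀ hκ] at hJ3
    have hJ0 : (0 : ℝ) ≤ J := Nat.cast_nonneg J
    obtain ⟨B, hBA, hBP, φ, hφ⟩ := Frmm.frs_core hC (q₀ := q₀) (Lp := Lp)
      (η := η * J) (δ := η * J + |C| + 1) g3 hFr ((Nat.mul_le_mul_right _ hpb).trans huJ)
      c1 c2 c3 c4 (by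
        intro v v1 v2 P hP1 hP2
        exact g1 v (by omega) v1 (g2 hLb) f n (z v) hFr.frm (hFr.win v v1 v2) P hP1 hP2)
      (by positivity) (by linarith [le_abs_self C])
    rw [← hM] at hBP
    refine (hSb 0).of_sub hBA (le_trans ?_ hBP) ⟨f, n, z, φ, hφ⟩
    refine mul_le_mul_of_nonneg_right ?_ g3.le
    rw [le_div_iff₀ (by norm_num)]
    have h4 : (2 : ℝ) = Real.exp (Real.log 2) := by rw [Real.exp_log (by norm_num)]
    have h5 : Real.exp (-(κ * J)) * 2 = Real.exp (-(κ * J) + Real.log 2) := by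
      rw [Real.exp_add, ← h4]
    rw [h5]
    refine Real.exp_le_exp.2 ?_
    have h6 : 2 * (M : ℝ) ^ 2 * (η * J) = κ * J / 4 := by
      rw [hη]
      have : (M : ℝ) ≠ 0 := by linarith
      field_simp
      ring
    have h7 : 2 * (M : ℝ) ^ 2 * (η * J + |C| + 1) =
        κ * J / 4 + 2 * (M : ℝ) ^ 2 * (|C| + 1) := by
      rw [← h6]
      ring
    rw [h7]
    nlinarith
  refine Claim.mono 0 ?_ ((hA.and hB).and hD)
  rintro J - F A ⟨⟨g1, g2⟩, g3⟩ hLb hLn hCn hrow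
  refine g3 (g1 hLb hLn hCn ?_) hLb
  intro v h1 h2 h3
  exact g2 v (by omega) ⟨h1, h3⟩ hLb (hCn v h1 h2) (hrow v h1 h2 h3)

end Pool.K2S.G
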