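import Pool.Agent.H9.K2.H6
import Pool.Agent.H13.EG.Skel

/-!
# The engine for a general class (H9.K2.H6)
-/

set_option autoImplicit false

namespace Pool.K2S.G

open Finset Real
open Pool.Agent.H49.Ent Pool.Agent.H32.Dense Pool.STK Pool.KA Pool.KSAT
open Pool.K2S Pool.PB Pool.LK

variable {S : FCl 2}

/-- **(H6)** If the frames are not conserved to precision `l u` on the windows of exponent `w u`,
then the slopes at two times of a window are far apart, outside a small probability, and this holds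
given almost every value of any label of the window. -/
theorem h6_claim {N : ℕ} (i₀ j₁ : Fin 2) (hj : j₁ ≠ i₀) (l w : ℕ) {ε : ℝ}
    (hε : 0 < ε) : Claim S (fun J F A => ¬ Cn F i₀ (l * (J / N)) (w * (J / N)) A →
      ∀ f n : (Fin 2 → ℤ) × (ℕ × F.ζ) → ℝ,
      (∀ ω, A ω → |F.d ω j₁ - f (Fam.pt F ω) * F.d ω i₀ - n (Fam.pt F ω)| ≤
        1 / 2 ^ (l * (J / N))) →
      Pe (cpy (Pool.Agent.H49.Ent.cond F.p A True) (slam F (w * (J / N))))
        (fun v => |f (Fam.pt F v.1) - f (Fam.pt F v.2)| ≤ 1 / 2 ^ (l * (J / N))) ≤ ε * ε ∧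
      ∀ {T : Type} (b : F.Ω → T), Det (Pool.Agent.H49.Ent.cond F.p A True)
        (slam F (w * (J / N))) b →
        Pe (Pool.Agent.H49.Ent.cond F.p A True) (fun ω => ε < Pe (cpy (Pool.Agent.H49.Ent.cond
          (Pool.Agent.H49.Ent.cond F.p A True) b (b ω)) (slam F (w * (J / N))))
          (fun v => |f (Fam.pt F v.1) - f (Fam.pt F v.2)| ≤ 1 / 2 ^ (l * (J / N)))) ≤ ε) := by
  classical
  refine Claim.one ⟨1, fun J F => ![RotU i₀ (1 / 2 ^ (l * (J / N))) (1 / 2 ^ (l * (J / N)))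
    (Fam.pt F) (slam F (w * (J / N))) F.d], ?_⟩ fun κ hκ => ?_
  · intro J F i
    fin_cases i
    exact RotU.hered _ _ _ _ _ _
  obtain ⟨J₂, hJ₂⟩ := exists_nat_gt (-Real.log (ε * ε) / κ)
  refine ⟨1, one_pos, J₂, fun J hJ F A hS hSb hn f n hf => ?_⟩
  have hp := F.isLaw
  have hA0 : 0 < Pe F.p A := lt_of_lt_of_le (Real.exp_pos _) hS.2
  have hexp : Real.exp (-(κ * J)) ≤ ε * ε := by
    have h1 : -Real.log (ε * ε) / κ < J := hJ₂.trans_le (by exact_mod_cast hJ)
    rw [div_lt_iff₀ hκ] at h1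
    rw [← Real.exp_log (mul_pos hε hε)]
    refine Real.exp_le_exp.2 ?_
    linarith
  have hr : (0 : ℝ) ≤ 1 / 2 ^ (l * (J / N)) := by positivity
  have hon := OnL.of_scalar (i₀ := i₀) (j₁ := j₁) hj hr hf
  have h1 := Stb.rotU_cpy_lt hp hA0 (hSb 0) hn hon (wn' := slam F (w * (J / N))) (φ := id)
    (fun _ => rfl)
  have hE : Pe (cpy (Pool.Agent.H49.Ent.cond F.p A True) (slam F (w * (J / N))))
      (fun v => |f (Fam.pt F v.1) - f (Fam.pt F v.2)| ≤ 1 / 2 ^ (l * (J / N))) ≤ ε * ε := by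
    refine le_trans ?_ (h1.le.trans hexp)
    have hq := isLaw_cond hp hA0
    rw [Pe_eq, Pe_eq]
    refine Finset.sum_le_sum fun v _ => ?_
    have hv := cpy_nn hq.nonneg (slam F (w * (J / N))) v
    by_cases h : |f (Fam.pt F v.1) - f (Fam.pt F v.2)| ≤ 1 / 2 ^ (l * (J / N))
    · rw [if_pos h, if_pos]
      intro j
      by_cases hji : j = i₀
      · simp [hji]
      · simpa [hji] using h
    · rw [if_neg h]
      split_ifs
      · exact hv
      · exact le_rfl
  refine ⟨hE, fun b hb => ?_⟩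
  exact cpy_markov (isLaw_cond hp hA0) _ hb _ hε.le hE

end Pool.K2S.G
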