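import Pool.Agent.H9.K2.H6C
import Pool.Agent.H13.EG.OcFam
import Pool.Agent.H13.EG.H6

/-!
# The engine for a general class (H9.K2.H6C)
-/

set_option autoImplicit false

namespace Pool.K2S.G

open Finset Real
open Pool.Agent.H49.Ent Pool.Agent.H32.Dense Pool.STK Pool.KA Pool.KSAT
open Pool.K2S Pool.PB Pool.LK

variable {S : FCl 2}

/-- **(H6)** in a context, as a claim: if the frames are not conserved to precision `l' u` on the
windows of exponent `w u`, then for every context of these windows whose frame has precision `l`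
with `l' u + 1 ≤ l + x₀ X`, two samples of a line see slopes which differ by `2 ^ (- x₀ X)` in the
unit of the context. -/
theorem h6_ctx_claim {N : ℕ} (i₀ : Fin 2) (l' w : ℕ) {ε : ℝ} (hε : 0 < ε) :
    Claim S (fun J F A => ¬ Cn F i₀ (l' * (J / N)) (w * (J / N)) A →
      ∀ (f n : (Fin 2 → ℤ) × (ℕ × F.ζ) → Fin 2 → ℝ) (z : F.Ω → Fin 2 → ℝ) (φ : F.Ω → ℝ)
      (q l L H X : ℕ) (x₀ : ℝ), Frm F i₀ A H f n → Win F i₀ A f (w * (J / N)) l z →
      Slp F i₀ A f (w * (J / N)) q l L z φ → l' * (J / N) ≤ H → l' * (J / N) + 3 ≤ L →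
      ((l' * (J / N) : ℕ) : ℝ) + 1 ≤ l + x₀ * X →
      Pool.KAF.Pr (dbl (Pool.Agent.H49.Ent.cond F.p A True)
        (fun ω => (F.l ω, F.qlb (w * (J / N)) q l i₀ z ω)))
        {x | |2 ^ l * (φ x.1 - z x.1 (1 - i₀)) - 2 ^ l * (φ x.2 - z x.2 (1 - i₀))| <
          (2 : ℝ) ^ (-(x₀ * X))} ≤ ε) := by
  classical
  obtain ⟨ε', hε'⟩ : ∃ ε', ε' = min ε 1 := ⟨_, rfl⟩
  have h1 : 0 < ε' := by rw [hε']; exact lt_min hε one_pos
  have h2 : ε' * ε' ≤ ε := by
    have a1 : ε' ≤ ε := by rw [hε']; exact min_le_left _ _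
    have a2 : ε' ≤ 1 := by rw [hε']; exact min_le_right _ _
    nlinarith
  have hj : (1 - i₀) ≠ i₀ := by fin_cases i₀ <;> decide
  have hL : Claim S (fun J F A => IsLaw (Pool.Agent.H49.Ent.cond F.p A True)) := by
    refine Claim.of one_pos 0 fun J _ F A hS => ?_
    have hA0 : 0 < Pe F.p A := lt_of_lt_of_le (Real.exp_pos _) hS.2
    exact isLaw_cond F.isLaw hA0
  refine Claim.mono 0 ?_ ((h6_claim (S := S) (N := N) i₀ (1 - i₀) hj l' w h1).and hL)
  rintro J - F A ⟨hc, hl⟩ hn f n z φ q l L H X x₀ hF hW hS hH hLL hx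
  have hon : ∀ ω, A ω → |F.d ω (1 - i₀) - f (Fam.pt F ω) (1 - i₀) * F.d ω i₀ -
      n (Fam.pt F ω) (1 - i₀)| ≤ 1 / 2 ^ (l' * (J / N)) := fun ω hω =>
    (hF.on ω hω (1 - i₀)).trans
      (one_div_le_one_div_of_le (by positivity) (pow_le_pow_right₀ (by norm_num) hH))
  obtain ⟨h3, -⟩ := hc hn (fun u => f u (1 - i₀)) (fun u => n u (1 - i₀)) hon
  refine h6_ctx hl hW hS ?_ (h3.trans h2)
  obtain ⟨M, hM⟩ : ∃ M, M = l' * (J / N) := ⟨_, rfl⟩
  rw [← hM] at hx hLL ⊢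
  have b1 : (4 : ℝ) / 2 ^ L ≤ 1 / 2 ^ M / 2 := by
    rw [div_div, div_le_div_iff₀ (by positivity) (by positivity)]
    have : (2 : ℝ) ^ (M + 3) ≤ 2 ^ L := pow_le_pow_right₀ (by norm_num) hLL
    rw [pow_add] at this
    linarith
  have b2 : (2 : ℝ) ^ (-(x₀ * X)) / 2 ^ l ≤ 1 / 2 ^ M / 2 := by
    have e1 : (2 : ℝ) ^ l = (2 : ℝ) ^ (l : ℝ) := (Real.rpow_natCast 2 l).symm
    have e2 : (1 : ℝ) / 2 ^ M / 2 = (2 : ℝ) ^ (-((M : ℝ) + 1)) := by
      rw [Real.rpow_neg (by norm_num), Real.rpow_add (by norm_num), Real.rpow_natCast,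
        Real.rpow_one]
      field_simp
    rw [e1, e2, ← Real.rpow_sub (by norm_num)]
    exact Real.rpow_le_rpow_of_exponent_le (by norm_num) (by linarith)
  linarith

end Pool.K2S.G
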