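import Pool.Agent.H9.K2.TRN
import Pool.Agent.H13.EG.OcAsm
import Pool.Agent.H13.EG.H6C

/-!
# The engine for a general class (H9.K2.TRN)
-/

set_option autoImplicit false

namespace Pool.K2S.G

open Finset Real
open Pool.Agent.H49.Ent Pool.Agent.H32.Dense Pool.STK Pool.KA Pool.KSAT
open Pool.K2S Pool.PB Pool.LK

variable {S : FCl 2}

/-- **(TRN)** -/
theorem trn_thm : TRNStmt S := by
  classical
  intro a R _ _ _ ε hε N w q l i₀ hN hl _
  obtain ⟨ε', hε'⟩ : ∃ ε', ε' = min ε 1 := ⟨_, rfl⟩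
  have h1 : 0 < ε' := by rw [hε']; exact lt_min hε one_pos
  have h2 : ε' * ε' ≤ ε := by
    have a1 : ε' ≤ ε := by rw [hε']; exact min_le_left _ _
    have a2 : ε' ≤ 1 := by rw [hε']; exact min_le_right _ _
    nlinarith
  have hj : (1 - i₀) ≠ i₀ := by fin_cases i₀ <;> decide
  have hL : Claim S (fun J F A => IsLaw (Pool.Agent.H49.Ent.cond F.p A True)) := by
    refine Claim.of one_pos 0 fun J _ F A hS => ?_
    have hA0 : 0 < Pe F.p A := lt_of_lt_of_le (Real.exp_pos _) hS.2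
    exact isLaw_cond F.isLaw hA0
  refine Claim.mono (3 * N) ?_
    ((h6_claim (S := S) (N := N) i₀ (1 - i₀) hj (l + 1) w h1).and hL)
  rintro J hJ F A ⟨hc, hlaw⟩ hn f n z φ H L hH hLL hF hW hS
  obtain ⟨u, hu⟩ : ∃ u, u = J / N := ⟨_, rfl⟩
  have hu3 : 3 ≤ u := by
    rw [hu]
    exact (Nat.le_div_iff_mul_le hN).2 hJ
  rw [← hu] at hc hn hH hLL hW hS ⊢
  have hon : ∀ ω, A ω → |F.d ω (1 - i₀) - f (Fam.pt F ω) (1 - i₀) * F.d ω i₀ -
      n (Fam.pt F ω) (1 - i₀)| ≤ 1 / 2 ^ ((l + 1) * u) := fun ω hω =>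
    (hF.on ω hω (1 - i₀)).trans
      (one_div_le_one_div_of_le (by positivity) (pow_le_pow_right₀ (by norm_num) hH))
  obtain ⟨h3, -⟩ := hc hn (fun v => f v (1 - i₀)) (fun v => n v (1 - i₀)) hon
  have e3 : (2 : ℝ) ^ (-((1 : ℝ) * ((3 * u : ℕ) : ℝ))) = 1 / 2 ^ (3 * u) := by
    rw [one_mul, Real.rpow_neg (by norm_num), Real.rpow_natCast, one_div]
  have key := h6_ctx (X := 3 * u) (x₀ := 1) (ρ := 1 / 2 ^ ((l + 1) * u)) (ε := ε) hlaw hW hS
    (by
      rw [e3]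
      obtain ⟨k, rfl⟩ : ∃ k, l = k + 1 := ⟨l - 1, by omega⟩
      have b0 : (8 : ℝ) ≤ 2 ^ u := by
        calc (8 : ℝ) = 2 ^ 3 := by norm_num
          _ ≤ 2 ^ u := pow_le_pow_right₀ (by norm_num) hu3
      have b1 : (4 : ℝ) / 2 ^ L ≤ 4 / 2 ^ ((k + 1 + 2) * u) :=
        div_le_div_of_nonneg_left (by norm_num) (by positivity)
          (pow_le_pow_right₀ (by norm_num) hLL)
      have b2 : (1 : ℝ) / 2 ^ (3 * u) / 2 ^ ((k + 1 - 1) * u) = 1 / 2 ^ ((k + 1 + 2) * u) := by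
        rw [div_div, ← pow_add]
        congr 2
        rw [Nat.add_sub_cancel]
        ring
      have b3 : (2 : ℝ) ^ ((k + 1 + 2) * u) = 2 ^ ((k + 1 + 1) * u) * 2 ^ u := by
        rw [← pow_add]
        congr 1
        ring
      rw [b2]
      refine (add_le_add le_rfl b1).trans ?_
      rw [b3]
      have b4 : (0 : ℝ) < 2 ^ ((k + 1 + 1) * u) := by positivity
      have b5 : (0 : ℝ) < 2 ^ u := by positivity
      rw [← add_div, div_le_div_iff₀ (by positivity) b4]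
      nlinarith)
    (h3.trans h2)
  rw [e3] at key
  exact key

end Pool.K2S.G
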