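import Pool.Agent.H13.K2S.Mics
import Pool.Agent.H13.EG.FF
import Pool.Agent.H13.EG.Slo
import Pool.Agent.H13.EG.ActG
import Pool.Agent.H13.EG.Ev
import Pool.Agent.H13.EG.TRN
import Pool.Agent.H13.EG.WSA

/-!
# The engine for a general class (H13.K2S.Mics)
-/

set_option autoImplicit false

namespace Pool.K2S.G

open Finset Real
open Pool.Agent.H49.Ent Pool.Agent.H32.Dense Pool.STK Pool.KA Pool.KSAT
open Pool.K2S Pool.PB Pool.LK

variable {S : FCl 2}

/-- **The crossing of a zone.** -/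
theorem mics_thm (hOC : OCBStmt) (hFRM : FRMStmt S) (hRWS : RWSStmt) (h3 : H3Stmt)
    (h3b : H3bStmt) : MICSStmt S := by
  classical
  intro a R ha hR hU c μ h₁ ω₀ s₀ hc hμ hh₁ hω₀ hs₀
  have hl2 : 0 < Real.log 2 := Real.log_pos (by norm_num)
  have hl2' : Real.log 2 ≤ 1 := by
    have := Real.log_le_sub_one_of_pos (x := 2) (by norm_num)
    linarith
  -- the constants
  obtain ⟨c₁, hc₁⟩ : ∃ c₁, c₁ = min c 1 := ⟨_, rfl⟩
  have hc₁0 : 0 < c₁ := by rw [hc₁]; exact lt_min hc one_pos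
  have hc₁c : c₁ ≤ c := by rw [hc₁]; exact min_le_left _ _
  have hc₁1 : c₁ ≤ 1 := by rw [hc₁]; exact min_le_right _ _
  obtain ⟨s, hs⟩ : ∃ s, s = min s₀ 1 := ⟨_, rfl⟩
  have hs0 : 0 < s := by rw [hs]; exact lt_min hs₀ one_pos
  have hss : s ≤ s₀ := by rw [hs]; exact min_le_left _ _
  have hs1 : s ≤ 1 := by rw [hs]; exact min_le_right _ _
  obtain ⟨cR', C₄, hcR'0, hact⟩ := act_set ha hR hU
  obtain ⟨cR, hcR⟩ : ∃ cR, cR = min cR' 1 := ⟨_, rfl⟩
  have hcR0 : 0 < cR := by rw [hcR]; exact lt_min hcR'0 one_pos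
  have hcR' : cR ≤ cR' := by rw [hcR]; exact min_le_left _ _
  have hcR1 : cR ≤ 1 := by rw [hcR]; exact min_le_right _ _
  obtain ⟨x₀, κ, ϖ, ι, ε, X₀, hx₀, hκ, hκ1, hϖ, hι, hε, hOC⟩ :=
    hOC (c₁ / 4) (cR / 2) (by linarith) (by linarith)
  obtain ⟨C, hC, hJ⟩ := mic_J h3 h3b (cO := c₁ / 4) (ca := cR / 2) hϖ hOC
  obtain ⟨ι₁, hι₁⟩ : ∃ ι₁, ι₁ = min ι 1 := ⟨_, rfl⟩
  have hι₁0 : 0 < ι₁ := by rw [hι₁]; exact lt_min hι one_pos
  have hι₁ι : ι₁ ≤ ι := by rw [hι₁]; exact min_le_left _ _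
  have hι₁1 : ι₁ ≤ 1 := by rw [hι₁]; exact min_le_right _ _
  obtain ⟨Kc, hKc⟩ : ∃ Kc, Kc = 4 / cR := ⟨_, rfl⟩
  have hKc0 : 0 < Kc := by rw [hKc]; positivity
  obtain ⟨ε', hε'⟩ : ∃ ε', ε' = ι₁ / (16 * (Kc + 1)) := ⟨_, rfl⟩
  have hε'0 : 0 < ε' := by rw [hε']; positivity
  have hKε : (Kc + 1) * ε' = ι₁ / 16 := by
    rw [hε']
    have : Kc + 1 ≠ 0 := by linarith
    field_simp
  obtain ⟨κX, hκX⟩ : ∃ κX, κX = min (s / 4) (min (cR / 2) (ε' * s / 8)) := ⟨_, rfl⟩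
  have hκX0 : 0 < κX := by
    rw [hκX]; exact lt_min (by linarith) (lt_min (by linarith) (by positivity))
  have hκX1 : κX ≤ s / 4 := by rw [hκX]; exact min_le_left _ _
  have hκX2 : κX ≤ cR / 2 := by rw [hκX]; exact (min_le_right _ _).trans (min_le_left _ _)
  have hκX3 : κX ≤ ε' * s / 8 := by
    rw [hκX]; exact (min_le_right _ _).trans (min_le_right _ _)
  obtain ⟨χ, hχ⟩ : ∃ χ, χ = κX * s ^ 2 * cR / 32768 := ⟨_, rfl⟩
  have hχ0 : 0 < χ := by rw [hχ]; positivity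
  obtain ⟨θ, hθ⟩ : ∃ θ, θ = κ / 4 * χ := ⟨_, rfl⟩
  have hθ0 : 0 < θ := by rw [hθ]; positivity
  obtain ⟨n₀, hnum⟩ := mic_num hs0 hs1 hcR0 hcR1 hκX0 hκX1 hκX2 hκ hκ1 hx₀ hε'0 hκX3 hθ0
    (by rw [← hχ, hθ])
  refine ⟨θ, hθ0, fun e he => ?_⟩
  obtain ⟨ν, hν⟩ : ∃ ν, ν = min (ι₁ / 8) (c₁ * κ / 16) := ⟨_, rfl⟩
  have hν0 : 0 < ν := by rw [hν]; exact lt_min (by positivity) (by positivity)
  have hν1 : ν ≤ ι₁ / 8 := by rw [hν]; exact min_le_left _ _
  have hν2 : ν ≤ c₁ * κ / 16 := by rw [hν]; exact min_le_right _ _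
  obtain ⟨ηW, hηW⟩ : ∃ ηW, ηW = ν * (χ * e / 2) * Real.log 2 := ⟨_, rfl⟩
  have hηW0 : 0 < ηW := by rw [hηW]; positivity
  obtain ⟨γ, hγ, hWS⟩ := ws_floor S hηW0
  obtain ⟨N₁, hN₁⟩ := exists_nat_gt (n₀ / e + 1 / γ + 1)
  refine ⟨N₁, fun N hN => ?_⟩
  have hNr : n₀ / e + 1 / γ + 1 < N := hN₁.trans_le (by exact_mod_cast hN)
  have r1 : 0 ≤ n₀ / e := by positivity
  have r2 : 0 < 1 / γ := by positivity
  have hN0r : (0 : ℝ) < N := by linarith
  have hN0 : 0 < N := by exact_mod_cast hN0r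
  have hn₀N : (n₀ : ℝ) ≤ e * N := by
    have : n₀ / e ≤ N := by linarith
    rw [div_le_iff₀ he] at this
    linarith
  have hγN : 1 ≤ γ * N := by
    have : 1 / γ ≤ N := by linarith
    rw [div_le_iff₀ hγ] at this
    linarith
  -- the regularity
  have hRW : ∀ x : Fin (N + 1) × Fin (N + 1) × Fin (N + 1), ∃ (η : ℝ) (J₂ : ℕ), 0 < η ∧
      (16 ≤ (x.2.2 : ℕ) → ∀ J ≥ J₂, ∀ (F : Fam 2 J) (A : F.Ω → Prop),
      IsLaw (Pool.Agent.H49.Ent.cond F.p A True) → RowsReg N η F A →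
      (∀ s' t' : ℕ, (x.1 : ℕ) ≤ s' → t' ≤ (x.2.1 : ℕ) → s' + (x.2.2 : ℕ) ≤ t' →
        CH (Pool.Agent.H49.Ent.cond F.p A True) (F.X (t' * (J / N)))
          (fun ω => (F.X (s' * (J / N)) ω, F.W ω)) ≤
        (2 - c₁) * (((t' : ℝ) - s') * ((J / N : ℕ) * Real.log 2))) →
      ∀ A' : F.Ω → Prop, Sub A' A → ϖ * Pe F.p A ≤ Pe F.p A' →
      ∀ P Q : ℕ, (x.1 : ℕ) * (J / N) ≤ P → Q ≤ (x.2.1 : ℕ) * (J / N) →
        P + ((x.2.2 : ℕ) + 2) * (J / N) ≤ Q →
        CH (Pool.Agent.H49.Ent.cond F.p A' True) (F.X Q) (fun ω => (F.X P ω, F.W ω)) ≤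
          (2 - c₁ / 2) * (((Q : ℝ) - P) * Real.log 2)) := by
    intro x
    by_cases h16 : 16 ≤ (x.2.2 : ℕ)
    · obtain ⟨η, J₂, h1, h2⟩ := hRWS c₁ ϖ hc₁0 hc₁1 hϖ N (x.1 : ℕ) (x.2.1 : ℕ) (x.2.2 : ℕ) hN0
        (by omega) h16
      exact ⟨η, J₂, h1, fun _ => h2⟩
    · exact ⟨1, 0, one_pos, fun h => absurd h h16⟩
  choose ηf Jf hηf hRW using hRW
  obtain ⟨η, hη, hηle⟩ := exists_pos_le ηf hηf
  refine ⟨η, hη, fun i₀ pa pb wa wb lam hz hωa hab hωb hrow hstep hfirst hlast hslope => ?_⟩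
  have hnpos : 0 < (pb : ℝ) - pa := lt_of_lt_of_le (by positivity) hz
  have hpbN : pb ≤ N := by
    have h1 : 0 ≤ ω₀ * N := by positivity
    have h2 : (pb : ℝ) ≤ N := by linarith
    exact_mod_cast h2
  have hpapb : pa ≤ pb := by
    have : (pa : ℝ) ≤ pb := by linarith
    exact_mod_cast this
  obtain ⟨k, q₀, nw, t, Xm, sz, Lp, n1, n2, n3, n4, n5, n6, n7, n8, n9, n10, n11, n12, n13, n14,
    n15, n16, n17, n18, n19⟩ := hnum pa pb wa wb lam (hn₀N.trans hz) hab hrow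
    (fun w h1 h2 => (hstep w h1 h2).1) hfirst hlast (fun w w' h1 h2 h3 => by
      obtain ⟨g1, g2⟩ := hslope w w' h1 h2 h3
      have hwr : (w : ℝ) ≤ w' := by exact_mod_cast h2
      constructor
      · rcases le_total 0 ((lam w' : ℝ) - lam w) with h | h
        · exact (mul_le_mul_of_nonneg_right hss h).trans g1
        · refine le_trans (mul_nonpos_of_nonneg_of_nonpos hs0.le h) ?_
          exact le_trans (by linarith) (le_max_left _ _)
      · intro h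
        exact (mul_le_mul_of_nonneg_right hss (by linarith)).trans (g2 h))
  rw [← hχ] at n1
  have hwbN : wb ≤ N := by
    have := (hrow wb hab le_rfl).2
    omega
  have hk0 : 0 < k := by
    by_contra hcon
    have h0 : k = 0 := by omega
    have h1 : (1 : ℝ) ≤ q₀ := by exact_mod_cast n2
    rw [h0] at n3
    simp at n3
    linarith
  have hkN : k ≤ N := by omega
  have hXmr : 0 < (Xm : ℝ) := lt_of_lt_of_le (mul_pos hχ0 hnpos) n1
  have hXm0 : 0 < Xm := by exact_mod_cast hXmr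
  have hXmk : (Xm : ℝ) ≤ k := by
    refine n4.trans ?_
    have : cR / 2 * k ≤ 1 * k := mul_le_mul_of_nonneg_right (by linarith) (Nat.cast_nonneg k)
    linarith
  have hszN : sz ≤ N := by
    have h1 : (sz : ℝ) ≤ k := by
      have : κ * Xm ≤ 1 * Xm := mul_le_mul_of_nonneg_right hκ1 hXmr.le
      linarith
    have h2 : sz ≤ k := by exact_mod_cast h1
    omega
  have hRW' := hRW (⟨pa, by omega⟩, ⟨pb, by omega⟩, ⟨sz, by omega⟩) n7
  have hηle' := hηle (⟨pa, by omega⟩, ⟨pb, by omega⟩, ⟨sz, by omega⟩)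
  -- the claims
  have cF := hFRM a R ha hR hU c₁ μ h₁ hc₁0 hμ hh₁ N sz q₀ (pb - wa) pb (wa + k) wb i₀ lam Lp
    hN0 (by omega) n2 hpbN (fun w h1 h2 => ⟨(n10 w h1 h2).1, (n10 w h1 h2).2.2⟩)
    (fun w w' h1 h2 h3 => n11 w w' (by omega) h2 h3) (fun w q h1 h2 => n15 w q (by omega) h2)
    n14
  have cW0 : Claim S (fun J F A => ∀ v < wb + 1, v + (lam v - 1) ≤ N →
      ∀ A' : F.Ω → Prop, Sub A' A → ϖ * Pe F.p A ≤ Pe F.p A' →
      (¬ Frz F i₀ (0 * (J / N)) (0 * (J / N) + ⌊γ * J⌋₊) A' →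
      ∀ (f n : (Fin 2 → ℤ) × (ℕ × F.ζ) → Fin 2 → ℝ) (z : F.Ω → Fin 2 → ℝ) (H : ℕ),
      (0 + (lam v - 1)) * (J / N) ≤ H → Frm F i₀ A' H f n →
      Win F i₀ A' f (v * (J / N)) ((lam v - 1) * (J / N)) z →
      ∀ P : ℕ, (0 + v) * (J / N) ≤ P → P ≤ J →
        ((P : ℝ) - ((0 + v) * (J / N) : ℕ)) * Real.log 2 - ηW * J ≤
          CH (Pool.Agent.H49.Ent.cond F.p A' True) (fun ω => ⌊(2 : ℝ) ^ P * F.x ω i₀⌋)
            (fun ω => (F.qlb (v * (J / N)) (0 * (J / N)) ((lam v - 1) * (J / N)) i₀ z ω,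
              F.T ω)))) := by
    refine Claim.all (wb + 1) fun v hv => Claim.cnd fun hx => ?_
    exact Claim.ev hϖ ⟨1, hWS N hN0 i₀ v 0 (lam v - 1) (by omega)⟩
  have cNF : Claim S (fun J F A => ∀ A' : F.Ω → Prop, Sub A' A →
      ϖ * Pe F.p A ≤ Pe F.p A' → Lb F i₀ ⌊h₁ * J⌋₊ A' → ¬ Frz F i₀ 0 ⌊γ * J⌋₊ A') :=
    Claim.ev hϖ ⟨0, not_frz0_cl ha.le hR hU hγ hh₁ i₀⟩
  have cWq : Claim S (fun J F A => ∀ w < wb + 1, ∀ q < k + 1,
      q + w + (lam w - 1) ≤ N → (¬ Frz F i₀ (q * (J / N)) (q * (J / N) + ⌊γ * J⌋₊) A →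
      ∀ (f n : (Fin 2 → ℤ) × (ℕ × F.ζ) → Fin 2 → ℝ) (z : F.Ω → Fin 2 → ℝ) (H : ℕ),
      (q + (lam w - 1)) * (J / N) ≤ H → Frm F i₀ A H f n →
      Win F i₀ A f (w * (J / N)) ((lam w - 1) * (J / N)) z →
      ∀ P : ℕ, (q + w) * (J / N) ≤ P → P ≤ J →
        ((P : ℝ) - ((q + w) * (J / N) : ℕ)) * Real.log 2 - ηW * J ≤
          CH (Pool.Agent.H49.Ent.cond F.p A True) (fun ω => ⌊(2 : ℝ) ^ P * F.x ω i₀⌋)
            (fun ω => (F.qlb (w * (J / N)) (q * (J / N)) ((lam w - 1) * (J / N)) i₀ z ω,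
              F.T ω)))) := by
    refine Claim.all (wb + 1) fun w hw => Claim.all (k + 1) fun q hq => Claim.cnd fun hx => ?_
    exact ⟨1, hWS N hN0 i₀ w q (lam w - 1) hx⟩
  have cA := hact h₁ hh₁ N q₀ k hk0 hkN
    (n3.trans (mul_le_mul_of_nonneg_right hcR' (Nat.cast_nonneg k)))
  have cT : Claim S (fun J F A => ∀ w < wb + 1, ∀ q < k + 1,
      (1 ≤ lam w ∧ q + w + lam w ≤ N) → (¬ Cn F i₀ ((lam w + 1) * (J / N)) (w * (J / N)) A →
      ∀ (f n : (Fin 2 → ℤ) × (ℕ × F.ζ) → Fin 2 → ℝ) (z : F.Ω → Fin 2 → ℝ) (φ : F.Ω → ℝ)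
        (H L : ℕ), (lam w + 1) * (J / N) ≤ H → (lam w + 2) * (J / N) ≤ L → Frm F i₀ A H f n →
      Win F i₀ A f (w * (J / N)) ((lam w - 1) * (J / N)) z →
      Slp F i₀ A f (w * (J / N)) (q * (J / N)) ((lam w - 1) * (J / N)) L z φ →
      Pool.KAF.Pr (dbl (Pool.Agent.H49.Ent.cond F.p A True) (fun ω =>
          (F.l ω, F.qlb (w * (J / N)) (q * (J / N)) ((lam w - 1) * (J / N)) i₀ z ω)))
        {x | |(2 : ℝ) ^ ((lam w - 1) * (J / N)) * (φ x.1 - z x.1 (1 - i₀)) -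
          2 ^ ((lam w - 1) * (J / N)) * (φ x.2 - z x.2 (1 - i₀))| < 1 / 2 ^ (3 * (J / N))} ≤
        ε)) := by
    refine Claim.all (wb + 1) fun w hw => Claim.all (k + 1) fun q hq => Claim.cnd fun hx => ?_
    exact trn_thm a R ha hR hU ε hε N w q (lam w) i₀ hN0 hx.1 hx.2
  obtain ⟨δ, hδ⟩ : ∃ δ : ℝ, δ = ι₁ * (Xm / (2 * N)) * Real.log 2 := ⟨_, rfl⟩
  have hδ0 : 0 < δ := by rw [hδ]; positivity
  have cL : Claim S (fun J F A => 0 < Pe F.p A ∧
      IsLaw (Pool.Agent.H49.Ent.cond F.p A True) ∧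
      (J : ℝ) * Real.log 2 - δ * J ≤ CH (Pool.Agent.H49.Ent.cond F.p A True) F.T
        (fun ω => (F.l ω, F.Z ω))) := by
    obtain ⟨τ, hτ⟩ : ∃ τ : ℝ, τ = δ / 6 := ⟨_, rfl⟩
    have hτ0 : 0 < τ := by rw [hτ]; positivity
    refine Claim.of hτ0 0 fun J _ F A hS => ?_
    obtain ⟨h, -, h1, -⟩ := St_res hτ0.le hS
    refine ⟨lt_of_lt_of_le (Real.exp_pos _) hS.2, h, ?_⟩
    have e1 : 6 * τ = δ := by
      rw [hτ]
      ring
    rw [e1] at h1
    exact h1
  obtain ⟨J₃, hJ₃⟩ := exists_nat_gt (2 * N * (X₀ + (C + (Kc + 1) * (ε' + 1) * C + |C₄|) /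
    (ν * cR * Real.log 2) + 2 / κ))
  refine Claim.mono (max (max N J₃) (Jf (⟨pa, by omega⟩, ⟨pb, by omega⟩, ⟨sz, by omega⟩))) ?_
    (((cF.and cW0).and (cNF.and cWq)).and ((cA.and cT).and cL))
  rintro J hJJ F A ⟨⟨⟨dF, dW0⟩, dNF, dWq⟩, ⟨dA, dT⟩, hPe, hQ, hTm⟩ hReg hZ hLb hLn hCn
  have hJN : N ≤ J := ((le_max_left _ _).trans (le_max_left _ _)).trans hJJ
  have hJ3 : J₃ ≤ J := ((le_max_right _ _).trans (le_max_left _ _)).trans hJJ
  have hJf : Jf (⟨pa, by omega⟩, ⟨pb, by omega⟩, ⟨sz, by omega⟩) ≤ J :=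
    (le_max_right _ _).trans hJJ
  obtain ⟨u, hu⟩ : ∃ u, u = J / N := ⟨_, rfl⟩
  have hu0 : 0 < u := by rw [hu]; exact Nat.div_pos hJN hN0
  have hu1 : N * u ≤ J := by rw [hu]; exact Nat.mul_div_le J N
  have hu2 : J < N * (u + 1) := by rw [hu]; exact Nat.lt_mul_div_succ J hN0
  have hur : (1 : ℝ) ≤ u := by exact_mod_cast hu0
  have hu1r : (N : ℝ) * u ≤ J := by exact_mod_cast hu1
  have hu2r : (J : ℝ) ≤ 2 * N * u := by
    have h1 : (J : ℝ) < N * (u + 1) := by exact_mod_cast hu2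
    have h2 : (N : ℝ) * (u + 1) ≤ N * (2 * u) :=
      mul_le_mul_of_nonneg_left (by linarith) hN0r.le
    linarith
  have hJ0 : (0 : ℝ) ≤ J := Nat.cast_nonneg J
  have hJ3r : 2 * N * (X₀ + (C + (Kc + 1) * (ε' + 1) * C + |C₄|) / (ν * cR * Real.log 2) +
      2 / κ) < J := hJ₃.trans_le (by exact_mod_cast hJ3)
  have hRW'' := hRW' J hJf F A hQ (hReg.mono hηle')
  rw [← hu] at dF dW0 dWq dA dT hZ hLn hCn hRW''
  have hden : 0 < ν * cR * Real.log 2 := by positivity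
  have hbu : X₀ + (C + (Kc + 1) * (ε' + 1) * C + |C₄|) / (ν * cR * Real.log 2) + 2 / κ < u := by
    have h1 := hJ3r.trans_le hu2r
    exact lt_of_mul_lt_mul_left h1 (by positivity)
  have hXm19 : 19 ≤ Xm := by
    have h1 : κ * Xm ≤ 1 * Xm := mul_le_mul_of_nonneg_right hκ1 hXmr.le
    have h2 : (sz : ℝ) + 3 ≤ Xm := by linarith
    have h3 : sz + 3 ≤ Xm := by exact_mod_cast h2
    omega
  obtain ⟨X, hX⟩ : ∃ X, X = Xm * u := ⟨_, rfl⟩
  have hXr : (X : ℝ) = Xm * u := by rw [hX]; push_cast; ring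
  have huX : u ≤ X := by
    rw [hX]
    exact Nat.le_mul_of_pos_left u hXm0
  have huXr : (u : ℝ) ≤ X := by exact_mod_cast huX
  have hX1 : (1 : ℝ) ≤ X := hur.trans huXr
  have hX0 : (0 : ℝ) < X := by linarith
  have hB0 : 0 ≤ (C + (Kc + 1) * (ε' + 1) * C + |C₄|) / (ν * cR * Real.log 2) := by positivity
  have hκ2 : 0 < 2 / κ := by positivity
  have hX₀r : (0 : ℝ) ≤ X₀ := Nat.cast_nonneg X₀
  have hX₀X : X₀ ≤ X := by
    have : (X₀ : ℝ) ≤ X := by linarith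
    exact_mod_cast this
  have hB : C + (Kc + 1) * (ε' + 1) * C + |C₄| ≤ ν * cR * Real.log 2 * X := by
    have h1 : (C + (Kc + 1) * (ε' + 1) * C + |C₄|) / (ν * cR * Real.log 2) ≤ X := by linarith
    rw [div_le_iff₀ hden] at h1
    linarith
  have hκX2' : 2 ≤ κ * X := by
    have h1 : 2 / κ ≤ X := by linarith
    rw [div_le_iff₀ hκ] at h1
    linarith
  have hνX : ν * cR * Real.log 2 * X ≤ ν * (X * Real.log 2) := by
    have h1 : 0 ≤ ν * (X * Real.log 2) := by positivity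
    have h2 := mul_le_mul_of_nonneg_right hcR1 h1
    have e1 : ν * cR * Real.log 2 * X = cR * (ν * (X * Real.log 2)) := by ring
    rw [e1]
    linarith
  have hXl0 : 0 < X * Real.log 2 := by positivity
  have hK1 : 0 ≤ (Kc + 1) * (ε' + 1) * C := by positivity
  have habs := abs_nonneg C₄
  have hCX : C ≤ ν * (X * Real.log 2) := by linarith
  have hC4X : |C₄| ≤ ν * cR * Real.log 2 * X := by linarith
  have hKCX : (Kc + 1) * (ε' + 1) * C ≤ ν * (X * Real.log 2) := by linarith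
  have hν8 : ν * (X * Real.log 2) ≤ ι₁ / 8 * (X * Real.log 2) :=
    mul_le_mul_of_nonneg_right hν1 hXl0.le
  have hηX : ηW * J ≤ ν * (X * Real.log 2) := by
    have h1 : χ * e / 2 * J ≤ X := by
      have h2 : χ * (e * N) ≤ Xm := (mul_le_mul_of_nonneg_left hz hχ0.le).trans n1
      have h3 : χ * (e * N) * u ≤ Xm * u := mul_le_mul_of_nonneg_right h2 (by linarith)
      have h4 : χ * e / 2 * J ≤ χ * e / 2 * (2 * N * u) :=
        mul_le_mul_of_nonneg_left hu2r (by positivity)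
      rw [hXr]
      have e1 : χ * e / 2 * (2 * N * u) = χ * (e * N) * u := by ring
      linarith
    have h2 := mul_le_mul_of_nonneg_left h1 (show 0 ≤ ν * Real.log 2 by positivity)
    have e1 : ηW * J = ν * Real.log 2 * (χ * e / 2 * J) := by rw [hηW]; ring
    have e2 : ν * Real.log 2 * X = ν * (X * Real.log 2) := by ring
    linarith
  have hδX : δ * J ≤ ι₁ * (X * Real.log 2) := by
    have h1 := mul_le_mul_of_nonneg_left hu2r hδ0.le
    have e1 : δ * (2 * N * u) = ι₁ * (X * Real.log 2) := by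
      rw [hδ, hXr]
      field_simp
    linarith
  have hιX : ι₁ * (X * Real.log 2) ≤ ι * (X * Real.log 2) :=
    mul_le_mul_of_nonneg_right hι₁ι hXl0.le
  have hXl : X * Real.log 2 ≤ X := by
    have := mul_le_mul_of_nonneg_left hl2' hX0.le
    linarith
  have hιX' : ι * (X * Real.log 2) ≤ ι * X := mul_le_mul_of_nonneg_left hXl hι.le
  have hchain : (Kc + 1) * (ε' * (2 * (X * Real.log 2) + C) + C) ≤ ι₁ / 4 * (X * Real.log 2) := by
    have e1 : (Kc + 1) * (ε' * (2 * (X * Real.log 2) + C) + C) =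
        (Kc + 1) * ε' * (2 * (X * Real.log 2)) + (Kc + 1) * (ε' + 1) * C := by ring
    rw [e1, hKε]
    linarith
  have hfl : κ * X / 2 ≤ ⌊κ * X⌋₊ := by
    have := Nat.lt_floor_add_one (κ * X)
    linarith
  have hwabp : wa ≤ pb := by
    have := (hrow wb hab le_rfl).2
    omega
  have hcast : ((pb - wa : ℕ) : ℝ) = (pb : ℝ) - wa := by
    rw [Nat.cast_sub hwabp]
  -- the frames
  obtain ⟨f, n, z, φ, hFrs⟩ := dF hLb
    (fun h hh => hLn h (by rw [← hcast]; exact hh))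
    (fun w h1 h2 => (hCn w (by omega) h2).1)
    (fun v h1 h2 h3 => by
      have h4 := hZ (v + lam v) (v + lam v + sz) (by have := (hrow v (by omega) h2).1; omega) h3
        (by push_cast; linarith)
      refine h4.trans ?_
      have e1 : (((v + lam v + sz : ℕ) : ℝ) - (v + lam v : ℕ)) = sz := by push_cast; ring
      rw [e1]
      exact mul_le_mul_of_nonneg_right (by linarith) (by positivity))
  -- the active scales
  have hkb : k ≤ pb - wa := by
    have := (hrow wb hab le_rfl).2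
    omega
  have hkbr : (k : ℝ) ≤ (pb : ℝ) - wa := by rw [← hcast]; exact_mod_cast hkb
  obtain ⟨G', hG1, hG2, hG3⟩ := dA i₀ hLb (hLn (k * u) (by
    push_cast
    have h1 := mul_le_mul_of_nonneg_right hkbr (show (0 : ℝ) ≤ u by linarith)
    have h2 : 0 ≤ μ * J := by positivity
    linarith))
  obtain ⟨G, hG⟩ : ∃ G, G = G'.filter fun q => q + Xm ≤ k := ⟨_, rfl⟩
  have hGmem : ∀ q ∈ G, q ∈ G' ∧ q₀ ≤ q ∧ q + Xm ≤ k := by
    intro q hq
    rw [hG, Finset.mem_filter] at hq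
    exact ⟨hq.1, (Finset.mem_Ico.1 (hG1 hq.1)).1, hq.2⟩
  have hGcard : cR / 2 * k ≤ (G.card : ℝ) := by
    have h1 : G'.card ≤ G.card + Xm := by
      rw [← Finset.card_filter_add_card_filter_not (s := G') (fun q => q + Xm ≤ k), ← hG]
      refine Nat.add_le_add_left ?_ _
      calc (G'.filter fun q => ¬ q + Xm ≤ k).card ≤ (Ico (k - Xm) k).card := by
            refine Finset.card_le_card fun q hq => ?_
            rw [Finset.mem_filter] at hq
            have h3 := Finset.mem_Ico.1 (hG1 hq.1)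
            rw [Finset.mem_Ico]
            omega
        _ ≤ Xm := by
            rw [Nat.card_Ico]
            omega
    have h2 : (G'.card : ℝ) ≤ (G.card : ℝ) + Xm := by exact_mod_cast h1
    have h3 := mul_le_mul_of_nonneg_right hcR' (Nat.cast_nonneg (α := ℝ) k)
    linarith
  have hkr : (0 : ℝ) < k := by exact_mod_cast hk0
  have hGne : G.Nonempty := by
    rw [← Finset.card_pos]
    have : (0 : ℝ) < G.card := lt_of_lt_of_le (by positivity) hGcard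
    exact_mod_cast this
  have hKG : 2 * (k : ℝ) ≤ Kc * G.card := by
    have h1 := mul_le_mul_of_nonneg_left hGcard hKc0.le
    have e1 : Kc * (cR / 2 * k) = 2 * k := by
      rw [hKc]
      field_simp
      ring
    linarith
  -- the numbers of a context
  have hctx : ∀ w q, wa + k ≤ w → w < wa + k + nw → q ∈ G →
      w < wb + 1 ∧ q < k + 1 ∧ w + q ≤ wb ∧ q + w + Xm ≤ N ∧ q + w + lam w ≤ N ∧
      q + lam w ≤ pb - wa ∧ 2 ≤ lam w ∧ 1 ≤ q := by
    intro w q h1 h2 h3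
    obtain ⟨-, h4, h5⟩ := hGmem q h3
    have h6 := hrow (w + q) (by omega) (by omega)
    have h7 := n11 w (w + q) (by omega) (by omega) (by omega)
    have h8 := n15 w q (by omega) (by omega)
    have h9 := n10 w h1 (by omega)
    refine ⟨by omega, by omega, by omega, by omega, by omega, h8, h9.1, by omega⟩
  have hcond : ∀ E : F.Ω → Prop, ϖ ≤ Pe (Pool.Agent.H49.Ent.cond F.p A True) E →
      ϖ * Pe F.p A ≤ Pe F.p (fun ω => A ω ∧ E ω) := by
    intro E hE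
    rw [Pe_cond, le_div_iff₀ hPe] at hE
    exact hE
  refine hJ J F i₀ A u ((pb - wa) * u) pa pb (wa + k) wb q₀ k nw t Xm sz lam Lp f n z φ G
    (c₁ / 2) Kc ε' (ι₁ / 4 * (X * Real.log 2)) (δ * J) (ηW * J) hPe hFrs hu0 n5 n6
    ((Nat.mul_le_mul_right u hpbN).trans hu1) n9 n10
    (fun w w' h1 h2 h3 => n11 w w' (by omega) h2 h3) n12 n13
    (fun w q h1 h2 => Nat.mul_le_mul_right u (n15 w q (by omega) h2))
    (fun q hq => (hGmem q hq).2) hGne (n16.trans hKG) n17 (by rw [← hX]; exact hX₀X) n18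
    ?_ ?_ ?_ ?_ ?_ ?_ ?_ hTm ?_ ?_ ?_ ?_ ?_
  · rw [← hX]
    linarith
  · rw [← hX, mul_assoc]
    linarith
  · rw [← hX]
    linarith
  · rw [← hX]
    exact hchain
  · rw [← hX, mul_assoc]
    linarith
  · rw [← hX]
    refine Nat.le_floor ?_
    push_cast
    have h1 : ((sz : ℝ) + 3) * u ≤ κ * Xm * u :=
      mul_le_mul_of_nonneg_right n19 (by linarith)
    rw [hXr]
    linarith
  · rw [← hX]
    have h1 := mul_le_mul_of_nonneg_right hfl hl2.le
    have h2 := mul_le_mul_of_nonneg_left h1 (show 0 ≤ c₁ / 4 by linarith)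
    have h3 : ν * (X * Real.log 2) ≤ c₁ * κ / 16 * (X * Real.log 2) :=
      mul_le_mul_of_nonneg_right hν2 hXl0.le
    have e1 : c₁ / 4 * (κ * X / 2 * Real.log 2) = 2 * (c₁ * κ / 16 * (X * Real.log 2)) := by ring
    have e2 : c₁ / 2 - c₁ / 4 = c₁ / 4 := by ring
    rw [e2]
    linarith
  · intro w q h1 h2 h3
    obtain ⟨g1, g2, g3, g4, g5, g6, g7, g8⟩ := hctx w q h1 h2 h3
    have h4 := (hG3 q (hGmem q h3).1 Xm (hGmem q h3).2.2).2.2 f n (w * u) ((lam w - 1) * u)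
      ((pb - wa) * u) (z w) hFrs.frm (hFrs.win w h1 (by omega))
      (by
        have : (q + w + (lam w - 1)) * u ≤ N * u := Nat.mul_le_mul_right u (by omega)
        have e1 : q * u + w * u + (lam w - 1) * u = (q + w + (lam w - 1)) * u := by ring
        omega)
      (by
        have : (q + (lam w - 1)) * u ≤ (pb - wa) * u := Nat.mul_le_mul_right u (by omega)
        have e1 : q * u + (lam w - 1) * u = (q + (lam w - 1)) * u := by ring
        omega)
    refine le_trans ?_ h4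
    rw [← hX, ← mul_assoc (Xm : ℝ), ← hXr]
    have h5 := mul_le_mul_of_nonneg_right hcR' hXl0.le
    have h6 := le_abs_self C₄
    have h7 : ν * cR * Real.log 2 * X ≤ 1 / 8 * (cR * (X * Real.log 2)) := by
      have h8 : ν ≤ 1 / 8 := by linarith
      have e1 : ν * cR * Real.log 2 * X = ν * (cR * (X * Real.log 2)) := by ring
      rw [e1]
      exact mul_le_mul_of_nonneg_right h8 (by positivity)
    have h9 : 0 < cR * (X * Real.log 2) := by positivity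
    have e2 : cR / 2 * X * Real.log 2 = 1 / 2 * (cR * (X * Real.log 2)) := by ring
    rw [e2]
    linarith
  · intro w q h1 h2 h3
    obtain ⟨g1, g2, g3, g4, g5, g6, g7, g8⟩ := hctx w q h1 h2 h3
    have hnf : ¬ Frz F i₀ (q * u) (q * u + ⌊γ * J⌋₊) A := by
      intro hcon
      have h4 := (hG3 q (hGmem q h3).1 1 (by have := (hGmem q h3).2.2; omega)).2.1 one_pos
      apply h4
      refine Frz.le ?_ hcon
      have h5 : u ≤ ⌊γ * J⌋₊ := by
        refine Nat.le_floor ?_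
        have h6 : (1 : ℝ) * u ≤ γ * N * u := mul_le_mul_of_nonneg_right hγN (by linarith)
        have h7 := mul_le_mul_of_nonneg_left hu1r hγ.le
        linarith
      have e1 : (q + 1) * u = q * u + u := by ring
      omega
    have h4 := dWq w g1 q g2 (by omega) hnf f n (z w) ((pb - wa) * u)
      (Nat.mul_le_mul_right u (by omega)) hFrs.frm (hFrs.win w h1 (by omega))
      (q * u + w * u + Xm * u) (by
        have e1 : (q + w) * u = q * u + w * u := by ring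
        omega)
      (by
        have : (q + w + Xm) * u ≤ N * u := Nat.mul_le_mul_right u (by omega)
        have e1 : q * u + w * u + Xm * u = (q + w + Xm) * u := by ring
        omega)
    refine le_trans (le_of_eq ?_) h4
    push_cast
    ring
  · intro E hE v h1 h2 P h3 h4
    have g := n10 v h1 h2
    have hS : Sub (fun ω => A ω ∧ E ω) A := fun ω h => h.1
    have h5 := dW0 v (by omega) (by omega) (fun ω => A ω ∧ E ω) hS (hcond E hE)
      (by
        rw [Nat.zero_mul, Nat.zero_add]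
        exact dNF (fun ω => A ω ∧ E ω) hS (hcond E hE) (hLb.sub hS))
      f n (z v) ((pb - wa) * u) (by
        rw [Nat.zero_add]
        refine Nat.mul_le_mul_right u ?_
        have := n15 v 0 (by omega) (by omega)
        omega)
      (hFrs.frm.sub hS) ((hFrs.win v h1 h2).sub hS) P (by rw [Nat.zero_add]; exact h3) h4
    rw [Nat.zero_add, Nat.zero_mul] at h5
    exact h5
  · intro E hE P Q h1 h2 h3
    refine hRW'' ?_ (fun ω => A ω ∧ E ω) (fun ω h => h.1) (hcond E hE) P Q h1 h2 h3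
    intro s' t' h4 h5 h6
    have h7 : (s' : ℝ) + sz ≤ t' := by exact_mod_cast h6
    refine (hZ s' t' h4 h5 (by linarith)).trans ?_
    refine mul_le_mul_of_nonneg_right (by linarith) ?_
    have h8 : 0 ≤ (t' : ℝ) - s' := by
      have : (0 : ℝ) ≤ sz := Nat.cast_nonneg sz
      linarith
    positivity
  · intro w q h1 h2 h3
    obtain ⟨g1, g2, g3, g4, g5, g6, g7, g8⟩ := hctx w q h1 h2 h3
    have hq0 := (hGmem q h3).2.1
    have h4 := (n13 w w q h1 h2 h1 h2 hq0 g3).1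
    exact dT w g1 q g2 ⟨by omega, g5⟩ (hCn w (by omega) (by omega)).2 f n (z w) (φ w q)
      ((pb - wa) * u) (Lp (q + w + (lam w - 1)) * u) (Nat.mul_le_mul_right u (by omega))
      (Nat.mul_le_mul_right u (by omega)) hFrs.frm (hFrs.win w h1 (by omega))
      (hFrs.slp w q h1 hq0 g3)

end Pool.K2S.G
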