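import Pool.Agent.H5.K2.Half
import Pool.Agent.H13.EG.Claim

/-!
# The engine for a general class (H5.K2.Half)
-/

set_option autoImplicit false

namespace Pool.K2S.G

open Finset Real
open Pool.Agent.H49.Ent Pool.Agent.H32.Dense Pool.STK Pool.KA
open Pool.K2S Pool.PB Pool.LK

variable {m : ℕ} {S : FCl m}

/-- A claim for the event is a claim for all its parts of proportion at least `1 / 2`. -/
theorem Cl.half : ∀ {r : ℕ} {Φ : Stat m}, Cl S r Φ →
    Cl S r (fun _ F A => ∀ A₁ : F.Ω → Prop, Sub A₁ A → Pe F.p A / 2 ≤ Pe F.p A₁ → Φ _ F A₁)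
  | 0, Φ, ⟨τ, hτ, J₁, hc⟩ => by
    obtain ⟨J₂, hJ₂⟩ := exists_nat_gt (2 * Real.log 2 / τ)
    refine ⟨τ / 2, by positivity, max J₁ J₂, fun J hJ F A hA A₁ _ hP => ?_⟩
    have h1 : J₁ ≤ J := (le_max_left _ _).trans hJ
    have h2 : (J₂ : ℝ) ≤ J := by exact_mod_cast (le_max_right J₁ J₂).trans hJ
    have h3 : 2 * Real.log 2 / τ < J := lt_of_lt_of_le hJ₂ h2
    rw [div_lt_iff₀ hτ] at h3
    exact hc J h1 F A₁ ⟨S.mono (by linarith) hA.1, half_exp (by linarith) hA.2 hP⟩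
  | r + 1, Φ, ⟨L, hc⟩ => by
    refine ⟨L, fun κ hκ => ?_⟩
    obtain ⟨J₂, hJ₂⟩ := exists_nat_gt (2 * Real.log 2 / κ)
    refine Cl.mono (J₂ := J₂) ?_ (Cl.half (hc (κ / 2) (by positivity)))
    intro J hJ F A h1 h2 A₁ hsub hP
    refine h1 A₁ hsub hP fun i => ?_
    have h3 := h2 i
    have h4 : (J₂ : ℝ) ≤ J := by exact_mod_cast hJ
    have h5 : 2 * Real.log 2 / κ < J := lt_of_lt_of_le hJ₂ h4
    rw [div_lt_iff₀ hκ] at h5
    have h6 : Real.exp (-Real.log 2) * Pe F.p A ≤ Pe F.p A₁ := by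
      rw [Real.exp_neg, Real.exp_log (by norm_num)]
      linarith
    have h7 := h3.sub (L.her J F i) hsub h6
    exact h7.mono F.isLaw (by linarith)

theorem Claim.half {Φ : Stat m} (h : Claim S Φ) :
    Claim S (fun _ F A => ∀ A₁ : F.Ω → Prop, Sub A₁ A → Pe F.p A / 2 ≤ Pe F.p A₁ →
      Φ _ F A₁) := h.imp fun _ hr => Cl.half hr

end Pool.K2S.G
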