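import Pool.Agent.H13.EG.Asm
import Pool.Agent.H13.EG.Cht
import Pool.Agent.H13.EG.Zon
import Pool.Agent.H13.EG.FF
import Pool.Agent.H13.EG.EngR
import Pool.Agent.H13.EG.Mics
import Pool.Agent.H13.EG.Mnj1
import Pool.Agent.H13.EG.FRM
import Pool.Agent.H8.K2S.H3
import Pool.Agent.H59.OC.OCB
import Pool.Agent.H97.OC.Thm
import Pool.Agent.H70.OC.RWS

/-!
# The engine for a general class
-/

set_option autoImplicit false

namespace Pool.K2S.G

open Pool.KA Pool.STK Pool.KSAT Pool.K2S Pool.PB Pool.LK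

/-- **The engine**: a class of families with the two gateways and without planks satisfies
every claim. -/
theorem engine {S : FCl 2} {a R : ℝ} (ha : 1 < a) (hR : 0 < R) (hU : GW S a R)
    (hNPC : NPCStmt S) : Clg S (fun _ _ _ => False) := by
  refine clg_false (cht_thm S) (zon_thm S) ff_thm
    (eng_of_mics mnj1_thm (mics_thm (ocb_thm Pool.OC.oc_thm) frm_thm rws_thm h3 h3b))
    ha hR hU ?_
  obtain ⟨x, hx, hx1, h⟩ := hNPC a R ha hR hU
  refine ⟨x, hx, hx1, fun h₁ hh₁ => ?_⟩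
  obtain ⟨N₁, hN⟩ := h h₁ hh₁
  exact ⟨N₁, fun N hNN i₀ j v h1 h2 h3 => (hN N hNN i₀ j v h1 h2 h3).clg⟩

end Pool.K2S.G
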